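import Pool.Agent.Crv.Defs
import Pool.Agent.TInf.FamRoots

/-!
# Eigenvalues at a place
-/

set_option autoImplicit false

noncomputable section

namespace Pool.Agent.Crv

open Polynomial
open Pool.Agent.ZCyc
open Pool.Agent.VFP (Om tt)

universe u

variable {k : Type u} [Field k] [IsAlgClosed k] [CharZero k]

/-- the characteristic polynomial of a matrix with entries in `k[t]` at a place where `τ` has the value
`τ₁` -/
theorem charpoly_at {ι : Type} [Fintype ι] [DecidableEq ι] (M : Matrix ι ι k[X]) {τ : Om k}
    {v : Place k (Om k)} {τ₁ : k} (hv : v.At τ τ₁) (m : ℕ) :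
    v.At ((M.map (aeval τ : k[X] →ₐ[k] Om k)).charpoly.coeff m)
      ((M.map (aeval τ₁ : k[X] →ₐ[k] k)).charpoly.coeff m) := by
  have h1 : (M.map (aeval τ : k[X] →ₐ[k] Om k)).charpoly.coeff m =
      aeval τ (M.charpoly.coeff m) := by
    have := Matrix.charpoly_map M ((aeval τ : k[X] →ₐ[k] Om k) : k[X] →+* Om k)
    have h2 := congrArg (fun P => P.coeff m) this
    simp only [coeff_map] at h2
    exact h2
  have h3 : (M.map (aeval τ₁ : k[X] →ₐ[k] k)).charpoly.coeff m =
      (M.charpoly.coeff m).eval τ₁ := by
    have := Matrix.charpoly_map M ((aeval τ₁ : k[X] →ₐ[k] k) : k[X] →+* k)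
    have h2 := congrArg (fun P => P.coeff m) this
    simp only [coeff_map] at h2
    rw [← coe_aeval_eq_eval]
    exact h2
  rw [h1, h3]
  exact hv.aeval _

/-- If a monic polynomial over `Om k` with the roots `d i` has coefficients with values at `v`, then
the roots have values, and these are the roots of the polynomial of the values. -/
theorem roots_at {ι : Type} [Fintype ι] {d : ι → Om k} {v : Place k (Om k)} {q : k[X]}
    (hq : q.Monic) (h : ∀ m, v.At ((∏ i, (X - C (d i))).coeff m) (q.coeff m)) :
    ∃ d' : ι → k, (∀ i, v.At (d i) (d' i)) ∧ q = ∏ i, (X - C (d' i)) := by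
  have hmem : ∀ j, d j ∈ v.ring := by
    intro j
    have hl : (∏ j, (X - C (d j))) ∈ lifts v.ring.subtype := by
      rw [lifts_iff_coeff_lifts]
      intro m
      exact ⟨⟨_, (h m).mem⟩, rfl⟩
    obtain ⟨q, hq1, -, hq2⟩ := lifts_and_natDegree_eq_and_monic hl
      (monic_prod_of_monic _ _ fun j _ => monic_X_sub_C (d j))
    have hint : IsIntegral v.ring (d j) := by
      refine ⟨q, hq2, ?_⟩
      have h2 : Polynomial.eval₂ v.ring.subtype (d j) q = 0 := by
        rw [← eval_map, hq1, eval_prod]
        refine Finset.prod_eq_zero (Finset.mem_univ j) ?_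
        rw [eval_sub, eval_X, eval_C, sub_self]
      exact h2
    obtain ⟨y, hy⟩ := IsIntegrallyClosed.isIntegral_iff.1 hint
    rw [← hy]
    exact y.2
  choose d' hd' using fun j => DCI57.exists_at v (hmem j)
  refine ⟨d', hd', ?_⟩
  have hinf : Infinite k := IsAlgClosed.instInfinite
  refine Polynomial.funext fun c => ?_
  have h2 : v.At (Polynomial.eval (algebraMap k (Om k) c) (∏ j, (X - C (d j))))
      (Polynomial.eval c (∏ j, (X - C (d' j)))) := by
    rw [Polynomial.eval_prod, Polynomial.eval_prod]
    refine Place.At.prod fun j _ => ?_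
    rw [eval_sub, eval_X, eval_C, eval_sub, eval_X, eval_C]
    exact (Place.at_const c).sub (hd' j)
  have h3 : v.At (Polynomial.eval (algebraMap k (Om k) c) (∏ j, (X - C (d j))))
      (Polynomial.eval c q) := by
    rw [eval_eq_sum_range' (n := max ((∏ j, (X - C (d j))).natDegree) q.natDegree + 1)
      (Nat.lt_succ_of_le (le_max_left _ _)),
      eval_eq_sum_range' (n := max ((∏ j, (X - C (d j))).natDegree) q.natDegree + 1)
      (Nat.lt_succ_of_le (le_max_right _ _))]
    refine Place.At.sum fun i _ => ?_
    exact (h i).mul ((Place.at_const c).pow i)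
  exact h3.unique h2

end Pool.Agent.Crv
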