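import Mathlib

/-!
# Finite sets of points
-/

set_option autoImplicit false

noncomputable section

namespace Pool.Agent.Crv

open Polynomial

universe u

variable {k : Type u} [Field k] {R : Type u} [CommRing R] [Algebra k R]

/-- an element with given values at finitely many points -/
theorem exists_interp {κ : Type*} [Finite κ] (S : κ → (R →ₐ[k] k)) (hS : Function.Injective S)
    (a : κ → k) : ∃ g : R, ∀ i, S i g = a i := by
  classical
  have hsurj : ∀ i, Function.Surjective (S i : R →+* k) := fun i c =>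
    ⟨algebraMap k R c, (S i).commutes c⟩
  have hmax : ∀ i, (RingHom.ker (S i : R →+* k)).IsMaximal := fun i =>
    RingHom.ker_isMaximal_of_surjective _ (hsurj i)
  have hco : Pairwise fun i j =>
      IsCoprime (RingHom.ker (S i : R →+* k)) (RingHom.ker (S j : R →+* k)) := by
    intro i j hij
    rw [Ideal.isCoprime_iff_sup_eq]
    refine Ideal.IsMaximal.coprime_of_ne (hmax i) (hmax j) ?_
    intro h
    apply hij
    apply hS
    ext g
    have h1 : g - algebraMap k R (S i g) ∈ RingHom.ker (S i : R →+* k) := by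
      rw [RingHom.mem_ker]
      simp
    rw [h, RingHom.mem_ker] at h1
    have h2 : S j g - S i g = 0 := by simpa using h1
    exact (sub_eq_zero.1 h2).symm
  choose r hr using fun i => hsurj i (a i)
  obtain ⟨g, hg⟩ := (Ideal.quotientInfToPiQuotient_surj hco)
    (fun i => Ideal.Quotient.mk (RingHom.ker (S i : R →+* k)) (r i))
  obtain ⟨g, rfl⟩ := Ideal.Quotient.mk_surjective g
  refine ⟨g, fun i => ?_⟩
  have h1 := congrFun hg i
  rw [Ideal.quotientInfToPiQuotient_mk'] at h1
  rw [Ideal.Quotient.eq, RingHom.mem_ker, map_sub, sub_eq_zero] at h1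
  rw [← hr i]
  exact h1

/-- an element which has different values at finitely many different points -/
theorem exists_sep [Infinite k] {κ : Type*} [Finite κ] (S : κ → (R →ₐ[k] k)) :
    ∃ g : R, ∀ i j, S i g = S j g → S i = S j := by
  classical
  have : Finite (Set.range S) := Set.finite_range S
  obtain ⟨n, ⟨e⟩⟩ := Finite.exists_equiv_fin (Set.range S)
  obtain ⟨g, hg⟩ := exists_interp (fun x : Set.range S => x.1) Subtype.val_injective
    (fun x => Infinite.natEmbedding k (e x))
  refine ⟨g, fun i j h => ?_⟩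
  have h1 := hg ⟨S i, i, rfl⟩
  have h2 := hg ⟨S j, j, rfl⟩
  have h3 : Infinite.natEmbedding k (e ⟨S i, i, rfl⟩) =
      Infinite.natEmbedding k (e ⟨S j, j, rfl⟩) := by
    rw [← h1, ← h2]
    exact h
  have h4 := e.injective (Fin.ext ((Infinite.natEmbedding k).injective h3))
  exact congrArg Subtype.val h4

private theorem kQ_roots {κ : Type*} [Fintype κ] (t : κ → k) :
    (∏ j, (X - C (t j))).roots = Finset.univ.val.map t := by
  have h1 : ∏ j, (X - C (t j)) = ((Finset.univ.val.map t).map fun a => X - C a).prod := by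
    rw [Multiset.map_map]
    rfl
  rw [h1, roots_multiset_prod_X_sub_C]

private theorem kQ_perm {κ : Type*} [Fintype κ] {f g : κ → k}
    (h : ∏ j, (X - C (f j)) = ∏ j, (X - C (g j))) : ∃ σ : Equiv.Perm κ, f = g ∘ σ := by
  classical
  have h0 : (Finset.univ.val.map f : Multiset k) = Finset.univ.val.map g := by
    rw [← kQ_roots, ← kQ_roots, h]
  have hc : ∀ a, Fintype.card {x // f x = a} = Fintype.card {x // g x = a} := by
    intro a
    have h1 := congrArg (Multiset.count a) h0
    rw [Multiset.count_map, Multiset.count_map] at h1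
    rw [Fintype.card_subtype, Fintype.card_subtype]
    simpa [Finset.card_def, eq_comm] using h1
  refine ⟨Equiv.ofFiberEquiv (f := f) (g := g) (fun a => Fintype.equivOfCardEq (hc a)), ?_⟩
  funext x
  exact (Equiv.ofFiberEquiv_map _ x).symm

/-- two families with the same values -/
theorem perm_of_values [Infinite k] {κ : Type*} [Fintype κ] {s c : κ → (R →ₐ[k] k)}
    (h : ∀ g, ∏ i, (X - C (s i g)) = ∏ i, (X - C (c i g))) :
    ∃ π : Equiv.Perm κ, ∀ i, s i = c (π i) := by
  classical
  obtain ⟨g, hg⟩ := exists_sep (Sum.elim s c)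
  obtain ⟨π, hπ⟩ := kQ_perm (h g)
  refine ⟨π, fun i => ?_⟩
  have h3 := hg (Sum.inl i) (Sum.inr (π i))
  simp only [Sum.elim_inl, Sum.elim_inr] at h3
  exact h3 (congrFun hπ i)

theorem exists_eq_of_values [Infinite k] {κ : Type*} [Finite κ] {s : κ → (R →ₐ[k] k)}
    {δ : R →ₐ[k] k} (h : ∀ g, ∃ i, s i g = δ g) : ∃ i, s i = δ := by
  classical
  obtain ⟨g, hg⟩ := exists_sep (fun o : Option κ => o.elim δ s)
  obtain ⟨i, hi⟩ := h g
  exact ⟨i, hg (some i) none hi⟩

end Pool.Agent.Crv
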