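import Pool.Agent.Crv.Start
import Pool.Agent.Crv.Sep
import Pool.Agent.Crv.At

/-!
# The moving points
-/

set_option autoImplicit false

noncomputable section

namespace Pool.Agent.Crv

open Polynomial
open Pool.Agent.ZCyc
open Pool.Agent.VFP (Om tt)

universe u

attribute [local instance] Polynomial.algebra

variable {k : Type u} [Field k] [IsAlgClosed k] [CharZero k] {R : Type u} [CommRing R]
  [Algebra k R] {D : ℕ} {B : Bas k R D} {N : ℕ} {s : Fin N → k}
  {c : Fin N → Fin D → (R →ₐ[k] k)}

/-- the point over `Om k` -/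
def cst (c : R →ₐ[k] k) : R →ₐ[k] Om k := (Algebra.ofId k (Om k)).comp c

/-- a monic polynomial over an algebraically closed field is a product of linear factors -/
private lemma crvch_exists_prod {K : Type*} [Field K] [IsAlgClosed K] {ι : Type*} [Fintype ι]
    {q : K[X]} (hq : q.Monic) (hd : q.natDegree = Fintype.card ι) :
    ∃ d : ι → K, q = ∏ i, (X - C (d i)) := by
  have hsp : q.Splits := IsAlgClosed.splits q
  have hcard : Multiset.card q.roots = Fintype.card ι := by
    rw [← hsp.natDegree_eq_card_roots, hd]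
  obtain ⟨l, hl⟩ : ∃ l : List K, (l : Multiset K) = q.roots := Quot.exists_rep _
  have hlen : Fintype.card ι = l.length := by
    rw [← hcard, ← hl, Multiset.coe_card]
  refine ⟨fun i => l.get (((Fintype.equivFin ι).trans (finCongr hlen)) i), ?_⟩
  rw [Equiv.prod_comp ((Fintype.equivFin ι).trans (finCongr hlen)) fun j => X - C (l.get j),
    hsp.eq_prod_roots_of_monic hq, ← hl, Multiset.map_coe, Multiset.prod_coe]
  exact (Fin.prod_univ_fun_getElem l fun a => X - C a).symm

/-- different values of a product of linear factors -/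
private lemma crvch_perm {K : Type*} [Field K] {ι : Type*} [Fintype ι] {c d : ι → K}
    (hc : Function.Injective c) (h : ∏ i, (X - C (d i)) = ∏ i, (X - C (c i))) :
    ∃ π : Equiv.Perm ι, ∀ i, d (π i) = c i := by
  classical
  have h1 : ∀ i, ∃ j, d j = c i := by
    intro i
    have h2 : (∏ i, (X - C (d i))).eval (c i) = 0 := by
      rw [h, eval_prod]
      exact Finset.prod_eq_zero (Finset.mem_univ i) (by simp)
    rw [eval_prod, Finset.prod_eq_zero_iff] at h2
    obtain ⟨j, -, hj⟩ := h2
    refine ⟨j, ?_⟩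
    simp only [eval_sub, eval_X, eval_C] at hj
    exact (sub_eq_zero.1 hj).symm
  choose f hf using h1
  have hinj : Function.Injective f := by
    intro i j hij
    apply hc
    rw [← hf i, ← hf j, hij]
  exact ⟨Equiv.ofBijective f (Finite.injective_iff_bijective.1 hinj), fun i => hf i⟩

/-- Choose `g₀` with different values at the `c j i` (`exists_sep`). By `charpoly_at`, `roots_at` and
`charpoly_zero` (at `v₀`) the eigenvalues of `muAt b τ g₀` can be enumerated as `d (j, i)` with the
residues `c j i g₀`, so they are different. For `i ≠ 0` the point `cst (c j i)` satisfies `fam = 0`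
(`hPc`, `fam_eval`), so `exists_rows` gives a left eigenvector with the eigenvalues `c j i g`; so
`c j i g₀` is one of the `d`, hence `d (j, i)` (compare the residues), and the last part of
`exists_chars` gives `S (j, i) = cst (c j i)`. -/
theorem chars [IsDomain R] (hc : Pts0 B s c) {P : R} (hP : P ∈ B.Lt N)
    (hPc : ∀ (j : Fin N) (i : Fin D), (i : ℕ) ≠ 0 → c j i P = 0)
    (b : Module.Basis (Fin N × Fin D) k[X] (Qt (B.fam s P))) {τ : Om k} {v₀ : Place k (Om k)}
    (hv₀ : v₀.At τ 0) :
    ∃ S : Fin N → Fin D → (R →ₐ[k] Om k),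
      (∀ (j : Fin N) (i : Fin D), (i : ℕ) ≠ 0 → S j i = cst (c j i)) ∧
      ∀ g, (muAt b τ g).charpoly = ∏ p : Fin N × Fin D, (X - C (S p.1 p.2 g)) := by
  classical
  have hcinj : Function.Injective fun p : Fin N × Fin D => c p.1 p.2 := by
    rintro ⟨j, i⟩ ⟨j', i'⟩ h
    have h : c j i = c j' i' := h
    have hj : j = j' := by
      apply hc.hs
      rw [← hc.hx j i, ← hc.hx j' i', h]
    subst hj
    rw [hc.inj j h]
  obtain ⟨g₀, hg₀⟩ := exists_sep fun p : Fin N × Fin D => c p.1 p.2
  have hval : Function.Injective fun p : Fin N × Fin D => c p.1 p.2 g₀ := fun p q h =>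
    hcinj (hg₀ p q h)
  obtain ⟨d, hd⟩ := crvch_exists_prod (ι := Fin N × Fin D)
    (Matrix.charpoly_monic (muAt b τ g₀)) (Matrix.charpoly_natDegree_eq_dim _)
  obtain ⟨d', hd', hq⟩ := roots_at (v := v₀) (d := d)
    (Matrix.charpoly_monic (muAt b (0 : k) g₀)) (by
      intro m
      rw [← hd]
      exact charpoly_at (mu b g₀) hv₀ m)
  rw [charpoly_zero hc b g₀] at hq
  obtain ⟨π, hπ⟩ := crvch_perm (c := fun p : Fin N × Fin D => c p.1 p.2 g₀) hval hq.symm
  have he : ∀ p, v₀.At (d (π p)) (c p.1 p.2 g₀) := fun p => by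
    rw [← hπ p]
    exact hd' _
  have hdi : Function.Injective fun p => d (π p) := by
    intro p q h
    have h : d (π p) = d (π q) := h
    apply hval
    have h1 := he p
    rw [h] at h1
    exact h1.unique (he q)
  have hchar : (muAt b τ g₀).charpoly = ∏ p, (X - C (d (π p))) := by
    rw [hd]
    exact (Equiv.prod_comp π fun p => X - C (d p)).symm
  obtain ⟨μ, hμ⟩ := exists_muHom b τ
  obtain ⟨S, hS1, hS2, hS3⟩ := exists_chars μ g₀ (fun p => d (π p)) hdi (by rw [hμ, hchar])
  refine ⟨fun j i => S (j, i), ?_, ?_⟩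
  · intro j i hi
    have h0 : (B.fam s P).eval₂ (cst (c j i) : R →+* Om k) τ = 0 := by
      rw [fam_eval]
      have h1 : cst (c j i) P = 0 := by
        change algebraMap k (Om k) (c j i P) = 0
        rw [hPc j i hi, map_zero]
      rw [h1, mul_zero, add_zero]
      apply Finset.prod_eq_zero (Finset.mem_univ j)
      change algebraMap k (Om k) (c j i B.x) - algebraMap k (Om k) (s j) = 0
      rw [hc.hx, sub_self]
    obtain ⟨ψ, hψ, hψ'⟩ := exists_rows b τ (κ := Unit) (fun _ => cst (c j i))
      (Function.injective_of_subsingleton _) (fun _ => h0)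
    have hne : ψ () ≠ 0 := hψ.ne_zero ()
    have hroot := root_of_row (muAt b τ g₀) hne (hψ' () g₀)
    rw [hchar, eval_prod, Finset.prod_eq_zero_iff] at hroot
    obtain ⟨p, -, hp⟩ := hroot
    simp only [eval_sub, eval_X, eval_C] at hp
    have hp := sub_eq_zero.1 hp
    have h2 : v₀.At (cst (c j i) g₀) (c j i g₀) := Place.at_const _
    rw [hp] at h2
    have h3 : p = (j, i) := hval ((he p).unique h2)
    subst h3
    ext g
    exact (hS3 (fun g => cst (c j i) g) (ψ ()) hne (fun g => by rw [hμ]; exact hψ' () g)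
      (j, i) hp g).symm
  · intro g
    rw [← hμ, hS2]

end Pool.Agent.Crv
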