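import Mathlib

/-!
# Endomorphisms with the same cokernel
-/

set_option autoImplicit false

noncomputable section

namespace Pool.Agent.Crv

/-- the automorphism `(m, m') ↦ (m - u' m', m' + u (m - u' m'))` -/
private def cokShear {A M M' : Type*} [CommRing A] [AddCommGroup M] [AddCommGroup M']
    [Module A M] [Module A M'] (u : M →ₗ[A] M') (u' : M' →ₗ[A] M) :
    (M × M') ≃ₗ[A] (M × M') where
  toFun p := (p.1 - u' p.2, p.2 + u (p.1 - u' p.2))
  map_add' p q := by
    ext
    · simp only [Prod.fst_add, Prod.snd_add, map_add]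
      abel
    · simp only [Prod.fst_add, Prod.snd_add, map_add, map_sub]
      abel
  map_smul' c p := by
    ext
    · simp only [Prod.smul_fst, Prod.smul_snd, map_smul, RingHom.id_apply, smul_sub]
    · simp only [Prod.smul_fst, Prod.smul_snd, map_smul, RingHom.id_apply, smul_sub, map_sub,
        smul_add]
  invFun p := (p.1 + u' (p.2 - u p.1), p.2 - u p.1)
  left_inv p := by
    ext
    · simp
    · simp
  right_inv p := by
    ext
    · simp
    · simp

/-- Let `p₁(m, m') = π m` and `p₂(m, m') = π' m'`. As `M`, `M'` are projective, there are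
`u : M → M'`, `u' : M' → M` with `π' u = π`, `π u' = π'`. The automorphism
`Φ = (m, m') ↦ (m, m' + u m)` after the inverse of `(m, m') ↦ (m + u' m', m')` has `p₂ Φ = p₁`. So
`Φ (φ × 1)` has image in the kernel of `p₂`, which is the image of `1 × φ'`, and there is `Ψ` with
`Φ (φ × 1) = (1 × φ') Ψ`. Take determinants. -/
theorem det_dvd {A M M' N : Type*} [CommRing A] [AddCommGroup M] [AddCommGroup M']
    [AddCommGroup N] [Module A M] [Module A M'] [Module A N] [Module.Free A M]
    [Module.Free A M'] [Module.Finite A M] [Module.Finite A M'] (φ : M →ₗ[A] M)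
    (φ' : M' →ₗ[A] M') (π : M →ₗ[A] N) (π' : M' →ₗ[A] N) (hπ : Function.Surjective π)
    (hπ' : Function.Surjective π') (h : LinearMap.range φ ≤ LinearMap.ker π)
    (h' : LinearMap.ker π' ≤ LinearMap.range φ') :
    LinearMap.det φ' ∣ LinearMap.det φ := by
  obtain ⟨u, hu⟩ := Module.projective_lifting_property π' π hπ'
  obtain ⟨u', hu'⟩ := Module.projective_lifting_property π π' hπ
  have hu1 : ∀ m, π' (u m) = π m := fun m => LinearMap.congr_fun hu m
  have hu2 : ∀ m, π (u' m) = π' m := fun m => LinearMap.congr_fun hu' m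
  let Φ : (M × M') ≃ₗ[A] (M × M') := cokShear u u'
  have hΦ : ∀ p : M × M', π' (Φ p).2 = π p.1 := by
    intro p
    have h1 : (Φ p).2 = p.2 + u (p.1 - u' p.2) := rfl
    rw [h1, map_add, hu1, map_sub, hu2]
    abel
  let F : (M × M') →ₗ[A] (M × M') := φ.prodMap LinearMap.id
  let G : (M × M') →ₗ[A] (M × M') := LinearMap.id.prodMap φ'
  have hmem : ∀ p, (Φ.toLinearMap ∘ₗ F) p ∈ LinearMap.range G := by
    intro p
    have h1 : π' (Φ (F p)).2 = 0 := by
      rw [hΦ]
      exact h ⟨p.1, rfl⟩
    obtain ⟨w, hw⟩ := h' (show (Φ (F p)).2 ∈ LinearMap.ker π' from h1)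
    exact ⟨((Φ (F p)).1, w), Prod.ext rfl hw⟩
  obtain ⟨Ψ, hΨ⟩ := Module.projective_lifting_property G.rangeRestrict
    ((Φ.toLinearMap ∘ₗ F).codRestrict (LinearMap.range G) hmem) G.surjective_rangeRestrict
  have hcomp : G ∘ₗ Ψ = Φ.toLinearMap ∘ₗ F := by
    ext1
    · ext1 m
      exact congrArg Subtype.val (LinearMap.congr_fun hΨ (LinearMap.inl A M M' m))
    · ext1 m
      exact congrArg Subtype.val (LinearMap.congr_fun hΨ (LinearMap.inr A M M' m))
  have hdet := congrArg LinearMap.det hcomp
  rw [LinearMap.det_comp, LinearMap.det_comp, LinearMap.det_prodMap, LinearMap.det_prodMap,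
    LinearMap.det_id, LinearMap.det_id, one_mul, mul_one] at hdet
  have hunit : IsUnit (LinearMap.det Φ.toLinearMap) := LinearEquiv.isUnit_det' Φ
  rw [← hunit.dvd_mul_left, ← hdet]
  exact dvd_mul_right _ _

end Pool.Agent.Crv
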