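import Pool.Agent.Crv.Fil
import Pool.Agent.DCI57.At

/-!
# Points over `Om k` at a place
-/

set_option autoImplicit false

noncomputable section

namespace Pool.Agent.Crv

open Polynomial
open Pool.Agent.ZCyc
open Pool.Agent.VFP (Om tt)

universe u

variable {k : Type u} [Field k] {R : Type u} [CommRing R] [Algebra k R] {D : ℕ} (B : Bas k R D)

private theorem plc_e1 {F : Type*} [Field F] {X Y : F} (hY : Y ≠ 0) {i j D : ℕ} (hj : j < D) :
    X ^ i * Y ^ j / Y ^ (D - 1) = X ^ i * Y⁻¹ ^ (D - 1 - j) := by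
  obtain ⟨d, rfl⟩ : ∃ d, D = j + d + 1 := ⟨D - 1 - j, by omega⟩
  have h2 : j + d + 1 - 1 = j + d := rfl
  rw [h2, Nat.add_sub_cancel_left, pow_add, inv_pow]
  field_simp

private theorem plc_e2 {F : Type*} [Field F] {Y : F} (hY : Y ≠ 0) {D : ℕ} (hD : 0 < D) :
    Y ^ D / Y ^ (D - 1) = Y := by
  obtain ⟨d, rfl⟩ : ∃ d, D = d + 1 := ⟨D - 1, by omega⟩
  rw [Nat.add_sub_cancel, pow_succ]
  field_simp

private theorem plc_e3 {F : Type*} [Field F] {X Y : F} (hX : X ≠ 0) (hY : Y ≠ 0) {i j D : ℕ}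
    (hij : i + j ≤ D) (hj : j < D) : X ^ i * Y ^ j / (X ^ D * (Y / X) ^ (D - 1)) =
      X⁻¹ ^ (D - (i + j)) * (X / Y) ^ (D - 1 - j) := by
  obtain ⟨d, hd⟩ : ∃ d, D - 1 = j + d := ⟨D - 1 - j, by omega⟩
  obtain ⟨c, hc⟩ : ∃ c, D = i + j + c := ⟨D - (i + j), by omega⟩
  have h2 : D - (i + j) = c := by omega
  rw [hd, h2, Nat.add_sub_cancel_left, hc, pow_add, pow_add, pow_add, div_pow, div_pow, div_pow,
    inv_pow]
  field_simp

private theorem plc_e4 {F : Type*} [Field F] {X Y : F} (hX : X ≠ 0) (hY : Y ≠ 0) {D : ℕ}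
    (hD : 0 < D) : Y ^ D / (X ^ D * (Y / X) ^ (D - 1)) = Y / X := by
  obtain ⟨d, rfl⟩ : ∃ d, D = d + 1 := ⟨D - 1, by omega⟩
  rw [Nat.add_sub_cancel, pow_succ, pow_succ, div_pow]
  field_simp

private theorem plc_e5 {F : Type*} [Field F] {X : F} (Y : F) (hX : X ≠ 0) {i j m : ℕ}
    (hij : i + j < m) : X ^ i * Y ^ j / X ^ m = X⁻¹ ^ (m - (i + j)) * (Y / X) ^ j := by
  obtain ⟨c, rfl⟩ : ∃ c, m = i + j + c := ⟨m - (i + j), by omega⟩
  rw [Nat.add_sub_cancel_left, pow_add, pow_add, div_pow, inv_pow]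
  field_simp

private theorem plc_smul {v : Place k (Om k)} (a : k) {z : Om k} (hz : z ∈ v.ring) :
    a • z ∈ v.ring := by
  rw [Algebra.smul_def]
  exact v.ring.mul_mem _ _ (v.const_mem a) hz

/-- the elements `z` with `S z / w` integral form a subspace -/
private theorem plc_span {v : Place k (Om k)} {S : R →ₐ[k] Om k} {w : Om k} {s : Set R}
    (hs : ∀ z ∈ s, S z / w ∈ v.ring) {z : R} (hz : z ∈ Submodule.span k s) :
    S z / w ∈ v.ring := by
  induction hz using Submodule.span_induction with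
  | mem z hz => exact hs z hz
  | zero => simp
  | add a b _ _ ha hb =>
    rw [map_add, add_div]
    exact v.ring.add_mem _ _ ha hb
  | smul c a _ ha =>
    rw [map_smul, smul_div_assoc]
    exact plc_smul c ha

private theorem plc_vspan {v : Place k (Om k)} {S : R →ₐ[k] Om k} {w : Om k} {s : Set R}
    (hs : ∀ z ∈ s, v.Vanishes (S z / w)) {z : R} (hz : z ∈ Submodule.span k s) :
    v.Vanishes (S z / w) := by
  induction hz using Submodule.span_induction with
  | mem z hz => exact hs z hz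
  | zero => simpa using v.vanishes_zero
  | add a b _ _ ha hb =>
    rw [map_add, add_div]
    exact Place.Vanishes.add v ha hb
  | smul c a _ ha =>
    rw [map_smul, smul_div_assoc, Algebra.smul_def]
    exact Place.Vanishes.mul' v ha (v.const_mem c)

/-- `R` is integral over `k[x]` (`B.rel`, `B.gen`) -/
theorem mem_ring_of_x {v : Place k (Om k)} {S : R →ₐ[k] Om k} (hx : S B.x ∈ v.ring) (g : R) :
    S g ∈ v.ring := by
  have hy : S B.y ∈ v.ring := by
    by_contra hy
    have hy0 : S B.y ≠ 0 := by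
      intro h
      rw [h] at hy
      exact hy v.ring.zero_mem
    have hyi : (S B.y)⁻¹ ∈ v.ring := (v.ring.mem_or_inv_mem (S B.y)).resolve_left hy
    have h1 : S (B.y ^ D) / S B.y ^ (D - 1) ∈ v.ring := by
      refine plc_span (fun z hz => ?_) B.rel
      obtain ⟨i, j, _, hj, rfl⟩ := hz
      rw [map_mul, map_pow, map_pow, plc_e1 hy0 hj]
      exact v.ring.mul_mem _ _ (pow_mem hx i) (pow_mem hyi _)
    apply hy
    rwa [map_pow, plc_e2 hy0 B.pos] at h1
  have hg : g ∈ Algebra.adjoin k {B.x, B.y} := by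
    rw [B.gen]
    trivial
  induction hg using Algebra.adjoin_induction with
  | mem z hz =>
    rcases hz with rfl | hz
    · exact hx
    · rw [Set.mem_singleton_iff] at hz
      subst hz
      exact hy
  | algebraMap a =>
    rw [AlgHom.commutes]
    exact v.const_mem a
  | add a b _ _ ha hb =>
    rw [map_add]
    exact v.ring.add_mem _ _ ha hb
  | mul a b _ _ ha hb =>
    rw [map_mul]
    exact v.ring.mul_mem _ _ ha hb

/-- the residue of a point -/
theorem exists_res [IsAlgClosed k] {v : Place k (Om k)} {S : R →ₐ[k] Om k}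
    (h : ∀ g, S g ∈ v.ring) : ∃ s : R →ₐ[k] k, ∀ g, v.At (S g) (s g) := by
  choose c hc using fun g => DCI57.exists_at v (h g)
  have hconst : ∀ a : k, c (algebraMap k R a) = a := by
    intro a
    have h1 := hc (algebraMap k R a)
    rw [AlgHom.commutes] at h1
    exact h1.unique (Place.at_const a)
  refine ⟨{ toFun := c, map_one' := ?_, map_mul' := ?_, map_zero' := ?_, map_add' := ?_,
            commutes' := ?_ }, hc⟩
  · have h1 := hconst 1
    rwa [map_one] at h1
  · intro a b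
    have h1 := hc (a * b)
    rw [map_mul] at h1
    exact h1.unique ((hc a).mul (hc b))
  · have h1 := hconst 0
    rwa [map_zero] at h1
  · intro a b
    have h1 := hc (a + b)
    rw [map_add] at h1
    exact h1.unique ((hc a).add (hc b))
  · intro a
    exact hconst a

/-- `y / x` is integral over `k[x⁻¹]` (`B.rel`), so `S y / S x ∈ v.ring`, and for `i + j < m` the quotient
`x ^ i * y ^ j / x ^ m = (y / x) ^ j * (x⁻¹) ^ (m - i - j)` vanishes at `v`. -/
theorem vanishes_inf {v : Place k (Om k)} {S : R →ₐ[k] Om k} (hx : S B.x ∉ v.ring) {m : ℕ} {u : R}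
    (hu : u ∈ B.Lt m) : v.Vanishes (S u / S B.x ^ m) := by
  have hx0 : S B.x ≠ 0 := by
    intro h
    rw [h] at hx
    exact hx v.ring.zero_mem
  have hxi : (S B.x)⁻¹ ∈ v.ring := (v.ring.mem_or_inv_mem (S B.x)).resolve_left hx
  have hxv : v.Vanishes (S B.x)⁻¹ := by
    rw [Place.vanishes_iff_or, inv_inv]
    exact Or.inr hx
  have hw : S B.y / S B.x ∈ v.ring := by
    by_contra hw
    have hy0 : S B.y ≠ 0 := by
      intro h
      rw [h, zero_div] at hw
      exact hw v.ring.zero_mem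
    have hwi : (S B.y / S B.x)⁻¹ ∈ v.ring :=
      (v.ring.mem_or_inv_mem (S B.y / S B.x)).resolve_left hw
    rw [inv_div] at hwi
    have h1 : S (B.y ^ D) / (S B.x ^ D * (S B.y / S B.x) ^ (D - 1)) ∈ v.ring := by
      refine plc_span (fun z hz => ?_) B.rel
      obtain ⟨i, j, hij, hj, rfl⟩ := hz
      rw [map_mul, map_pow, map_pow, plc_e3 hx0 hy0 hij hj]
      exact v.ring.mul_mem _ _ (pow_mem hxi _) (pow_mem hwi _)
    apply hw
    rwa [map_pow, plc_e4 hx0 hy0 B.pos] at h1
  refine plc_vspan (fun z hz => ?_) hu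
  obtain ⟨i, j, hij, rfl⟩ := hz
  rw [map_mul, map_pow, map_pow, plc_e5 _ hx0 hij]
  exact Place.Vanishes.mul v (hxv.pow v (by omega)) (pow_mem hw j)

end Pool.Agent.Crv
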