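import Pool.Agent.Crv.Dim
import Pool.Agent.Crv.Sep
import Pool.Agent.Crv.Plc

/-!
# Zeros of functions, interpolation, polynomials at a pole
-/

set_option autoImplicit false

noncomputable section

namespace Pool.Agent.Crv

open Polynomial
open Pool.Agent.ZCyc
open Pool.Agent.VFP (Om tt)

universe u

attribute [local instance] Polynomial.algebra

variable {k : Type u} [Field k] [IsAlgClosed k] [CharZero k] {R : Type u} [CommRing R]
  [Algebra k R] {D : ℕ} {B : Bas k R D} {N : ℕ} {s : Fin N → k}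
  {c : Fin N → Fin D → (R →ₐ[k] k)}

omit [CharZero k] in
/-- an element of a finite dimensional algebra which is not invertible is zero at a point -/
private theorem h72_point {A : Type u} [CommRing A] [Algebra k A] [Module.Finite k A] {a : A}
    (ha : ¬ IsUnit a) : ∃ q : A →ₐ[k] k, q a = 0 := by
  obtain ⟨m, hm, ham⟩ := exists_max_ideal_of_mem_nonunits ha
  letI : Field (A ⧸ m) := Ideal.Quotient.field m
  have hfin : Module.Finite k (A ⧸ m) :=
    Module.Finite.of_surjective (Ideal.Quotient.mkₐ k m).toLinearMap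
      (Ideal.Quotient.mkₐ_surjective k m)
  have hb : Function.Bijective (algebraMap k (A ⧸ m)) :=
    IsAlgClosed.algebraMap_bijective_of_isIntegral
  let e : k ≃ₐ[k] (A ⧸ m) := AlgEquiv.ofBijective (Algebra.ofId k (A ⧸ m)) hb
  refine ⟨(e.symm : (A ⧸ m) →ₐ[k] k).comp (Ideal.Quotient.mkₐ k m), ?_⟩
  have h0 : Ideal.Quotient.mkₐ k m a = 0 := by
    rw [Ideal.Quotient.mkₐ_eq_mk]
    exact Ideal.Quotient.eq_zero_iff_mem.2 ham
  rw [AlgHom.comp_apply, h0, map_zero]

/-- an element of `R` is invertible modulo `g` if it has no common zero with `g` -/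
theorem det_mq_ne [IsDomain R] (B : Bas k R D) {g a : R} (hg : g ≠ 0) {κ : Type} [Fintype κ]
    [DecidableEq κ] (b' : Module.Basis κ k (R ⧸ Ideal.span {g})) :
    (mq b' a).det ≠ 0 ↔ ∀ q : R →ₐ[k] k, q g = 0 → q a ≠ 0 := by
  haveI := finite_quot B hg
  have hu : (mq b' a).det ≠ 0 ↔ IsUnit (Ideal.Quotient.mk (Ideal.span {g}) a) := by
    rw [← isUnit_iff_ne_zero, ← Matrix.isUnit_iff_isUnit_det]
    constructor
    · intro h
      obtain ⟨M, hM⟩ := h.exists_right_inv
      -- the multiplication by `a` is surjective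
      have h1 : (mq b' a).mulVec (M.mulVec (b'.repr 1)) = b'.repr 1 := by
        rw [Matrix.mulVec_mulVec, hM, Matrix.one_mulVec]
      refine IsUnit.of_mul_eq_one (b'.equivFun.symm (M.mulVec (b'.repr 1))) ?_
      apply b'.equivFun.injective
      funext i
      have h2 := Algebra.leftMulMatrix_mulVec_repr b' (Ideal.Quotient.mk _ a)
        (b'.equivFun.symm (M.mulVec (b'.repr 1)))
      have h3 : (b'.repr (b'.equivFun.symm (M.mulVec (b'.repr 1))) : κ → k) =
          M.mulVec (b'.repr 1) := by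
        have := b'.equivFun.apply_symm_apply (M.mulVec (b'.repr 1))
        exact this
      rw [h3] at h2
      have h4 : (b'.repr (Ideal.Quotient.mk (Ideal.span {g}) a *
          b'.equivFun.symm (M.mulVec (b'.repr 1))) : κ → k) = b'.repr 1 := by
        rw [← h2]
        exact h1
      exact congrFun h4 i
    · intro h
      exact h.map (Algebra.leftMulMatrix b')
  rw [hu]
  constructor
  · intro h q hq hqa
    have hle : ∀ r ∈ Ideal.span {g}, q r = 0 := by
      intro r hr
      obtain ⟨c, rfl⟩ := Ideal.mem_span_singleton'.1 hr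
      rw [map_mul, hq, mul_zero]
    have h1 := h.map (Ideal.Quotient.liftₐ (Ideal.span {g}) q hle)
    rw [← Ideal.Quotient.mkₐ_eq_mk k, ← AlgHom.comp_apply, Ideal.Quotient.liftₐ_comp] at h1
    rw [hqa] at h1
    exact not_isUnit_zero h1
  · intro h
    by_contra hcon
    obtain ⟨q, hq⟩ := h72_point (k := k) hcon
    refine h (q.comp (Ideal.Quotient.mkₐ k (Ideal.span {g}))) ?_ hq
    have h0 : Ideal.Quotient.mkₐ k (Ideal.span {g}) g = 0 := by
      rw [Ideal.Quotient.mkₐ_eq_mk]
      exact Ideal.Quotient.eq_zero_iff_mem.2 (Ideal.mem_span_singleton_self g)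
    rw [AlgHom.comp_apply, h0, map_zero]

/-- the zeros of an element of `R` -/
theorem finite_zeros [IsDomain R] (B : Bas k R D) {g : R} (hg : g ≠ 0) :
    {q : R →ₐ[k] k | q g = 0}.Finite := by
  haveI := finite_quot B hg
  haveI : Finite ((R ⧸ Ideal.span {g}) →ₐ[k] k) := inferInstance
  refine (Set.finite_range fun q : (R ⧸ Ideal.span {g}) →ₐ[k] k =>
    q.comp (Ideal.Quotient.mkₐ k (Ideal.span {g}))).subset ?_
  intro q hq
  have hle : ∀ r ∈ Ideal.span {g}, q r = 0 := by
    intro r hr
    obtain ⟨c, rfl⟩ := Ideal.mem_span_singleton'.1 hr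
    rw [map_mul, show q g = 0 from hq, mul_zero]
  exact ⟨Ideal.Quotient.liftₐ (Ideal.span {g}) q hle, Ideal.Quotient.liftₐ_comp _ _ _⟩

/-- interpolation with elements `x ^ m + u`, `u ∈ Lt m`, for all large `m` -/
theorem exists_large (B : Bas k R D) {T : Set (R →ₐ[k] k)} (hT : T.Finite) :
    ∃ m₀, ∀ m ≥ m₀, ∀ a : (R →ₐ[k] k) → k, ∃ u ∈ B.Lt m, ∀ q ∈ T, q (B.x ^ m + u) = a q := by
  classical
  haveI := hT.fintype
  choose e he using fun q : T => exists_interp (fun p : T => (p : R →ₐ[k] k))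
    Subtype.val_injective (fun p => if p = q then (1 : k) else 0)
  choose d hd using fun q : T => exists_mem_Lt B (e q)
  refine ⟨Finset.univ.sup d, fun m hm a => ?_⟩
  refine ⟨∑ q : T, (a q - (q : R →ₐ[k] k) B.x ^ m) • e q, ?_, ?_⟩
  · refine Submodule.sum_mem _ fun q _ => Submodule.smul_mem _ _ ?_
    exact Lt_mono B ((Finset.le_sup (f := d) (Finset.mem_univ q)).trans hm) (hd q)
  · intro p hp
    have h1 : ∀ q : T, p (e q) = if (⟨p, hp⟩ : T) = q then 1 else 0 := fun q => he q ⟨p, hp⟩
    rw [map_add, map_pow, map_sum]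
    simp only [map_smul, h1, smul_eq_mul, mul_ite, mul_one, mul_zero]
    rw [Finset.sum_ite_eq]
    simp

/-- a polynomial of degree `e` at a pole of `τ` -/
theorem at_pole {v : Place k (Om k)} {τ : Om k} (hτ : τ ∉ v.ring) {p : k[X]} {e : ℕ}
    (hp : p.natDegree ≤ e) : v.At (aeval τ p / τ ^ e) (p.coeff e) := by
  have hτ0 : τ ≠ 0 := by
    rintro rfl
    exact hτ (zero_mem _)
  have h0 : v.At τ⁻¹ 0 := by
    rw [Place.at_zero_iff, Place.vanishes_iff_or]
    right
    rwa [inv_inv]
  have h1 := h0.aeval (reflect e p)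
  have h2 : (reflect e p).eval 0 = p.coeff e := by
    rw [← coeff_zero_eq_eval_zero, coeff_reflect, revAt_le (Nat.zero_le e), Nat.sub_zero]
  have h3 : aeval τ⁻¹ (reflect e p) = aeval τ p / τ ^ e := by
    rw [eq_div_iff (pow_ne_zero e hτ0), aeval_def, aeval_def]
    letI : Invertible τ := invertibleOfNonzero hτ0
    have h4 := eval₂_reflect_mul_pow (algebraMap k (Om k)) τ e p hp
    rwa [invOf_eq_inv] at h4
  rw [h2, h3] at h1
  exact h1

end Pool.Agent.Crv
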