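import Mathlib

/-!
# Norms as polynomials in the parameters
-/

set_option autoImplicit false

noncomputable section

namespace Pool.Agent.Crv

open Polynomial

universe u

private theorem nm_add {k : Type u} [Field k] {ρ : ℕ} {d : ℕ} {p q : MvPolynomial (Fin ρ) k[X]}
    (hp : ∀ z, (p.coeff z).natDegree ≤ d) (hq : ∀ z, (q.coeff z).natDegree ≤ d) :
    ∀ z, ((p + q).coeff z).natDegree ≤ d := by
  intro z
  rw [MvPolynomial.coeff_add]
  exact (natDegree_add_le _ _).trans (max_le (hp z) (hq z))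

private theorem nm_sum {k : Type u} [Field k] {ρ : ℕ} {d : ℕ} {ι : Type} (s : Finset ι)
    (f : ι → MvPolynomial (Fin ρ) k[X]) (h : ∀ i ∈ s, ∀ z, ((f i).coeff z).natDegree ≤ d) :
    ∀ z, ((∑ i ∈ s, f i).coeff z).natDegree ≤ d := by
  intro z
  rw [MvPolynomial.coeff_sum]
  exact natDegree_sum_le_of_forall_le _ _ fun i hi => h i hi z

private theorem nm_mul {k : Type u} [Field k] {ρ : ℕ} {d e : ℕ} {p q : MvPolynomial (Fin ρ) k[X]}
    (hp : ∀ z, (p.coeff z).natDegree ≤ d) (hq : ∀ z, (q.coeff z).natDegree ≤ e) :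
    ∀ z, ((p * q).coeff z).natDegree ≤ d + e := by
  intro z
  rw [MvPolynomial.coeff_mul]
  exact natDegree_sum_le_of_forall_le _ _ fun i _ =>
    natDegree_mul_le.trans (add_le_add (hp _) (hq _))

private theorem nm_prod {k : Type u} [Field k] {ρ : ℕ} {d : ℕ} {ι : Type} (s : Finset ι)
    (f : ι → MvPolynomial (Fin ρ) k[X]) (h : ∀ i, ∀ z, ((f i).coeff z).natDegree ≤ d) :
    ∀ z, ((∏ i ∈ s, f i).coeff z).natDegree ≤ s.card * d := by
  classical
  induction s using Finset.induction_on with
  | empty =>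
    intro z
    rw [Finset.prod_empty, MvPolynomial.coeff_one]
    split_ifs <;> simp
  | insert a s ha ih =>
    rw [Finset.prod_insert ha, Finset.card_insert_of_notMem ha]
    have := nm_mul (h a) ih
    intro z
    refine (this z).trans ?_
    ring_nf
    exact le_rfl

private theorem nm_C {k : Type u} [Field k] {ρ : ℕ} {d : ℕ} {a : k[X]} (ha : a.natDegree ≤ d) :
    ∀ z, ((MvPolynomial.C a : MvPolynomial (Fin ρ) k[X]).coeff z).natDegree ≤ d := by
  classical
  intro z
  rw [MvPolynomial.coeff_C]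
  split_ifs
  · exact ha
  · simp

private theorem nm_X {k : Type u} [Field k] {ρ : ℕ} (m : Fin ρ) :
    ∀ z, ((MvPolynomial.X m : MvPolynomial (Fin ρ) k[X]).coeff z).natDegree ≤ 0 := by
  classical
  intro z
  rw [MvPolynomial.coeff_X]
  split_ifs <;> simp

private def nmEnt {k : Type u} [Field k] {κ : Type} {ρ : ℕ}
    (A₀ : Matrix κ κ k) (A : Fin ρ → Matrix κ κ k) : Matrix κ κ (MvPolynomial (Fin ρ) k[X]) :=
  Matrix.of fun i j => MvPolynomial.C (C (A₀ i j)) +
    ∑ m, MvPolynomial.X m * MvPolynomial.C (X * C (A m i j))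

private theorem nmEnt_deg {k : Type u} [Field k] {κ : Type} {ρ : ℕ}
    (A₀ : Matrix κ κ k) (A : Fin ρ → Matrix κ κ k) (i j : κ) :
    ∀ z, ((nmEnt A₀ A i j).coeff z).natDegree ≤ 1 := by
  refine nm_add (nm_C (by simp)) (nm_sum _ _ fun m _ => ?_)
  have := nm_mul (nm_X (k := k) m) (nm_C (ρ := ρ) (d := 1) (a := X * C (A m i j))
    ((natDegree_mul_le).trans (by simp)))
  simpa using this

/-- The determinant of the matrix with the entries
`C (C (A₀ i j)) + ∑ m, X m * C (X * C (A m i j))`: an entry of this kind has coefficients of degree at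
most one, the determinant is a sum of products of `card κ` entries. -/
theorem exists_nm {k : Type u} [Field k] {κ : Type} [Fintype κ] [DecidableEq κ] {ρ : ℕ}
    (A₀ : Matrix κ κ k) (A : Fin ρ → Matrix κ κ k) (a : k) :
    ∃ p : MvPolynomial (Fin ρ) k[X],
      (∀ z : Fin ρ →₀ ℕ, (p.coeff z).natDegree ≤ Fintype.card κ) ∧
      ∀ z : Fin ρ → k, p.eval (fun m => C (z m)) =
        C a * ((X : k[X]) • (∑ m, z m • A m).map C + A₀.map C).det := by
  refine ⟨MvPolynomial.C (C a) * (nmEnt A₀ A).det, ?_, ?_⟩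
  · have h1 : ∀ z, (((nmEnt A₀ A).det).coeff z).natDegree ≤ Fintype.card κ := by
      rw [Matrix.det_apply']
      refine nm_sum _ _ fun σ _ => ?_
      have h2 := nm_prod (Finset.univ : Finset κ) (fun i => nmEnt A₀ A (σ i) i)
        (fun i => nmEnt_deg A₀ A (σ i) i)
      have h3 : ∀ z, ((((σ.sign : ℤ) : MvPolynomial (Fin ρ) k[X])).coeff z).natDegree ≤ 0 := by
        have : (((σ.sign : ℤ) : MvPolynomial (Fin ρ) k[X])) =
            MvPolynomial.C (((σ.sign : ℤ) : k[X])) := by simp
        rw [this]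
        exact nm_C (by simp)
      have h4 := nm_mul h3 h2
      simpa using h4
    have h5 := nm_mul (nm_C (ρ := ρ) (d := 0) (a := C a) (by simp)) h1
    simpa using h5
  · intro z
    rw [map_mul, MvPolynomial.eval_C]
    congr 1
    have h := RingHom.map_det (MvPolynomial.eval (fun m => C (z m))) (nmEnt A₀ A)
    rw [h]
    congr 1
    ext1 i j
    simp only [RingHom.mapMatrix_apply, Matrix.map_apply, nmEnt, Matrix.of_apply, map_add,
      MvPolynomial.eval_C, map_sum, map_mul, MvPolynomial.eval_X, Matrix.add_apply,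
      Matrix.smul_apply, Matrix.sum_apply, smul_eq_mul, Finset.mul_sum]
    rw [add_comm]
    congr 1
    refine Finset.sum_congr rfl fun m _ => ?_
    ring

end Pool.Agent.Crv
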