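import Pool.Agent.Crv.Prod
import Pool.Agent.Crv.InfA
import Pool.Agent.Crv.Nm
import Pool.Agent.VFP.Util

/-!
# The norm polynomials of a family of functions
-/

set_option autoImplicit false

noncomputable section

namespace Pool.Agent.Crv

open Polynomial
open Pool.Agent.ZCyc
open Pool.Agent.VFP (Om tt)

universe u

attribute [local instance] Polynomial.algebra

variable {k : Type u} [Field k] [IsAlgClosed k] [CharZero k] {R : Type u} [CommRing R]
  [Algebra k R] {Dg : ℕ} {B : Bas k R Dg} {n : ℕ} {x : Fin n → k}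
  {c : Fin n → Fin Dg → (R →ₐ[k] k)}

/-- The points of the fibres are different from the zeros of `b² - θ_j (b² - α³)`, `b = -β / 2`, for
all `j`: only finitely many values of `θ` are excluded, because `b² ≠ 0`, `b² ≠ α³` at these points. -/
theorem exists_theta {r : ℕ} {α β : Fin r → R}
    (h2 : ∀ i j l, c j l (β i) ≠ 0) (h3 : ∀ i j l, c j l (β i ^ 2 - 4 * α i ^ 3) ≠ 0) :
    ∃ θ : Fin n → k, Function.Injective θ ∧ (∀ j, θ j ≠ 0) ∧ ∀ i m j l,
      c j l ((algebraMap k R (-1 / 2) * β i) ^ 2 - algebraMap k R (θ m) *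
        ((algebraMap k R (-1 / 2) * β i) ^ 2 - α i ^ 3)) ≠ 0 := by
  classical
  let bad : Fin r × Fin n × Fin Dg → k := fun t =>
    (c t.2.1 t.2.2 (β t.1)) ^ 2 /
      ((c t.2.1 t.2.2 (β t.1)) ^ 2 - 4 * (c t.2.1 t.2.2 (α t.1)) ^ 3)
  obtain ⟨θ, hinj, hθ⟩ : ∃ θ : Fin n → k, Function.Injective θ ∧
      ∀ j, θ j ∉ insert (0 : k) (Set.range bad) := by
    have hfin : (insert (0 : k) (Set.range bad)).Finite := (Set.finite_range bad).insert 0
    have hinf : (insert (0 : k) (Set.range bad))ᶜ.Infinite := hfin.infinite_compl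
    let e := hinf.natEmbedding
    refine ⟨fun j => (e j : k), fun a b hab => ?_, fun j => (e (j : ℕ)).2⟩
    have h1 : e (a : ℕ) = e (b : ℕ) := Subtype.ext hab
    exact Fin.ext (e.injective h1)
  refine ⟨θ, hinj, fun j h0 => hθ j (by rw [h0]; exact Set.mem_insert _ _), ?_⟩
  intro i m j l h0
  have hδ : (c j l (β i)) ^ 2 - 4 * (c j l (α i)) ^ 3 ≠ 0 := by
    have := h3 i j l
    rwa [map_sub, map_mul, map_pow, map_pow, map_ofNat] at this
  refine hθ m (Set.mem_insert_of_mem _ ⟨(i, j, l), ?_⟩)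
  show (c j l (β i)) ^ 2 / ((c j l (β i)) ^ 2 - 4 * (c j l (α i)) ^ 3) = θ m
  rw [div_eq_iff hδ]
  have h4 : (-1 / 2 * c j l (β i)) ^ 2 - θ m *
      ((-1 / 2 * c j l (β i)) ^ 2 - (c j l (α i)) ^ 3) = 0 := by
    rw [← h0]
    simp only [map_sub, map_mul, map_pow, AlgHom.commutes, Algebra.algebraMap_self,
      RingHom.id_apply]
  linear_combination 4 * h4

/-- The determinant of the multiplication by `∏ (x - x j)` on `R / (g)`. -/
private theorem n2_det_ne [IsDomain R] (hc : Pts0 B x c)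
    {g : R} (hgc : ∀ j l, c j l g ≠ 0) {κ : Type} [Fintype κ] [DecidableEq κ]
    (b' : Module.Basis κ k (R ⧸ Ideal.span {g})) : (mq b' (B.lam x)).det ≠ 0 := by
  obtain ⟨v₀, hv₀⟩ := exists_place (Pool.Agent.VFP.tt_transc (k := k)) 0
  obtain ⟨b⟩ := exists_basis_fam hc (P := 0) (Submodule.zero_mem _)
  obtain ⟨S, hS1, hS2⟩ := chars hc (P := 0) (Submodule.zero_mem _)
    (fun j i _ => map_zero _) b hv₀
  exact (moving_prod hc b hS1 hS2 hgc b').1

omit [IsAlgClosed k] [CharZero k] in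
private theorem n2_mq_sum {ρ : ℕ} {P : Fin ρ → R} {g : R} {κ : Type} [Fintype κ] [DecidableEq κ]
    (b' : Module.Basis κ k (R ⧸ Ideal.span {g})) (z : Fin ρ → k) :
    mq b' (∑ m, z m • P m) = ∑ m, z m • mq b' (P m) := by
  unfold mq
  rw [map_sum, map_sum]
  refine Finset.sum_congr rfl fun m _ => ?_
  have h : (Ideal.Quotient.mk (Ideal.span {g})) (z m • P m) =
      z m • (Ideal.Quotient.mk (Ideal.span {g})) (P m) := rfl
  rw [h, map_smul]

/-- The norm polynomial of `g` for the functions `P m`: `exists_nm` for the matrices `mq b' ..` of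
`R / (g)` (`finite_quot`, `finrank_quot_le`) and the factor
`(∏ j, c j 0 g) / (mq b' (B.lam x)).det`; see `moving_prod`. -/
theorem exists_norm [IsDomain R] (hc : Pts0 B x c) {ρ : ℕ} {P : Fin ρ → R}
    (hP : ∀ m, P m ∈ B.Lt n) (hPc : ∀ m j (i : Fin Dg), (i : ℕ) ≠ 0 → c j i (P m) = 0)
    {g : R} {d : ℕ} (hg : g ∈ B.Lt (d + 1)) (hn : 0 < n) (hgc : ∀ j l, c j l g ≠ 0) :
    ∃ p : MvPolynomial (Fin ρ) k[X], (∀ z : Fin ρ →₀ ℕ, (p.coeff z).natDegree ≤ Dg * d) ∧
      (∀ z : Fin ρ → k, (p.eval fun m => C (z m)).eval 0 = ∏ j, c j ⟨0, B.pos⟩ g) ∧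
      p.eval 0 = C (∏ j, c j ⟨0, B.pos⟩ g) ∧
      ∀ (z : Fin ρ → k) (b : Module.Basis (Fin n × Fin Dg) k[X] (Qt (B.fam x (∑ m, z m • P m))))
        (τ : Om k) (S : Fin n → Fin Dg → (R →ₐ[k] Om k)),
        (∀ (j : Fin n) (i : Fin Dg), (i : ℕ) ≠ 0 → S j i = cst (c j i)) →
        (∀ g, (muAt b τ g).charpoly = ∏ p : Fin n × Fin Dg, (X - C (S p.1 p.2 g))) →
        ∏ j, S j ⟨0, B.pos⟩ g = aeval τ (p.eval fun m => C (z m)) := by
  classical
  have hg0 : g ≠ 0 := by
    rintro rfl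
    exact hgc ⟨0, hn⟩ ⟨0, B.pos⟩ (map_zero _)
  have : Module.Finite k (R ⧸ Ideal.span {g}) := finite_quot B hg0
  let b' := Module.finBasis k (R ⧸ Ideal.span {g})
  have hdet := n2_det_ne hc hgc b'
  obtain ⟨p, hp1, hp2⟩ := exists_nm (mq b' (B.lam x)) (fun m => mq b' (P m))
    ((∏ j, c j ⟨0, B.pos⟩ g) / (mq b' (B.lam x)).det)
  have hA0 : ((mq b' (B.lam x)).map C).det = C (mq b' (B.lam x)).det :=
    (RingHom.map_det (C : k →+* k[X]) (mq b' (B.lam x))).symm
  refine ⟨p, fun z => (hp1 z).trans ?_, fun z => ?_, ?_, ?_⟩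
  · rw [Fintype.card_fin]
    exact finrank_quot_le B hg hg0
  · rw [hp2 z, eval_mul, eval_C]
    have h1 : (((X : k[X]) • (∑ m, z m • mq b' (P m)).map C +
        (mq b' (B.lam x)).map C).det).eval 0 = (mq b' (B.lam x)).det := by
      rw [← coe_evalRingHom, RingHom.map_det]
      congr 1
      ext i j
      simp [RingHom.mapMatrix_apply, Matrix.map_apply]
    rw [h1, div_mul_cancel₀ _ hdet]
  · have h2 := hp2 0
    have h3 : (fun m : Fin ρ => (C ((0 : Fin ρ → k) m) : k[X])) = 0 := by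
      funext m
      simp
    rw [h3] at h2
    rw [h2]
    simp only [Pi.zero_apply, zero_smul, Finset.sum_const_zero]
    have h4 : ((0 : Matrix (Fin (Module.finrank k (R ⧸ Ideal.span {g})))
        (Fin (Module.finrank k (R ⧸ Ideal.span {g}))) k).map (C : k → k[X])) = 0 := by
      ext i j
      simp [Matrix.map_apply]
    rw [h4, smul_zero, zero_add, hA0, ← C_mul, div_mul_cancel₀ _ hdet]
  · intro z b τ S hS1 hS2
    rw [(moving_prod hc b hS1 hS2 hgc b').2, hp2 z, map_mul, aeval_C, n2_mq_sum]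

end Pool.Agent.Crv
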