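import Pool.Agent.Crv.Fil2

/-!
# The space of the functions `P`
-/

set_option autoImplicit false

noncomputable section

namespace Pool.Agent.Crv

open Polynomial

universe u

variable {k : Type u} [Field k] {R : Type u} [CommRing R] [Algebra k R] {D : ℕ} {B : Bas k R D}
  {N : ℕ} {s : Fin N → k} {c : Fin N → Fin D → (R →ₐ[k] k)}

private theorem spc_card (D : ℕ) (hD : 0 < D) :
    Fintype.card {i : Fin D // (i : ℕ) ≠ 0} = D - 1 := by
  classical
  have h := Fintype.card_subtype_compl (fun i : Fin D => (i : ℕ) = 0)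
  have h1 : Fintype.card {i : Fin D // (i : ℕ) = 0} = 1 := by
    rw [Fintype.card_eq_one_iff]
    refine ⟨⟨⟨0, hD⟩, rfl⟩, ?_⟩
    rintro ⟨i, hi⟩
    apply Subtype.ext
    apply Fin.ext
    exact hi
  rw [h1, Fintype.card_fin] at h
  convert h using 1

private theorem spc_map (c : Fin N → Fin D → (R →ₐ[k] k)) (W : Submodule k R) :
    ∃ L : W →ₗ[k] (Fin N × {i : Fin D // (i : ℕ) ≠ 0} → k),
      ∀ w p, L w p = c p.1 p.2.1 (w : R) :=
  ⟨LinearMap.pi fun p => (c p.1 p.2.1).toLinearMap ∘ₗ W.subtype, fun _ _ => rfl⟩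

private theorem spc_fr {M : Type u} [AddCommGroup M] [Module k M] [Module.Finite k M] {ι : Type}
    [Fintype ι] (L : M →ₗ[k] (ι → k)) {ρ : ℕ} (h : ρ + Fintype.card ι ≤ Module.finrank k M) :
    ∃ f : Fin ρ → M, LinearIndependent k f ∧ ∀ m, L (f m) = 0 := by
  have hrk := LinearMap.finrank_range_add_finrank_ker L
  have h1 : Module.finrank k (LinearMap.range L) ≤ Fintype.card ι := by
    refine (Submodule.finrank_le _).trans ?_
    rw [Module.finrank_fintype_fun_eq_card]
  have h3 : ρ ≤ Module.finrank k (LinearMap.ker L) := by omega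
  obtain ⟨f, hf⟩ := exists_linearIndependent_of_le_finrank h3
  exact ⟨fun m => (LinearMap.ker L).subtype (f m),
    hf.map' (LinearMap.ker L).subtype (Submodule.ker_subtype _),
    fun m => LinearMap.mem_ker.1 (f m).2⟩

private theorem spc_main (c : Fin N → Fin D → (R →ₐ[k] k)) (W : Submodule k R)
    [Module.Finite k W] (hD : 0 < D) {ρ : ℕ} (h : ρ + N * (D - 1) ≤ Module.finrank k W) :
    ∃ P : Fin ρ → R, LinearIndependent k P ∧ (∀ m, P m ∈ W) ∧
      ∀ m j (i : Fin D), (i : ℕ) ≠ 0 → c j i (P m) = 0 := by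
  obtain ⟨L, hL⟩ := spc_map c W
  have hc : Fintype.card (Fin N × {i : Fin D // (i : ℕ) ≠ 0}) = N * (D - 1) := by
    rw [Fintype.card_prod, Fintype.card_fin, spc_card D hD]
  obtain ⟨f, hf, hf0⟩ := spc_fr L (hc.symm ▸ h)
  refine ⟨fun m => W.subtype (f m), hf.map' W.subtype (Submodule.ker_subtype _),
    fun m => (f m).2, ?_⟩
  intro m j i hi
  have h6 := congrFun (hf0 m) (j, ⟨i, hi⟩)
  rw [hL] at h6
  exact h6

/-- `Lt N` has dimension `D * N - D * (D - 1) / 2`, and there are `(D - 1) * N` conditions. -/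
theorem exists_space (c : Fin N → Fin D → (R →ₐ[k] k)) (hN : D ≤ N + 1) {ρ : ℕ}
    (hρ : ρ + D * (D - 1) / 2 ≤ N) :
    ∃ P : Fin ρ → R, LinearIndependent k P ∧ (∀ m, P m ∈ B.Lt N) ∧
      ∀ m j (i : Fin D), (i : ℕ) ≠ 0 → c j i (P m) = 0 := by
  have hfin : Module.Finite k (B.Lt N) := finite_Lt B N
  have h2 := finrank_Lt B hN
  have hD := B.pos
  have e1 : D * N = N * (D - 1) + N := by
    obtain ⟨d, hd⟩ : ∃ d, D = d + 1 := ⟨D - 1, by omega⟩
    rw [hd]
    simp only [Nat.add_sub_cancel]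
    ring
  have h3 : ρ + N * (D - 1) ≤ Module.finrank k (B.Lt N) := by
    generalize Module.finrank k (B.Lt N) = F at h2
    generalize D * (D - 1) / 2 = G at h2 hρ
    omega
  exact spc_main c (B.Lt N) hD h3

end Pool.Agent.Crv
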