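import Pool.Agent.Crv.Inf
import Pool.Agent.Crv.Space
import Pool.Agent.Crv.Norm2
import Pool.Agent.KFam.Defs

/-!
# Deformations of a tuple of points of an affine curve
-/

set_option autoImplicit false

noncomputable section

namespace Pool.Agent.Crv

open Polynomial
open Pool.Agent.ZCyc
open Pool.Agent.VFP (Om tt)

universe u

attribute [local instance] Polynomial.algebra

variable {k : Type u} [Field k] [IsAlgClosed k] [CharZero k] {R : Type u} [CommRing R]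
  [Algebra k R] {Dg : ℕ} {B : Bas k R Dg} {n : ℕ} {x : Fin n → k}
  {c : Fin n → Fin Dg → (R →ₐ[k] k)}

omit [IsAlgClosed k] [CharZero k] in
/-- The degree of a product. -/
private theorem cur_mul {a b d : ℕ} {f g : R} (hf : f ∈ B.Lt (a + 1)) (hg : g ∈ B.Lt (b + 1))
    (h : a + b = d) : f * g ∈ B.Lt (d + 1) := by
  have h1 := mul_mem_Lt B hf hg
  rwa [← add_assoc, h] at h1

omit [IsAlgClosed k] [CharZero k] in
/-- The degree of `-β / 2`. -/
private theorem cur_b {d : ℕ} {g : R} (hg : g ∈ B.Lt (d + 1)) (a : k) :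
    algebraMap k R a * g ∈ B.Lt (d + 1) :=
  cur_mul (a := 0) (const_mem_Lt B a) hg (Nat.zero_add d)

omit [IsAlgClosed k] [CharZero k] in
/-- The degree of `b² - θ (b² - α³)`. -/
private theorem cur_theta {e : ℕ} {α β : R} (hα : α ∈ B.Lt (2 * e + 1))
    (hβ : β ∈ B.Lt (3 * e + 1)) (θ : k) :
    (algebraMap k R (-1 / 2) * β) ^ 2 - algebraMap k R θ *
      ((algebraMap k R (-1 / 2) * β) ^ 2 - α ^ 3) ∈ B.Lt (6 * e + 1) := by
  have hb := cur_b hβ (-1 / 2)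
  have hb2 : (algebraMap k R (-1 / 2) * β) ^ 2 ∈ B.Lt (6 * e + 1) := by
    rw [pow_two]
    exact cur_mul hb hb (by ring)
  have ha3 : α ^ 3 ∈ B.Lt (6 * e + 1) := by
    have h1 : α ^ 3 = α * (α * α) := by ring
    rw [h1]
    exact cur_mul hα (cur_mul hα hα rfl) (by ring)
  exact Submodule.sub_mem _ hb2 (cur_b (Submodule.sub_mem _ hb2 ha3) θ)

/-- `exists_space`, `exists_theta`, `exists_norm` for `α i`, `b i = -β i / 2` and
`b i ^ 2 - θ j (b i ^ 2 - α i ^ 3)`; for `z ≠ 0` and `τ` the points `exists_basis_fam`, `chars`,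
`moving_start`, `moving_fin`, `moving_inf`; `u = ∏ (δ x - x j)`, `h z = ∑ z m * δ (P m)`. -/
theorem exists_curveFam [IsDomain R] {r : ℕ} (Z : KFam.Base k r) {α β : Fin r → R}
    {e : Fin r → ℕ} (hα : ∀ i, α i ∈ B.Lt (2 * e i + 1)) (hβ : ∀ i, β i ∈ B.Lt (3 * e i + 1))
    {s : Fin n → Z.P} (hc : Pts0 B x c) (hn : 0 < n)
    (ha : ∀ i j, Z.al i (s j) = c j ⟨0, B.pos⟩ (α i))
    (hb : ∀ i j, Z.be i (s j) = c j ⟨0, B.pos⟩ (β i))
    (h1 : ∀ i j l, c j l (α i) ≠ 0) (h2 : ∀ i j l, c j l (β i) ≠ 0)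
    (h3 : ∀ i j l, c j l (β i ^ 2 - 4 * α i ^ 3) ≠ 0)
    {δ : R →ₐ[k] k} (hδ : ∀ j, δ B.x ≠ x j)
    (hq : ∀ S : R →ₐ[k] Om k,
      (∃ (v : Place k (Om k)) (j : Fin n), ∀ g, v.At (S g) (c j ⟨0, B.pos⟩ g)) →
      ∃ q : Z.Q, (∀ i, Z.alQ i q = S (α i)) ∧ (∀ i, Z.beQ i q = S (β i)) ∧
        (∀ v j, (∀ g, v.At (S g) (c j ⟨0, B.pos⟩ g)) → Z.At v q (s j)) ∧
        ∀ v, (∀ g, v.At (S g) (δ g)) → ∃ i, Z.Bad v q i)
    {ρ : ℕ} (hρ : ρ + Dg * (Dg - 1) / 2 ≤ n) (hDn : Dg ≤ n + 1) :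
    ∃ F : KFam.CurveFam Z (fun i => Dg * e i) s, F.ρ = ρ := by
  obtain ⟨P, hPi, hP, hPc⟩ := exists_space (B := B) c hDn hρ
  obtain ⟨θ, hθi, hθ0, hθ⟩ := exists_theta h2 h3
  have hbc : ∀ i j l, c j l (algebraMap k R (-1 / 2) * β i) = -c j l (β i) / 2 := by
    intro i j l
    rw [map_mul, AlgHom.commutes, Algebra.algebraMap_self, RingHom.id_apply]
    ring
  have hb0 : ∀ i j l, c j l (algebraMap k R (-1 / 2) * β i) ≠ 0 := by
    intro i j l
    rw [hbc]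
    exact div_ne_zero (neg_ne_zero.2 (h2 i j l)) two_ne_zero
  choose nα hα1 hα2 hα3 hα4 using fun i => exists_norm hc hP hPc (hα i) hn (h1 i)
  choose nb hb1 hb2 hb3 hb4 using fun i =>
    exists_norm hc hP hPc (cur_b (hβ i) (-1 / 2)) hn (hb0 i)
  choose nθ hθ1 hθ2 hθ3 hθ4 using fun i m =>
    exists_norm hc hP hPc (cur_theta (hα i) (hβ i) (θ m)) hn (hθ i m)
  have vα : ∀ i j, c j ⟨0, B.pos⟩ (α i) = Z.ea s i j := fun i j => (ha i j).symm
  have vb : ∀ i j, c j ⟨0, B.pos⟩ (algebraMap k R (-1 / 2) * β i) = -Z.eb s i j / 2 := by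
    intro i j
    rw [hbc, ← hb i j]
    rfl
  have vθ : ∀ i m j, c j ⟨0, B.pos⟩ ((algebraMap k R (-1 / 2) * β i) ^ 2 -
      algebraMap k R (θ m) * ((algebraMap k R (-1 / 2) * β i) ^ 2 - α i ^ 3)) =
      (-Z.eb s i j / 2) ^ 2 - θ m * ((-Z.eb s i j / 2) ^ 2 - Z.ea s i j ^ 3) := by
    intro i m j
    rw [map_sub, map_mul, map_sub, map_pow, map_pow, vb, vα, AlgHom.commutes,
      Algebra.algebraMap_self, RingHom.id_apply]
  have hPz : ∀ z : Fin ρ → k, ∑ m, z m • P m ∈ B.Lt n := fun z =>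
    Submodule.sum_mem _ fun m _ => Submodule.smul_mem _ _ (hP m)
  have hPzc : ∀ (z : Fin ρ → k) (j : Fin n) (i : Fin Dg), (i : ℕ) ≠ 0 →
      c j i (∑ m, z m • P m) = 0 := by
    intro z j i hi
    rw [map_sum]
    refine Finset.sum_eq_zero fun m _ => ?_
    rw [map_smul, hPc m j i hi, smul_zero]
  have hδP : ∀ z : Fin ρ → k, δ (∑ m, z m • P m) = ∑ m, z m * δ (P m) := by
    intro z
    rw [map_sum]
    refine Finset.sum_congr rfl fun m _ => ?_
    rw [map_smul, smul_eq_mul]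
  refine ⟨{
    ρ := ρ
    nα := nα
    nb := nb
    nθ := nθ
    θ := θ
    inj := hθi
    ne := hθ0
    dα := ?_
    db := ?_
    dθ := ?_
    zα := ?_
    zb := ?_
    zθ := ?_
    cα := ?_
    cb := ?_
    cθ := ?_
    u := ∏ j, (δ B.x - x j)
    h := fun z => ∑ m, z m * δ (P m)
    u_ne := Finset.prod_ne_zero_iff.2 fun j _ => sub_ne_zero.2 (hδ j)
    pts := ?_ }, rfl⟩
  · intro i z
    refine (hα1 i z).trans (le_of_eq ?_)
    ring
  · intro i z
    refine (hb1 i z).trans (le_of_eq ?_)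
    ring
  · intro i m z
    refine (hθ1 i m z).trans (le_of_eq ?_)
    ring
  · intro i z
    rw [hα2]
    exact Finset.prod_congr rfl fun j _ => vα i j
  · intro i z
    rw [hb2]
    exact Finset.prod_congr rfl fun j _ => vb i j
  · intro i m z
    rw [hθ2]
    exact Finset.prod_congr rfl fun j _ => vθ i m j
  · intro i
    rw [hα3]
    exact congrArg _ (Finset.prod_congr rfl fun j _ => vα i j)
  · intro i
    rw [hb3]
    exact congrArg _ (Finset.prod_congr rfl fun j _ => vb i j)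
  · intro i m
    rw [hθ3]
    exact congrArg _ (Finset.prod_congr rfl fun j _ => vθ i m j)
  · rintro z hz τ - ⟨v₀, hv₀⟩
    have hPz0 : ∑ m, z m • P m ≠ 0 := by
      intro h
      apply hz
      funext m
      exact Fintype.linearIndependent_iff.1 hPi z h m
    obtain ⟨b⟩ := exists_basis_fam hc (hPz z)
    obtain ⟨S, hSc, hS⟩ := chars hc (hPz z) (hPzc z) b hv₀
    have hst := fun (v : Place k (Om k)) (hv : v.At τ 0) => moving_start hc b hSc hS hv
    obtain ⟨π₀, hπ₀⟩ := hst v₀ hv₀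
    choose q hq1 hq2 hq3 hq4 using fun j => hq (S j ⟨0, B.pos⟩) ⟨v₀, π₀ j, hπ₀ j⟩
    have wb : ∀ i j, -Z.EB q i j / 2 = S j ⟨0, B.pos⟩ (algebraMap k R (-1 / 2) * β i) := by
      intro i j
      rw [map_mul, AlgHom.commutes, ← hq2 j i, map_div₀, map_neg, map_one, map_ofNat]
      change -Z.beQ i (q j) / 2 = _
      ring
    have wθ : ∀ i m j, (-Z.EB q i j / 2) ^ 2 - algebraMap k (Om k) (θ m) *
        ((-Z.EB q i j / 2) ^ 2 - Z.EA q i j ^ 3) =
        S j ⟨0, B.pos⟩ ((algebraMap k R (-1 / 2) * β i) ^ 2 -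
          algebraMap k R (θ m) * ((algebraMap k R (-1 / 2) * β i) ^ 2 - α i ^ 3)) := by
      intro i m j
      rw [map_sub, map_mul, map_sub, map_pow, map_pow, ← wb, AlgHom.commutes, ← hq1 j i]
      rfl
    refine ⟨q, ?_, ?_, ?_, ?_, ?_⟩
    · intro i
      rw [← hα4 i z b τ S hSc hS]
      exact Finset.prod_congr rfl fun j _ => hq1 j i
    · intro i
      rw [← hb4 i z b τ S hSc hS]
      exact Finset.prod_congr rfl fun j _ => wb i j
    · intro i m
      rw [← hθ4 i m z b τ S hSc hS]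
      exact Finset.prod_congr rfl fun j _ => wθ i m j
    · intro v hv
      obtain ⟨π, hπ⟩ := hst v hv
      exact ⟨π, fun j => hq3 j v (π j) (hπ j)⟩
    · rintro v (⟨τ₁, hτ₁, hu⟩ | ⟨hτ, hh⟩)
      · obtain ⟨j, hj⟩ := moving_fin hc b hSc hS hτ₁ (by rw [hδP]; exact hu) hδ
        obtain ⟨i, hi⟩ := hq4 j v hj
        exact ⟨j, i, hi⟩
      · obtain ⟨j, hj⟩ := moving_inf hc (hPz z) hPz0 b hSc hS hτ (by rw [hδP]; exact hh) hδ
        obtain ⟨i, hi⟩ := hq4 j v hj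
        exact ⟨j, i, hi⟩

end Pool.Agent.Crv
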