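import Mathlib.RingTheory.PolynomialAlgebra
import Pool.Agent.VFP.Defs
import Pool.Agent.ZCyc.Basic

/-!
# Affine curves

`R` is the ring of functions of an affine curve over `k`. It is generated by `x` and `y`, the
`x ^ i * y ^ j`, `j < D`, are linearly independent, and `y ^ D` is a combination of the
`x ^ i * y ^ j` with `i + j ≤ D`, `j < D` (a plane curve of degree `D` which does not contain the
point `(0 : 1 : 0)`). The points of the curve over `K` are the algebra homomorphisms `R →ₐ[k] K`.
-/

set_option autoImplicit false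

noncomputable section

namespace Pool.Agent.Crv

open Polynomial
open Pool.Agent.ZCyc
open Pool.Agent.VFP (Om tt)

universe u

/-- coordinates of an affine curve -/
structure Bas (k : Type u) [Field k] (R : Type u) [CommRing R] [Algebra k R] (D : ℕ) where
  /-- the first coordinate -/
  x : R
  /-- the second coordinate -/
  y : R
  pos : 0 < D
  gen : Algebra.adjoin k {x, y} = ⊤
  ind : LinearIndependent k fun p : ℕ × Fin D => x ^ p.1 * y ^ (p.2 : ℕ)
  rel : y ^ D ∈ Submodule.span k {z : R | ∃ i j : ℕ, i + j ≤ D ∧ j < D ∧ z = x ^ i * y ^ j}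

variable {k : Type u} [Field k] {R : Type u} [CommRing R] [Algebra k R] {D : ℕ}

/-- the functions of degree less than `m` -/
def Bas.Lt (B : Bas k R D) (m : ℕ) : Submodule k R :=
  Submodule.span k {z : R | ∃ i j : ℕ, i + j < m ∧ z = B.x ^ i * B.y ^ j}

/-- the polynomial `f` with coefficients in `R` has the form `x ^ e + u` where the coefficients of `u`
have degree less than `e` -/
def Bas.Mon (B : Bas k R D) (e : ℕ) (f : R[X]) : Prop :=
  ∃ u : R[X], (∀ n, u.coeff n ∈ B.Lt e) ∧ f = C (B.x ^ e) + u

/-- the algebra `R[t] / (f)` -/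
abbrev Qt (f : R[X]) : Type u := R[X] ⧸ Ideal.span {f}

attribute [local instance] Polynomial.algebra

/-- the matrix of the multiplication by `g` on `R[t] / (f)` -/
def mu {f : R[X]} {ι : Type} [Fintype ι] [DecidableEq ι] (b : Module.Basis ι k[X] (Qt f)) (g : R) :
    Matrix ι ι k[X] :=
  Algebra.leftMulMatrix b (Ideal.Quotient.mk _ (C g))

/-- the matrix of the multiplication by `g` on `R[t] / (f)` for `t = τ` -/
def muAt {f : R[X]} {ι : Type} [Fintype ι] [DecidableEq ι] (b : Module.Basis ι k[X] (Qt f))
    {K : Type u} [Field K] [Algebra k K] (τ : K) (g : R) : Matrix ι ι K :=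
  (mu b g).map (aeval τ)

/-- the matrix of the multiplication by `a` on `R / (g)` -/
def mq {g : R} {κ : Type} [Fintype κ] [DecidableEq κ]
    (b : Module.Basis κ k (R ⧸ Ideal.span {g})) (a : R) : Matrix κ κ k :=
  Algebra.leftMulMatrix b (Ideal.Quotient.mk _ a)

/-- The data over the points of a fibre of `R[t] / (f)`: `N * D` points `c j i`, where the points
`c j i`, `i < D`, have the coordinate `x = s j`, and the `s j` are different. -/
structure Pts0 (B : Bas k R D) {N : ℕ} (s : Fin N → k) (c : Fin N → Fin D → (R →ₐ[k] k)) :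
    Prop where
  hx : ∀ j i, c j i B.x = s j
  inj : ∀ j, Function.Injective (c j)
  hs : Function.Injective s

/-- `∏ (x - s j)` -/
def Bas.lam (B : Bas k R D) {N : ℕ} (s : Fin N → k) : R := ∏ j, (B.x - algebraMap k R (s j))

/-- the family `∏ (x - s j) + t P` -/
def Bas.fam (B : Bas k R D) {N : ℕ} (s : Fin N → k) (P : R) : R[X] :=
  C (B.lam s) + X * C P

end Pool.Agent.Crv
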