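import Pool.Agent.Crv.Fil2

/-!
# The dimension of `R / (g)`
-/

set_option autoImplicit false

noncomputable section

namespace Pool.Agent.Crv

open Polynomial

universe u

variable {k : Type u} [Field k] {R : Type u} [CommRing R] [Algebra k R] {D : ℕ} (B : Bas k R D)

/-- the projection to `R / (g)` as a linear map -/
private def dimPr (k : Type u) [Field k] {R : Type u} [CommRing R] [Algebra k R] (g : R) :
    R →ₗ[k] R ⧸ Ideal.span {g} :=
  (Ideal.Quotient.mkₐ k (Ideal.span {g})).toLinearMap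

private theorem dimPr_eq_zero {g a : R} : dimPr k g a = 0 ↔ ∃ w, a = g * w := by
  change Ideal.Quotient.mk (Ideal.span {g}) a = 0 ↔ _
  rw [Ideal.Quotient.eq_zero_iff_mem, Ideal.mem_span_singleton]
  exact Iff.rfl

/-- the restriction of the projection to the functions of degree less than `m` -/
private def dimRs (g : R) (m : ℕ) : B.Lt m →ₗ[k] R ⧸ Ideal.span {g} :=
  (dimPr k g).domRestrict (B.Lt m)

private theorem dim_mem {e : ℕ} {g : R} (hg : g ∈ B.Lt (e + 1)) {m : ℕ} (hm : e ≤ m) {w : R}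
    (hw : w ∈ B.Lt (m - e)) : g * w ∈ B.Lt m := by
  have h := mul_mem_Lt B hg hw
  rwa [Nat.add_sub_cancel' hm] at h

/-- multiplication by `g` as a map to the kernel -/
private def dimMul {e : ℕ} {g : R} (hg : g ∈ B.Lt (e + 1)) {m : ℕ} (hm : e ≤ m) :
    B.Lt (m - e) →ₗ[k] LinearMap.ker (dimRs B g m) where
  toFun w := ⟨⟨g * w, dim_mem B hg hm w.2⟩,
    LinearMap.mem_ker.2 ((dimPr_eq_zero (k := k)).2 ⟨w, rfl⟩)⟩
  map_add' v w := by
    apply Subtype.ext
    apply Subtype.ext
    exact mul_add _ _ _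
  map_smul' a w := by
    apply Subtype.ext
    apply Subtype.ext
    exact mul_smul_comm _ _ _

private theorem dimMul_apply {e : ℕ} {g : R} (hg : g ∈ B.Lt (e + 1)) {m : ℕ} (hm : e ≤ m)
    (w : B.Lt (m - e)) : ((dimMul B hg hm w : B.Lt m) : R) = g * w := rfl

private theorem dimMul_inj [IsDomain R] {e : ℕ} {g : R} (hg : g ∈ B.Lt (e + 1)) (h0 : g ≠ 0)
    {m : ℕ} (hm : e ≤ m) : Function.Injective (dimMul B hg hm) := by
  intro v w h
  have h1 : g * (v : R) = g * w := by
    rw [← dimMul_apply B hg hm v, ← dimMul_apply B hg hm w, h]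
  exact Subtype.ext (mul_left_cancel₀ h0 h1)

private theorem dim_range (g : R) (m : ℕ) :
    LinearMap.range (dimRs B g m) = (B.Lt m).map (dimPr k g) :=
  LinearMap.range_domRestrict _ _

private theorem dim_null (g : R) (m : ℕ) : Module.finrank k ((B.Lt m).map (dimPr k g)) +
    Module.finrank k (LinearMap.ker (dimRs B g m)) = Module.finrank k (B.Lt m) := by
  have := finite_Lt B m
  rw [← dim_range]
  exact LinearMap.finrank_range_add_finrank_ker _

private theorem dim_calc {D e m a b c : ℕ} (hm : e ≤ m) (h1 : a + c = D * m)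
    (h2 : b + c = D * (m - e)) : a = b + D * e := by
  have h3 : D * m = D * (m - e) + D * e := by rw [← mul_add, Nat.sub_add_cancel hm]
  omega

/-- the dimensions of the functions of degree less than `m` and less than `m - e` -/
private theorem dim_diff {e m : ℕ} (hm : e + D ≤ m) :
    Module.finrank k (B.Lt m) = Module.finrank k (B.Lt (m - e)) + D * e :=
  dim_calc (by omega) (finrank_Lt B (m := m) (by omega)) (finrank_Lt B (m := m - e) (by omega))

private theorem dim_map_le [IsDomain R] {e : ℕ} {g : R} (hg : g ∈ B.Lt (e + 1)) (h0 : g ≠ 0)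
    {m : ℕ} (hm : e + D ≤ m) : Module.finrank k ((B.Lt m).map (dimPr k g)) ≤ D * e := by
  have := finite_Lt B m
  have h1 := dim_null B g m
  have h2 := dim_diff B hm
  have h3 := LinearMap.finrank_le_finrank_of_injective
    (dimMul_inj B hg h0 (show e ≤ m by omega))
  omega

private theorem dim_map_eq [IsDomain R] {e : ℕ} {u : R} (hu : u ∈ B.Lt e)
    (hg : B.x ^ e + u ∈ B.Lt (e + 1)) (h0 : B.x ^ e + u ≠ 0) {m : ℕ} (hm : e + D ≤ m) :
    Module.finrank k ((B.Lt m).map (dimPr k (B.x ^ e + u))) = D * e := by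
  have := finite_Lt B m
  have h1 := dim_null B (B.x ^ e + u) m
  have h2 := dim_diff B hm
  have hme : e ≤ m := by omega
  have h3 : Function.Surjective (dimMul B hg hme) := by
    rintro ⟨⟨z, hz⟩, hz0⟩
    obtain ⟨w, hw⟩ := dimPr_eq_zero.1 (LinearMap.mem_ker.1 hz0)
    have hw' : z = (B.x ^ e + u) * w := hw
    have h4 : w ∈ B.Lt (m - e) := by
      refine mem_of_mul_mem B hu ?_
      rw [← hw', Nat.add_sub_cancel' hme]
      exact hz
    refine ⟨⟨w, h4⟩, ?_⟩
    apply Subtype.ext
    apply Subtype.ext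
    rw [dimMul_apply]
    exact hw'.symm
  have h5 := (LinearEquiv.ofBijective (dimMul B hg hme)
    ⟨dimMul_inj B hg h0 hme, h3⟩).finrank_eq
  omega

/-- the images exhaust `R / (g)` -/
private theorem dim_top [IsDomain R] {e : ℕ} {g : R} (hg : g ∈ B.Lt (e + 1)) (h0 : g ≠ 0) :
    ∃ m, e + D ≤ m ∧ (B.Lt m).map (dimPr k g) = ⊤ := by
  set S : Set ℕ := {r | ∃ m, e + D ≤ m ∧ Module.finrank k ((B.Lt m).map (dimPr k g)) = r} with hS
  have hne : S.Nonempty := ⟨_, e + D, le_refl _, rfl⟩
  have hbd : BddAbove S := by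
    refine ⟨D * e, ?_⟩
    rintro r ⟨m, hm, rfl⟩
    exact dim_map_le B hg h0 hm
  obtain ⟨m, hm, hr⟩ := Nat.sSup_mem hne hbd
  refine ⟨m, hm, ?_⟩
  rw [eq_top_iff]
  intro q _
  obtain ⟨a, ha⟩ := Ideal.Quotient.mk_surjective q
  obtain ⟨n, hn⟩ := exists_mem_Lt B a
  have hle : (B.Lt m).map (dimPr k g) ≤ (B.Lt (max m n)).map (dimPr k g) :=
    Submodule.map_mono (Lt_mono B (le_max_left _ _))
  have := finite_Lt B (max m n)
  have hfin : Module.Finite k ((B.Lt (max m n)).map (dimPr k g)) := inferInstance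
  have heq : (B.Lt m).map (dimPr k g) = (B.Lt (max m n)).map (dimPr k g) := by
    refine Submodule.eq_of_le_of_finrank_le hle ?_
    rw [hr]
    exact le_csSup hbd ⟨max m n, hm.trans (le_max_left _ _), rfl⟩
  rw [heq]
  exact ⟨a, Lt_mono B (le_max_right _ _) hn, ha⟩

/-- For large `m` the image of `Lt m` in `R / (g)` has dimension at most
`dim (Lt m) - dim (g Lt (m - e)) = D * e` (`finrank_Lt`), and `R / (g)` is the union of these images. -/
theorem finite_quot_aux [IsDomain R] {e : ℕ} {g : R} (hg : g ∈ B.Lt (e + 1)) (h0 : g ≠ 0) :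
    Module.Finite k (R ⧸ Ideal.span {g}) ∧ Module.finrank k (R ⧸ Ideal.span {g}) ≤ D * e := by
  obtain ⟨m, hm, ht⟩ := dim_top B hg h0
  have := finite_Lt B m
  have hfin : Module.Finite k ((B.Lt m).map (dimPr k g)) := inferInstance
  have h1 := dim_map_le B hg h0 hm
  rw [ht] at h1 hfin
  rw [finrank_top] at h1
  exact ⟨Module.finite_def.2 ((Submodule.fg_top _).1 (Module.finite_def.1 hfin)), h1⟩

include B in
theorem finite_quot [IsDomain R] {g : R} (h0 : g ≠ 0) :
    Module.Finite k (R ⧸ Ideal.span {g}) := by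
  obtain ⟨m, hm⟩ := exists_mem_Lt B g
  exact (finite_quot_aux B (Lt_mono B (Nat.le_succ m) hm) h0).1

theorem finrank_quot_le [IsDomain R] {e : ℕ} {g : R} (hg : g ∈ B.Lt (e + 1)) (h0 : g ≠ 0) :
    Module.finrank k (R ⧸ Ideal.span {g}) ≤ D * e :=
  (finite_quot_aux B hg h0).2

/-- The same with `=`, because for `g = x ^ e + u` the intersection of `(g)` and `Lt m` is
`g Lt (m - e)` (`mem_of_mul_mem`). -/
theorem finrank_quot [IsDomain R] {e : ℕ} {u : R} (hu : u ∈ B.Lt e) :
    Module.finrank k (R ⧸ Ideal.span {B.x ^ e + u}) = D * e := by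
  have hg : B.x ^ e + u ∈ B.Lt (e + 1) :=
    add_mem (pow_mem_Lt B e) (Lt_mono B (Nat.le_succ e) hu)
  have h0 : B.x ^ e + u ≠ 0 := by
    intro h
    have h1 : (1 : R) ∈ B.Lt 0 := by
      refine mem_of_mul_mem B (m := 0) hu ?_
      rw [h, zero_mul]
      exact zero_mem _
    have h2 : B.Lt 0 = ⊥ := by
      unfold Bas.Lt
      rw [Submodule.span_eq_bot]
      rintro z ⟨i, j, hij, -⟩
      exact absurd hij (Nat.not_lt_zero _)
    rw [h2, Submodule.mem_bot] at h1
    exact one_ne_zero h1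
  obtain ⟨m, hm, ht⟩ := dim_top B hg h0
  have h1 := dim_map_eq B hu hg h0 hm
  rwa [ht, finrank_top] at h1

end Pool.Agent.Crv
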