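import Pool.Agent.Crv.Defs

/-!
# The degree on the ring of functions of an affine curve
-/

set_option autoImplicit false

noncomputable section

namespace Pool.Agent.Crv

open Polynomial

universe u

variable {k : Type u} [Field k] {R : Type u} [CommRing R] [Algebra k R] {D : ℕ} (B : Bas k R D)

theorem Lt_mono {m n : ℕ} (h : m ≤ n) : B.Lt m ≤ B.Lt n := by
  refine Submodule.span_mono ?_
  rintro z ⟨i, j, hij, rfl⟩
  exact ⟨i, j, lt_of_lt_of_le hij h, rfl⟩

private theorem fil_mono_mem {i j m : ℕ} (h : i + j < m) : B.x ^ i * B.y ^ j ∈ B.Lt m :=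
  Submodule.subset_span ⟨i, j, h, rfl⟩

theorem pow_mem_Lt (e : ℕ) : B.x ^ e ∈ B.Lt (e + 1) := by
  have h := fil_mono_mem B (i := e) (j := 0) (m := e + 1) (by omega)
  simpa using h

theorem const_mem_Lt (a : k) : algebraMap k R a ∈ B.Lt 1 := by
  have h := fil_mono_mem B (i := 0) (j := 0) (m := 1) (by omega)
  have h2 := (B.Lt 1).smul_mem a h
  rw [Algebra.algebraMap_eq_smul_one]
  simpa using h2

theorem mul_mem_Lt {m n : ℕ} {a b : R} (ha : a ∈ B.Lt (m + 1)) (hb : b ∈ B.Lt n) :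
    a * b ∈ B.Lt (m + n) := by
  have h := Submodule.mul_mem_mul ha hb
  rw [Bas.Lt, Bas.Lt, Submodule.span_mul_span] at h
  refine Submodule.span_mono ?_ h
  rintro z ⟨u, ⟨i, j, hij, rfl⟩, v, ⟨i', j', hij', rfl⟩, rfl⟩
  refine ⟨i + i', j + j', by omega, ?_⟩
  show B.x ^ i * B.y ^ j * (B.x ^ i' * B.y ^ j') = _
  ring

/-- from `B.gen` -/
theorem exists_mem_Lt (a : R) : ∃ m, a ∈ B.Lt m := by
  have ha : a ∈ Algebra.adjoin k {B.x, B.y} := by
    rw [B.gen]
    trivial
  induction ha using Algebra.adjoin_induction with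
  | mem z hz =>
    rcases hz with rfl | hz
    · refine ⟨2, ?_⟩
      have h := fil_mono_mem B (i := 1) (j := 0) (m := 2) (by omega)
      simpa using h
    · rw [Set.mem_singleton_iff] at hz
      subst hz
      refine ⟨2, ?_⟩
      have h := fil_mono_mem B (i := 0) (j := 1) (m := 2) (by omega)
      simpa using h
  | algebraMap r => exact ⟨1, const_mem_Lt B r⟩
  | add u v _ _ hu hv =>
    obtain ⟨m, hm⟩ := hu
    obtain ⟨n, hn⟩ := hv
    exact ⟨max m n, Submodule.add_mem _ (Lt_mono B (le_max_left m n) hm)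
      (Lt_mono B (le_max_right m n) hn)⟩
  | mul u v _ _ hu hv =>
    obtain ⟨m, hm⟩ := hu
    obtain ⟨n, hn⟩ := hv
    exact ⟨m + n, mul_mem_Lt B (Lt_mono B (Nat.le_succ m) hm) hn⟩

private theorem fil_red (m : ℕ) : ∀ j i : ℕ, i + j < m → B.x ^ i * B.y ^ j ∈
    Submodule.span k {z : R | ∃ i j : ℕ, i + j < m ∧ j < D ∧ z = B.x ^ i * B.y ^ j} := by
  intro j
  induction j using Nat.strong_induction_on with
  | _ j ih =>
    intro i hij
    by_cases hj : j < D
    · exact Submodule.subset_span ⟨i, j, hij, hj, rfl⟩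
    · have h1 : B.x ^ i * B.y ^ j =
          LinearMap.mulLeft k (B.x ^ i * B.y ^ (j - D)) (B.y ^ D) := by
        rw [LinearMap.mulLeft_apply, mul_assoc, ← pow_add, Nat.sub_add_cancel (not_lt.mp hj)]
      rw [h1]
      have h2 := Submodule.mem_map_of_mem
        (f := LinearMap.mulLeft k (B.x ^ i * B.y ^ (j - D))) B.rel
      rw [Submodule.map_span] at h2
      refine Submodule.span_le.mpr ?_ h2
      rintro z ⟨w, ⟨i', j', hij', hj', rfl⟩, rfl⟩
      have h3 : LinearMap.mulLeft k (B.x ^ i * B.y ^ (j - D)) (B.x ^ i' * B.y ^ j') =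
          B.x ^ (i + i') * B.y ^ (j - D + j') := by
        rw [LinearMap.mulLeft_apply]
        ring
      rw [h3]
      exact ih (j - D + j') (by omega) (i + i') (by omega)

/-- from `B.rel` -/
theorem Lt_eq (m : ℕ) : B.Lt m =
    Submodule.span k {z : R | ∃ i j : ℕ, i + j < m ∧ j < D ∧ z = B.x ^ i * B.y ^ j} := by
  apply le_antisymm
  · rw [Bas.Lt, Submodule.span_le]
    rintro z ⟨i, j, hij, rfl⟩
    exact fil_red B m j i hij
  · refine Submodule.span_mono ?_
    rintro z ⟨i, j, hij, _, rfl⟩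
    exact ⟨i, j, hij, rfl⟩

theorem finite_Lt (m : ℕ) : Module.Finite k (B.Lt m) := by
  refine Module.Finite.span_of_finite k ?_
  refine (((Finset.range m ×ˢ Finset.range m).finite_toSet).image
    fun p : ℕ × ℕ => B.x ^ p.1 * B.y ^ p.2).subset ?_
  rintro z ⟨i, j, hij, rfl⟩
  refine ⟨(i, j), ?_, rfl⟩
  simp only [Finset.coe_product, Finset.coe_range, Set.mem_prod, Set.mem_Iio]
  omega

end Pool.Agent.Crv
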