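import Pool.Agent.Crv.Fil

/-!
# The degree on the ring of functions of an affine curve, II
-/

set_option autoImplicit false

noncomputable section

namespace Pool.Agent.Crv

open Polynomial

universe u

variable {k : Type u} [Field k] {R : Type u} [CommRing R] [Algebra k R] {D : ℕ} (B : Bas k R D)

/-- the basis -/
private def f2_b (p : ℕ × Fin D) : R := B.x ^ p.1 * B.y ^ (p.2 : ℕ)

private theorem f2_Lt (m : ℕ) :
    B.Lt m = Submodule.span k (f2_b B '' {p | p.1 + (p.2 : ℕ) < m}) := by
  rw [Lt_eq]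
  congr 1
  ext z
  constructor
  · rintro ⟨i, j, h1, h2, rfl⟩
    exact ⟨(i, ⟨j, h2⟩), h1, rfl⟩
  · rintro ⟨p, h1, rfl⟩
    exact ⟨p.1, p.2, h1, p.2.2, rfl⟩

private theorem f2_mem {m : ℕ} {w : R} : w ∈ B.Lt m ↔
    ∃ c ∈ Finsupp.supported k k {p : ℕ × Fin D | p.1 + (p.2 : ℕ) < m},
      Finsupp.linearCombination k (f2_b B) c = w := by
  rw [f2_Lt, Finsupp.mem_span_image_iff_linearCombination]

/-- multiplication by a power of `x` shifts the degree -/
private theorem f2_shift {e M : ℕ} {w : R} (h : B.x ^ e * w ∈ B.Lt (e + M)) : w ∈ B.Lt M := by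
  obtain ⟨n, hn⟩ := exists_mem_Lt B w
  obtain ⟨c, -, hc⟩ := (f2_mem B).1 hn
  obtain ⟨d, hd, hd'⟩ := (f2_mem B).1 h
  have hsh : Function.Injective fun p : ℕ × Fin D => (p.1 + e, p.2) := by
    rintro ⟨a, b⟩ ⟨a', b'⟩ h1
    simp only [Prod.mk.injEq, add_left_inj] at h1
    exact Prod.ext h1.1 h1.2
  have h1 : Finsupp.linearCombination k (f2_b B) (c.mapDomain fun p => (p.1 + e, p.2)) =
      B.x ^ e * w := by
    rw [Finsupp.linearCombination_mapDomain, ← hc, Finsupp.linearCombination_apply,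
      Finsupp.linearCombination_apply, Finsupp.mul_sum]
    refine Finsupp.sum_congr fun p _ => ?_
    simp only [Function.comp_apply, f2_b]
    rw [mul_smul_comm, pow_add]
    congr 1
    ring
  have h2 : c.mapDomain (fun p : ℕ × Fin D => (p.1 + e, p.2)) = d := by
    have hli : LinearIndependent k (f2_b B) := B.ind
    exact hli (h1.trans hd'.symm)
  rw [f2_mem]
  refine ⟨c, ?_, hc⟩
  rw [Finsupp.mem_supported]
  intro p hp
  have h3 : d (p.1 + e, p.2) ≠ 0 := by
    rw [← h2, Finsupp.mapDomain_apply hsh c p]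
    exact Finsupp.mem_support_iff.1 hp
  have h4 : p.1 + e + (p.2 : ℕ) < e + M :=
    (Finsupp.mem_supported k d).1 hd (Finsupp.mem_support_iff.2 h3)
  change p.1 + (p.2 : ℕ) < M
  omega

/-- the number of pairs `(i, j)`, `j < D`, `i + j < m` -/
theorem finrank_Lt {m : ℕ} (hm : D ≤ m + 1) :
    Module.finrank k (B.Lt m) + D * (D - 1) / 2 = D * m := by
  let g : ((j : Fin D) × Fin (m - j)) → R := fun p => B.x ^ (p.2 : ℕ) * B.y ^ (p.1 : ℕ)
  have hg : LinearIndependent k g := by
    refine B.ind.comp (fun p : ((j : Fin D) × Fin (m - j)) => ((p.2 : ℕ), p.1)) ?_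
    rintro ⟨j, i⟩ ⟨j', i'⟩ h1
    simp only [Prod.mk.injEq] at h1
    obtain ⟨h1, rfl⟩ := h1
    rw [Fin.ext h1]
  have h1 : B.Lt m = Submodule.span k (Set.range g) := by
    rw [Lt_eq]
    congr 1
    ext z
    constructor
    · rintro ⟨i, j, h1, h2, rfl⟩
      exact ⟨⟨⟨j, h2⟩, ⟨i, by change i < m - j; omega⟩⟩, rfl⟩
    · rintro ⟨⟨j, i⟩, rfl⟩
      exact ⟨i, j, by have := i.2; omega, j.2, rfl⟩
  rw [h1, finrank_span_eq_card hg, Fintype.card_sigma]
  simp only [Fintype.card_fin]
  rw [Finset.sum_fin_eq_sum_range, ← Finset.sum_range_id, ← Finset.sum_add_distrib]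
  have h2 : ∀ j ∈ Finset.range D, ((if _h : j < D then m - j else 0) + j) = m := by
    intro j hj
    rw [Finset.mem_range] at hj
    rw [dif_pos hj]
    omega
  rw [Finset.sum_congr rfl h2, Finset.sum_const, Finset.card_range, smul_eq_mul]

/-- Let `M` be the degree of `w` and `w'` the part of degree `M` in the basis `x ^ i * y ^ j`,
`j < D`. If `m ≤ M` then `x ^ e * w' ∈ Lt (e + M)`, which contradicts `B.ind`. -/
theorem mem_of_mul_mem {e m : ℕ} {u w : R} (hu : u ∈ B.Lt e)
    (h : (B.x ^ e + u) * w ∈ B.Lt (e + m)) : w ∈ B.Lt m := by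
  obtain ⟨n, hn⟩ := exists_mem_Lt B w
  have key : ∀ n, w ∈ B.Lt (m + n) → w ∈ B.Lt m := by
    intro n
    induction n with
    | zero => exact id
    | succ n ih =>
      intro h1
      refine ih (f2_shift B (e := e) ?_)
      have h2 : u * w ∈ B.Lt (e + (m + n)) := by
        cases e with
        | zero =>
          rw [Lt_eq] at hu
          have : {z : R | ∃ i j : ℕ, i + j < 0 ∧ j < D ∧ z = B.x ^ i * B.y ^ j} = ∅ := by
            ext z
            simp
          rw [this, Submodule.span_empty, Submodule.mem_bot] at hu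
          rw [hu, zero_mul]
          exact zero_mem _
        | succ e =>
          have h3 := mul_mem_Lt B hu h1
          have h4 : e + (m + (n + 1)) = e + 1 + (m + n) := by omega
          rwa [h4] at h3
      have h3 : B.x ^ e * w = (B.x ^ e + u) * w - u * w := by ring
      rw [h3]
      exact sub_mem (Lt_mono B (by omega) h) h2
  exact key n (Lt_mono B (by omega) hn)

end Pool.Agent.Crv
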