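import Pool.Agent.Crv.Defs
import Pool.Agent.Crv.Coker

/-!
# Reciprocity
-/

set_option autoImplicit false

noncomputable section

namespace Pool.Agent.Crv

open Polynomial

universe u

attribute [local instance] Polynomial.algebra

variable {k : Type u} [Field k] {R : Type u} [CommRing R] [Algebra k R]

private theorem rcp_coeff (l : R →ₗ[k] k) (w : R[X]) (n : ℕ) :
    (w.sum fun m r => (monomial m (l r) : k[X])).coeff n = l (w.coeff n) := by
  rw [Polynomial.sum_def, finset_sum_coeff]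
  simp only [coeff_monomial]
  rw [Finset.sum_ite_eq']
  split_ifs with h
  · rfl
  · rw [notMem_support_iff.1 h, map_zero]

private theorem rcp_smul (p : k[X]) (w : R[X]) : p • w = p.map (algebraMap k R) * w := by
  rw [Algebra.smul_def]
  rfl

/-- the extension of a linear form to polynomials -/
private def rcp_ext (l : R →ₗ[k] k) : R[X] →ₗ[k[X]] k[X] where
  toFun w := w.sum fun m r => (monomial m (l r) : k[X])
  map_add' a b := by
    ext n
    rw [coeff_add, rcp_coeff, rcp_coeff, rcp_coeff, coeff_add, map_add]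
  map_smul' p a := by
    ext n
    rw [rcp_coeff, rcp_smul, RingHom.id_apply, smul_eq_mul, coeff_mul, coeff_mul, map_sum]
    refine Finset.sum_congr rfl fun i _ => ?_
    rw [rcp_coeff, coeff_map, ← Algebra.smul_def, map_smul, smul_eq_mul]

private theorem rcp_ext_coeff (l : R →ₗ[k] k) (w : R[X]) (n : ℕ) :
    (rcp_ext l w).coeff n = l (w.coeff n) := rcp_coeff l w n

private theorem rcp_ext_C (l : R →ₗ[k] k) (r : R) : rcp_ext l (C r) = C (l r) := by
  ext n
  rw [rcp_ext_coeff, coeff_C, coeff_C]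
  split_ifs
  · rfl
  · rw [map_zero]

/-- the matrix of the second endomorphism -/
private def rcp_mat {g : R} {κ : Type} [Fintype κ] [DecidableEq κ]
    (b' : Module.Basis κ k (R ⧸ Ideal.span {g})) (L P : R) : Matrix κ κ k[X] :=
  (X : k[X]) • (mq b' P).map C + (mq b' L).map C

/-- coordinates modulo `g` -/
private def rcp_l {g : R} {κ : Type} [Fintype κ] [DecidableEq κ]
    (b' : Module.Basis κ k (R ⧸ Ideal.span {g})) (a : κ) : R →ₗ[k] k :=
  (b'.coord a).comp (Ideal.Quotient.mkₐ k (Ideal.span {g})).toLinearMap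

private theorem rcp_l_apply {g : R} {κ : Type} [Fintype κ] [DecidableEq κ]
    (b' : Module.Basis κ k (R ⧸ Ideal.span {g})) (a : κ) (r : R) :
    rcp_l b' a r = b'.repr (Ideal.Quotient.mk _ r) a := rfl

private theorem rcp_l_g {g : R} {κ : Type} [Fintype κ] [DecidableEq κ]
    (b' : Module.Basis κ k (R ⧸ Ideal.span {g})) (a : κ) (r : R) :
    rcp_l b' a (g * r) = 0 := by
  rw [rcp_l_apply, map_mul, Ideal.Quotient.eq_zero_iff_mem.2 (Ideal.mem_span_singleton_self g),
    zero_mul, map_zero, Finsupp.coe_zero, Pi.zero_apply]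

private theorem rcp_l_mul {g : R} {κ : Type} [Fintype κ] [DecidableEq κ]
    (b' : Module.Basis κ k (R ⧸ Ideal.span {g})) (a : κ) (r s : R) :
    rcp_l b' a (r * s) = ∑ c, mq b' r a c * rcp_l b' c s := by
  have h := Algebra.leftMulMatrix_mulVec_repr b' (Ideal.Quotient.mk _ r) (Ideal.Quotient.mk _ s)
  have h2 := congrFun h a
  rw [rcp_l_apply, map_mul, ← h2]
  rfl

private theorem rcp_ext_mul {g : R} {κ : Type} [Fintype κ] [DecidableEq κ]
    (b' : Module.Basis κ k (R ⧸ Ideal.span {g})) (a : κ) (r : R) (w : R[X]) :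
    rcp_ext (rcp_l b' a) (C r * w) = ∑ c, C (mq b' r a c) * rcp_ext (rcp_l b' c) w := by
  ext n
  rw [rcp_ext_coeff, coeff_C_mul, rcp_l_mul, finset_sum_coeff]
  refine Finset.sum_congr rfl fun c _ => ?_
  rw [coeff_C_mul, rcp_ext_coeff]

private theorem rcp_ext_X {g : R} {κ : Type} [Fintype κ] [DecidableEq κ]
    (b' : Module.Basis κ k (R ⧸ Ideal.span {g})) (a : κ) (w : R[X]) :
    rcp_ext (rcp_l b' a) (X * w) = X * rcp_ext (rcp_l b' a) w := by
  have h : (X * w : R[X]) = (X : k[X]) • w := by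
    rw [rcp_smul, map_X]
  rw [h, map_smul, smul_eq_mul]

private theorem rcp_ext_fam {L P g : R} {κ : Type} [Fintype κ] [DecidableEq κ]
    (b' : Module.Basis κ k (R ⧸ Ideal.span {g})) (w : R[X]) :
    (fun a => rcp_ext (rcp_l b' a) ((C L + X * C P) * w)) =
      (rcp_mat b' L P).mulVec fun a => rcp_ext (rcp_l b' a) w := by
  funext a
  have h : (C L + X * C P) * w = C L * w + X * (C P * w) := by ring
  rw [h, map_add, rcp_ext_X, rcp_ext_mul, rcp_ext_mul, Matrix.mulVec, dotProduct,
    Finset.mul_sum, ← Finset.sum_add_distrib]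
  refine Finset.sum_congr rfl fun c _ => ?_
  rw [rcp_mat, Matrix.add_apply, Matrix.smul_apply, Matrix.map_apply, Matrix.map_apply,
    smul_eq_mul]
  ring

private theorem rcp_ext_g {g : R} {κ : Type} [Fintype κ] [DecidableEq κ]
    (b' : Module.Basis κ k (R ⧸ Ideal.span {g})) (a : κ) (w : R[X]) :
    rcp_ext (rcp_l b' a) (C g * w) = 0 := by
  ext n
  rw [rcp_ext_coeff, coeff_C_mul, rcp_l_g, coeff_zero]

/-- representatives of the basis -/
private def rcp_r {g : R} {κ : Type} [Fintype κ] [DecidableEq κ]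
    (b' : Module.Basis κ k (R ⧸ Ideal.span {g})) (a : κ) : R :=
  (Ideal.Quotient.mk_surjective (b' a)).choose

private theorem rcp_r_spec {g : R} {κ : Type} [Fintype κ] [DecidableEq κ]
    (b' : Module.Basis κ k (R ⧸ Ideal.span {g})) (a : κ) :
    Ideal.Quotient.mk (Ideal.span {g}) (rcp_r b' a) = b' a :=
  (Ideal.Quotient.mk_surjective (b' a)).choose_spec

private theorem rcp_l_r {g : R} {κ : Type} [Fintype κ] [DecidableEq κ]
    (b' : Module.Basis κ k (R ⧸ Ideal.span {g})) (a c : κ) :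
    rcp_l b' a (rcp_r b' c) = if c = a then 1 else 0 := by
  rw [rcp_l_apply, rcp_r_spec, Module.Basis.repr_self, Finsupp.single_apply]

/-- sum of coordinates times representatives -/
private theorem rcp_sum {g : R} {κ : Type} [Fintype κ] [DecidableEq κ]
    (b' : Module.Basis κ k (R ⧸ Ideal.span {g})) (r : R) :
    ∃ s : R, r = (∑ a, algebraMap k R (rcp_l b' a r) * rcp_r b' a) + g * s := by
  have h : r - (∑ a, algebraMap k R (rcp_l b' a r) * rcp_r b' a) ∈ Ideal.span {g} := by
    rw [← Ideal.Quotient.eq_zero_iff_mem, map_sub, map_sum, sub_eq_zero]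
    have h1 := b'.sum_repr (Ideal.Quotient.mk _ r)
    rw [← h1]
    refine Finset.sum_congr rfl fun a _ => ?_
    rw [← Algebra.smul_def, ← rcp_r_spec b' a, rcp_l_apply]
    rfl
  obtain ⟨s, hs⟩ := Ideal.mem_span_singleton.1 h
  exact ⟨s, by rw [← hs]; ring⟩

/-- the common cokernel -/
private abbrev rcp_N (L P g : R) : Type u :=
  R[X] ⧸ (Ideal.span {C L + X * C P, C g} : Ideal R[X])

private def rcp_pi (L P g : R) : Qt (C L + X * C P) →ₗ[k[X]] rcp_N L P g :=
  (Ideal.Quotient.factorₐ k[X]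
    (Ideal.span_mono (Set.singleton_subset_iff.2 (Set.mem_insert _ _)))).toLinearMap

private def rcp_pi' {g : R} {κ : Type} [Fintype κ] [DecidableEq κ] (L P : R)
    (b' : Module.Basis κ k (R ⧸ Ideal.span {g})) : (κ → k[X]) →ₗ[k[X]] rcp_N L P g :=
  (Ideal.Quotient.mkₐ k[X] (Ideal.span {C L + X * C P, C g})).toLinearMap.comp
    (∑ a, (LinearMap.toSpanSingleton k[X] R[X] (C (rcp_r b' a))).comp (LinearMap.proj a))

private theorem rcp_pi'_apply {g : R} {κ : Type} [Fintype κ] [DecidableEq κ] (L P : R)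
    (b' : Module.Basis κ k (R ⧸ Ideal.span {g})) (p : κ → k[X]) :
    rcp_pi' L P b' p = Ideal.Quotient.mk _ (∑ a, p a • C (rcp_r b' a)) := by
  simp only [rcp_pi', LinearMap.comp_apply, LinearMap.sum_apply, LinearMap.proj_apply,
    LinearMap.toSpanSingleton_apply]
  rfl

private theorem rcp_mem {L P g : R} {w : R[X]} (h : w ∈ Ideal.span {C L + X * C P, C g}) :
    ∃ a b : R[X], w = (C L + X * C P) * a + C g * b := by
  obtain ⟨a, b, hab⟩ := Ideal.mem_span_pair.1 h
  exact ⟨a, b, by rw [← hab]; ring⟩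

private theorem rcp_co {g : R} {κ : Type} [Fintype κ] [DecidableEq κ]
    (b' : Module.Basis κ k (R ⧸ Ideal.span {g})) (p : κ → k[X]) :
    (fun a => rcp_ext (rcp_l b' a) (∑ c, p c • C (rcp_r b' c))) = p := by
  funext a
  rw [map_sum]
  simp only [map_smul, rcp_ext_C, rcp_l_r, smul_eq_mul]
  rw [Finset.sum_eq_single a]
  · simp
  · intro c _ hc
    simp [hc]
  · intro h
    exact absurd (Finset.mem_univ a) h

/-- every polynomial is the sum of its coordinates modulo `g` -/
private theorem rcp_sumX {g : R} {κ : Type} [Fintype κ] [DecidableEq κ]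
    (b' : Module.Basis κ k (R ⧸ Ideal.span {g})) (w : R[X]) :
    ∃ s : R[X], w = (∑ a, rcp_ext (rcp_l b' a) w • C (rcp_r b' a)) + C g * s := by
  induction w using Polynomial.induction_on' with
  | add p q hp hq =>
    obtain ⟨s, hs⟩ := hp
    obtain ⟨t, ht⟩ := hq
    refine ⟨s + t, ?_⟩
    have h : ∑ a, rcp_ext (rcp_l b' a) (p + q) • (C (rcp_r b' a) : R[X]) =
        (∑ a, rcp_ext (rcp_l b' a) p • C (rcp_r b' a)) +
          ∑ a, rcp_ext (rcp_l b' a) q • C (rcp_r b' a) := by
      rw [← Finset.sum_add_distrib]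
      exact Finset.sum_congr rfl fun a _ => by rw [map_add, add_smul]
    rw [h]
    nth_rw 1 [hs]
    nth_rw 1 [ht]
    ring
  | monomial n r =>
    obtain ⟨s, hs⟩ := rcp_sum b' r
    refine ⟨monomial n s, ?_⟩
    have h1 : (monomial n r : R[X]) = (X ^ n : k[X]) • C r := by
      rw [rcp_smul, Polynomial.map_pow, map_X, X_pow_mul_C, C_mul_X_pow_eq_monomial]
    have h2 : ∀ a, rcp_ext (rcp_l b' a) (monomial n r) • (C (rcp_r b' a) : R[X]) =
        X ^ n * C (algebraMap k R (rcp_l b' a r) * rcp_r b' a) := by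
      intro a
      rw [h1, map_smul, rcp_ext_C, rcp_smul, smul_eq_mul, Polynomial.map_mul, Polynomial.map_pow,
        map_X, map_C, C_mul]
      ring
    rw [Finset.sum_congr rfl fun a _ => h2 a, ← Finset.mul_sum, ← map_sum]
    have h3 : C g * (monomial n s : R[X]) = X ^ n * C (g * s) := by
      rw [← C_mul_X_pow_eq_monomial, C_mul]
      ring
    rw [h3, ← mul_add, ← C_add, ← hs, ← C_mul_X_pow_eq_monomial]
    ring

private theorem rcp_phi' {L P g : R} {κ : Type} [Fintype κ] [DecidableEq κ]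
    (b' : Module.Basis κ k (R ⧸ Ideal.span {g})) :
    LinearMap.range (Matrix.toLin' (rcp_mat b' L P)) = LinearMap.ker (rcp_pi' L P b') := by
  apply le_antisymm
  · rintro _ ⟨p, rfl⟩
    rw [LinearMap.mem_ker, rcp_pi'_apply, Matrix.toLin'_apply]
    set w : R[X] := ∑ c, p c • C (rcp_r b' c) with hw
    have h1 : (rcp_mat b' L P).mulVec p =
        fun a => rcp_ext (rcp_l b' a) ((C L + X * C P) * w) := by
      rw [rcp_ext_fam, hw, rcp_co]
    rw [h1]
    obtain ⟨s, hs⟩ := rcp_sumX b' ((C L + X * C P) * w)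
    have h2 : ∑ a, rcp_ext (rcp_l b' a) ((C L + X * C P) * w) • (C (rcp_r b' a) : R[X]) =
        (C L + X * C P) * w + C g * (-s) := by
      rw [mul_neg, ← sub_eq_add_neg]
      exact eq_sub_of_add_eq hs.symm
    rw [h2]
    apply Ideal.Quotient.eq_zero_iff_mem.2
    apply Ideal.add_mem
    · exact Ideal.mul_mem_right _ _ (Ideal.subset_span (Set.mem_insert _ _))
    · exact Ideal.mul_mem_right _ _ (Ideal.subset_span (Set.mem_insert_of_mem _ rfl))
  · intro p hp
    rw [LinearMap.mem_ker, rcp_pi'_apply] at hp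
    obtain ⟨a, c, hac⟩ := rcp_mem (Ideal.Quotient.eq_zero_iff_mem.1 hp)
    refine ⟨fun i => rcp_ext (rcp_l b' i) a, ?_⟩
    rw [Matrix.toLin'_apply, ← rcp_ext_fam]
    have h := rcp_co b' p
    rw [hac] at h
    rw [← h]
    funext i
    rw [map_add, rcp_ext_g, add_zero]

private theorem rcp_surj' {g : R} {κ : Type} [Fintype κ] [DecidableEq κ] (L P : R)
    (b' : Module.Basis κ k (R ⧸ Ideal.span {g})) : Function.Surjective (rcp_pi' L P b') := by
  intro z
  obtain ⟨w, rfl⟩ := Ideal.Quotient.mk_surjective z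
  refine ⟨fun a => rcp_ext (rcp_l b' a) w, ?_⟩
  rw [rcp_pi'_apply]
  obtain ⟨s, hs⟩ := rcp_sumX b' w
  rw [Ideal.Quotient.eq]
  have h2 : ∑ a, rcp_ext (rcp_l b' a) w • (C (rcp_r b' a) : R[X]) - w = C g * (-s) := by
    rw [mul_neg]
    nth_rw 2 [hs]
    ring
  rw [h2]
  exact Ideal.mul_mem_right _ _ (Ideal.subset_span (Set.mem_insert_of_mem _ rfl))

private theorem rcp_surj (L P g : R) : Function.Surjective (rcp_pi (k := k) L P g) :=
  Ideal.Quotient.factor_surjective
    (Ideal.span_mono (Set.singleton_subset_iff.2 (Set.mem_insert _ _)))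

private def rcp_phi (L P g : R) : Qt (C L + X * C P) →ₗ[k[X]] Qt (C L + X * C P) :=
  Algebra.lmul k[X] (Qt (C L + X * C P)) (Ideal.Quotient.mk (Ideal.span {C L + X * C P}) (C g))

private theorem rcp_ker (L P g : R) :
    LinearMap.range (rcp_phi (k := k) L P g) = LinearMap.ker (rcp_pi (k := k) L P g) := by
  apply le_antisymm
  · rintro _ ⟨z, rfl⟩
    obtain ⟨w, rfl⟩ := Ideal.Quotient.mk_surjective z
    rw [LinearMap.mem_ker]
    have h : rcp_pi (k := k) L P g (rcp_phi (k := k) L P g (Ideal.Quotient.mk _ w)) =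
        Ideal.Quotient.mk _ (C g * w) := rfl
    rw [h, Ideal.Quotient.eq_zero_iff_mem]
    exact Ideal.mul_mem_right _ _ (Ideal.subset_span (Set.mem_insert_of_mem _ rfl))
  · intro z hz
    obtain ⟨w, rfl⟩ := Ideal.Quotient.mk_surjective z
    rw [LinearMap.mem_ker] at hz
    have h : rcp_pi (k := k) L P g (Ideal.Quotient.mk _ w) = Ideal.Quotient.mk _ w := rfl
    rw [h, Ideal.Quotient.eq_zero_iff_mem] at hz
    obtain ⟨a, c, hac⟩ := rcp_mem hz
    refine ⟨Ideal.Quotient.mk _ c, ?_⟩
    have h2 : rcp_phi (k := k) L P g (Ideal.Quotient.mk _ c) =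
        Ideal.Quotient.mk _ (C g * c) := rfl
    rw [h2, Ideal.Quotient.eq, hac]
    have h3 : C g * c - ((C L + X * C P) * a + C g * c) = (C L + X * C P) * (-a) := by ring
    rw [h3]
    exact Ideal.mul_mem_right _ _ (Ideal.mem_span_singleton_self _)

/-- The endomorphism `g` of `R[t] / (f)` and the endomorphism `X P + L` of `κ → k[t]` (the module
`(R / (g))[t]` in the basis `b'`) have the same cokernel `R[t] / (f, g)`: use `det_dvd` twice. The
map from `κ → k[t]` to `R[t] / (f, g)` is `p ↦ ∑ a, p a * r a`, where `r a` is a representative of `b' a`;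
it is surjective, and if `∑ a, p a r a = f w + g w'` then `w = ∑ a, w a r a + g ..` and the coordinates of
`f ∑ a, w a r a` modulo `g` are the `p a`. -/
theorem recip {L P g : R} {ι κ : Type} [Fintype ι] [DecidableEq ι] [Fintype κ] [DecidableEq κ]
    (b : Module.Basis ι k[X] (Qt (C L + X * C P)))
    (b' : Module.Basis κ k (R ⧸ Ideal.span {g})) (h : (mu b g).det ≠ 0) :
    ∃ a : k, a ≠ 0 ∧ (mu b g).det =
      C a * ((X : k[X]) • (mq b' P).map C + (mq b' L).map C).det := by
  have hM : Module.Free k[X] (Qt (C L + X * C P)) := Module.Free.of_basis b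
  have hM' : Module.Finite k[X] (Qt (C L + X * C P)) := Module.Finite.of_basis b
  have h1 : LinearMap.det (rcp_phi (k := k) L P g) = (mu b g).det := by
    rw [mu, Algebra.leftMulMatrix_apply, LinearMap.det_toMatrix]
    rfl
  have h2 : LinearMap.det (Matrix.toLin' (rcp_mat b' L P)) = (rcp_mat b' L P).det :=
    LinearMap.det_toLin' _
  have d1 := det_dvd (rcp_phi (k := k) L P g) (Matrix.toLin' (rcp_mat b' L P)) (rcp_pi L P g)
    (rcp_pi' L P b') (rcp_surj L P g) (rcp_surj' L P b') (rcp_ker L P g).le (rcp_phi' b').ge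
  have d2 := det_dvd (Matrix.toLin' (rcp_mat b' L P)) (rcp_phi (k := k) L P g) (rcp_pi' L P b')
    (rcp_pi L P g) (rcp_surj' L P b') (rcp_surj L P g) (rcp_phi' b').le (rcp_ker L P g).ge
  rw [h1, h2] at d1 d2
  obtain ⟨u, hu⟩ := associated_of_dvd_dvd d1 d2
  obtain ⟨a, ha, hau⟩ := Polynomial.isUnit_iff.1 u.isUnit
  refine ⟨a, ha.ne_zero, ?_⟩
  have h3 : (mu b g).det = C a * (rcp_mat b' L P).det := by
    rw [hau, ← hu]
    exact mul_comm _ _
  exact h3

end Pool.Agent.Crv
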