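import Pool.Agent.Crv.Chars
import Pool.Agent.Crv.Recip

/-!
# The product of the values of a function at the moving points
-/

set_option autoImplicit false

noncomputable section

namespace Pool.Agent.Crv

open Polynomial
open Pool.Agent.ZCyc
open Pool.Agent.VFP (Om tt)

universe u

attribute [local instance] Polynomial.algebra

variable {k : Type u} [Field k] [IsAlgClosed k] [CharZero k] {R : Type u} [CommRing R]
  [Algebra k R] {D : ℕ} {B : Bas k R D} {N : ℕ} {s : Fin N → k}
  {c : Fin N → Fin D → (R →ₐ[k] k)}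

/-- the determinant from the eigenvalues -/
private theorem prod_det_of_charpoly {K ι : Type*} [Field K] [Fintype ι] [DecidableEq ι]
    (M : Matrix ι ι K) (d : ι → K) (h : M.charpoly = ∏ p, (X - C (d p))) :
    M.det = ∏ p, d p := by
  rw [Matrix.det_eq_sign_charpoly_coeff, h, Polynomial.coeff_zero_eq_eval_zero,
    Polynomial.eval_prod]
  simp only [eval_sub, eval_X, eval_C, zero_sub]
  rw [Finset.prod_neg, ← mul_assoc, Finset.card_univ, ← mul_pow]
  simp

/-- the product over all points -/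
private theorem prod_split {K : Type*} [Field K] {N D : ℕ} (hD : 0 < D) (f : Fin N → Fin D → K) :
    ∏ p : Fin N × Fin D, f p.1 p.2 =
      (∏ j, f j ⟨0, hD⟩) * ∏ j, ∏ i ∈ Finset.univ.erase (⟨0, hD⟩ : Fin D), f j i := by
  rw [Fintype.prod_prod_type, ← Finset.prod_mul_distrib]
  refine Finset.prod_congr rfl fun j _ => ?_
  exact (Finset.mul_prod_erase Finset.univ (fun i => f j i) (Finset.mem_univ _)).symm

/-- the constant coefficient of the determinant -/
private theorem prod_coeff {K κ : Type*} [Field K] [Fintype κ] [DecidableEq κ]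
    (A L : Matrix κ κ K) :
    ((X : K[X]) • A.map C + L.map C).det.eval 0 = L.det := by
  rw [← Polynomial.coeff_zero_eq_eval_zero]
  exact Polynomial.coeff_det_X_add_C_zero A L

/-- (p2): the product of the values of `g` -/
theorem moving_prod [IsDomain R] (hc : Pts0 B s c) {P : R}
    (b : Module.Basis (Fin N × Fin D) k[X] (Qt (B.fam s P))) {τ : Om k}
    {S : Fin N → Fin D → (R →ₐ[k] Om k)}
    (hSc : ∀ (j : Fin N) (i : Fin D), (i : ℕ) ≠ 0 → S j i = cst (c j i))
    (hS : ∀ g, (muAt b τ g).charpoly = ∏ p : Fin N × Fin D, (X - C (S p.1 p.2 g)))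
    {g : R} (hg : ∀ j i, c j i g ≠ 0) {κ : Type} [Fintype κ] [DecidableEq κ]
    (b' : Module.Basis κ k (R ⧸ Ideal.span {g})) :
    (mq b' (B.lam s)).det ≠ 0 ∧
    ∏ j, S j ⟨0, B.pos⟩ g =
      algebraMap k (Om k) ((∏ j, c j ⟨0, B.pos⟩ g) / (mq b' (B.lam s)).det) *
      aeval τ ((X : k[X]) • (mq b' P).map C + (mq b' (B.lam s)).map C).det := by
  have h1 : (aeval τ) (mu b g).det = ∏ p : Fin N × Fin D, S p.1 p.2 g := by
    rw [AlgHom.map_det]
    exact prod_det_of_charpoly (muAt b τ g) (fun p => S p.1 p.2 g) (hS g)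
  rw [prod_split B.pos (fun j i => S j i g)] at h1
  have h2 : ∏ j, ∏ i ∈ Finset.univ.erase (⟨0, B.pos⟩ : Fin D), S j i g =
      algebraMap k (Om k)
        (∏ j, ∏ i ∈ Finset.univ.erase (⟨0, B.pos⟩ : Fin D), c j i g) := by
    rw [map_prod]
    refine Finset.prod_congr rfl fun j _ => ?_
    rw [map_prod]
    refine Finset.prod_congr rfl fun i hi => ?_
    have hi0 : (i : ℕ) ≠ 0 := by
      intro h0
      exact (Finset.mem_erase.mp hi).1 (Fin.ext h0)
    rw [hSc j i hi0]
    rfl
  rw [h2] at h1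
  have h3 : (mu b g).det.eval 0 = (∏ j, c j ⟨0, B.pos⟩ g) *
      ∏ j, ∏ i ∈ Finset.univ.erase (⟨0, B.pos⟩ : Fin D), c j i g := by
    rw [det_zero hc b g]
    exact prod_split B.pos (fun j i => c j i g)
  have hA : (∏ j, ∏ i ∈ Finset.univ.erase (⟨0, B.pos⟩ : Fin D), c j i g) ≠ 0 :=
    Finset.prod_ne_zero_iff.mpr fun j _ => Finset.prod_ne_zero_iff.mpr fun i _ => hg j i
  have hC0 : (∏ j, c j ⟨0, B.pos⟩ g) ≠ 0 := Finset.prod_ne_zero_iff.mpr fun j _ => hg j _
  have h4 : (mu b g).det ≠ 0 := by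
    intro h
    rw [h, eval_zero] at h3
    exact mul_ne_zero hC0 hA h3.symm
  obtain ⟨a, ha, h5⟩ := recip (L := B.lam s) (P := P) b b' h4
  have h6 : (mu b g).det.eval 0 = a * (mq b' (B.lam s)).det := by
    have h7 := congrArg (fun q : k[X] => q.eval 0) h5
    simp only [eval_mul, eval_C] at h7
    rw [prod_coeff] at h7
    exact h7
  have hm : (mq b' (B.lam s)).det ≠ 0 := by
    intro h
    rw [h, mul_zero] at h6
    rw [h6] at h3
    exact mul_ne_zero hC0 hA h3.symm
  refine ⟨hm, ?_⟩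
  have h8 : (aeval τ) (mu b g).det = algebraMap k (Om k) a *
      aeval τ ((X : k[X]) • (mq b' P).map C + (mq b' (B.lam s)).map C).det := by
    have h9 := congrArg (fun q : k[X] => (aeval τ) q) h5
    simp only [map_mul, aeval_C] at h9
    exact h9
  rw [h8] at h1
  set A := ∏ j, ∏ i ∈ Finset.univ.erase (⟨0, B.pos⟩ : Fin D), c j i g with hAdef
  have h10 : (∏ j, c j ⟨0, B.pos⟩ g) / (mq b' (B.lam s)).det = a / A := by
    rw [div_eq_div_iff hm hA, ← h3, h6]
  have hA' : algebraMap k (Om k) A ≠ 0 := by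
    rw [Ne, map_eq_zero]
    exact hA
  rw [h10, map_div₀, div_mul_eq_mul_div, eq_div_iff hA', ← h1]

end Pool.Agent.Crv
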