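import Pool.Agent.Crv.Moving
import Pool.Agent.Crv.Prod
import Pool.Agent.Crv.InfA

/-!
# The moving points at a pole of `τ`
-/

set_option autoImplicit false

noncomputable section

namespace Pool.Agent.Crv

open Polynomial
open Pool.Agent.ZCyc
open Pool.Agent.VFP (Om tt)

universe u

attribute [local instance] Polynomial.algebra

variable {k : Type u} [Field k] [IsAlgClosed k] [CharZero k] {R : Type u} [CommRing R]
  [Algebra k R] {D : ℕ} {B : Bas k R D} {N : ℕ} {s : Fin N → k}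
  {c : Fin N → Fin D → (R →ₐ[k] k)}

/-- the product of the values of `g = x ^ m + u`, divided by `τ ^ (D * m)`, has a value -/
private theorem inf_prod [IsDomain R] (hc : Pts0 B s c) {P : R}
    (b : Module.Basis (Fin N × Fin D) k[X] (Qt (B.fam s P))) {τ : Om k}
    {S : Fin N → Fin D → (R →ₐ[k] Om k)}
    (hSc : ∀ (j : Fin N) (i : Fin D), (i : ℕ) ≠ 0 → S j i = cst (c j i))
    (hS : ∀ g, (muAt b τ g).charpoly = ∏ p : Fin N × Fin D, (X - C (S p.1 p.2 g)))
    {v : Place k (Om k)} (hv : τ ∉ v.ring) {m : ℕ} {u : R} (hu : u ∈ B.Lt m)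
    (h0 : B.x ^ m + u ≠ 0) (hg : ∀ j i, c j i (B.x ^ m + u) ≠ 0) :
    ∃ w : k, v.At ((∏ j, S j ⟨0, B.pos⟩ (B.x ^ m + u)) / τ ^ (D * m)) w ∧
      (w ≠ 0 ↔ ∀ q : R →ₐ[k] k, q (B.x ^ m + u) = 0 → q P ≠ 0) := by
  have := finite_quot B h0
  have hfr := finrank_quot B hu
  let b' := Module.finBasisOfFinrankEq k (R ⧸ Ideal.span {B.x ^ m + u}) hfr
  obtain ⟨hd, hp⟩ := moving_prod hc b hSc hS hg b'
  have hdeg := Polynomial.natDegree_det_X_add_C_le (mq b' P) (mq b' (B.lam s))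
  have hcoef := Polynomial.coeff_det_X_add_C_card (mq b' P) (mq b' (B.lam s))
  rw [Fintype.card_fin] at hdeg hcoef
  have hat := at_pole hv hdeg
  rw [hcoef] at hat
  refine ⟨(∏ j, c j ⟨0, B.pos⟩ (B.x ^ m + u)) / (mq b' (B.lam s)).det * (mq b' P).det,
    ?_, ?_⟩
  · rw [hp, mul_div_assoc]
    exact (Place.at_const _).mul hat
  · rw [← det_mq_ne B h0 b']
    have h1 : (∏ j, c j ⟨0, B.pos⟩ (B.x ^ m + u)) / (mq b' (B.lam s)).det ≠ 0 :=
      div_ne_zero (Finset.prod_ne_zero_iff.2 fun j _ => hg j _) hd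
    constructor
    · intro h
      exact right_ne_zero_of_mul h
    · intro h
      exact mul_ne_zero h1 h

omit [IsAlgClosed k] [CharZero k] in
/-- at a pole of `x` the value of `(x ^ m + u) / x ^ m` is `1` -/
private theorem inf_one {v : Place k (Om k)} {S : R →ₐ[k] Om k} (hx : S B.x ∉ v.ring) {m : ℕ}
    {u : R} (hu : u ∈ B.Lt m) : v.At (S (B.x ^ m + u) / S B.x ^ m) 1 := by
  have hx0 : S B.x ≠ 0 := by
    intro h
    apply hx
    rw [h]
    exact v.ring.zero_mem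
  have h1 := vanishes_inf B hx hu
  have h2 : S (B.x ^ m + u) / S B.x ^ m = 1 + S u / S B.x ^ m := by
    rw [map_add, map_pow, add_div, div_self (pow_ne_zero m hx0)]
  rw [h2]
  have h3 := (Place.at_const (v := v) (1 : k)).add (Place.at_zero_iff.2 h1)
  rwa [map_one, add_zero] at h3

/-- (p4) at a pole of `τ`. Suppose that no `S j` (`= S j 0`) has the value `δ`. Let `T` consist of `δ`, the
residues of the `S j` with `S j x ∈ v.ring`, the points `c j i`, and the zeros of `P`. For large `m` choose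
`g₁ = x ^ m + u₁` with the values `0` at `δ` and `1` at the other points of `T`, and `g₂ = x ^ m + u₂` with
the value `1` on `T` (`exists_large`). `R / (g₁)` and `R / (g₂)` have dimension `D * m`
(`finrank_quot`). By `moving_prod`, `Matrix.coeff_det_X_add_C_card` (in Mathlib), `det_mq_ne` and
`at_pole` the product of the `S j g₂`, divided by `τ ^ (D * m)`, has a value `≠ 0` at `v`, and the product
of the `S j g₁`, divided by `τ ^ (D * m)`, has the value `0`. So `S j g₁ / S j g₂` vanishes at `v` for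
some `j`. But for `S j x ∉ v.ring` it has the value `1` (`vanishes_inf`), and for `S j x ∈ v.ring` it has
the value `1` as well. -/
theorem moving_inf [IsDomain R] (hc : Pts0 B s c) {P : R} (hP : P ∈ B.Lt N) (hP0 : P ≠ 0)
    (b : Module.Basis (Fin N × Fin D) k[X] (Qt (B.fam s P))) {τ : Om k}
    {S : Fin N → Fin D → (R →ₐ[k] Om k)}
    (hSc : ∀ (j : Fin N) (i : Fin D), (i : ℕ) ≠ 0 → S j i = cst (c j i))
    (hS : ∀ g, (muAt b τ g).charpoly = ∏ p : Fin N × Fin D, (X - C (S p.1 p.2 g)))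
    {v : Place k (Om k)} (hv : τ ∉ v.ring) {δ : R →ₐ[k] k} (hδ : δ P = 0)
    (hδs : ∀ j, δ B.x ≠ s j) :
    ∃ j, ∀ g, v.At (S j ⟨0, B.pos⟩ g) (δ g) := by
  classical
  by_contra hcon
  push Not at hcon
  -- `N` is positive
  have hN : 0 < N := by
    rcases Nat.eq_zero_or_pos N with h | h
    · subst h
      exfalso
      apply hP0
      have h1 : B.Lt 0 = ⊥ := by
        unfold Bas.Lt
        rw [Submodule.span_eq_bot]
        rintro z ⟨i, j, hij, _⟩
        omega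
      rw [h1] at hP
      exact (Submodule.mem_bot k).1 hP
    · exact h
  -- the residues
  have hres : ∀ j : Fin N, ∃ σ : R →ₐ[k] k, S j ⟨0, B.pos⟩ B.x ∈ v.ring →
      ∀ g, v.At (S j ⟨0, B.pos⟩ g) (σ g) := by
    intro j
    by_cases hx : S j ⟨0, B.pos⟩ B.x ∈ v.ring
    · obtain ⟨σ, hσ⟩ := exists_res (v := v) (S := S j ⟨0, B.pos⟩)
        (fun g => mem_ring_of_x B hx g)
      exact ⟨σ, fun _ => hσ⟩
    · exact ⟨δ, fun h => absurd h hx⟩
  choose σ hσ using hres
  have hσδ : ∀ j, S j ⟨0, B.pos⟩ B.x ∈ v.ring → σ j ≠ δ := by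
    intro j hx h
    obtain ⟨g, hg⟩ := hcon j
    apply hg
    rw [← h]
    exact hσ j hx g
  let T : Set (R →ₐ[k] k) := Set.range σ ∪ Set.range (fun p : Fin N × Fin D => c p.1 p.2) ∪
    {q : R →ₐ[k] k | q P = 0}
  have hT : T.Finite := ((Set.finite_range _).union (Set.finite_range _)).union
    (finite_zeros B hP0)
  have hTσ : ∀ j, σ j ∈ T := fun j => Or.inl (Or.inl ⟨j, rfl⟩)
  have hTc : ∀ j i, c j i ∈ T := fun j i => Or.inl (Or.inr ⟨(j, i), rfl⟩)
  have hTP : ∀ q : R →ₐ[k] k, q P = 0 → q ∈ T := fun q hq => Or.inr hq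
  have hcδ : ∀ j i, c j i ≠ δ := by
    intro j i h
    apply hδs j
    rw [← h]
    exact hc.hx j i
  obtain ⟨m, hm⟩ := exists_large B hT
  obtain ⟨u₁, hu₁, hv₁⟩ := hm m le_rfl (fun q => if q = δ then 0 else 1)
  obtain ⟨u₂, hu₂, hv₂⟩ := hm m le_rfl (fun _ => 1)
  have hc₁ : ∀ j i, c j i (B.x ^ m + u₁) = 1 := by
    intro j i
    rw [hv₁ _ (hTc j i), if_neg (hcδ j i)]
  have hc₂ : ∀ j i, c j i (B.x ^ m + u₂) = 1 := fun j i => hv₂ _ (hTc j i)
  have h0₁ : B.x ^ m + u₁ ≠ 0 := by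
    intro h
    have := hc₁ ⟨0, hN⟩ ⟨0, B.pos⟩
    rw [h, map_zero] at this
    exact zero_ne_one this
  have h0₂ : B.x ^ m + u₂ ≠ 0 := by
    intro h
    have := hc₂ ⟨0, hN⟩ ⟨0, B.pos⟩
    rw [h, map_zero] at this
    exact zero_ne_one this
  obtain ⟨w₁, hw₁, hz₁⟩ := inf_prod hc b hSc hS hv hu₁ h0₁
    (fun j i => by rw [hc₁]; exact one_ne_zero)
  obtain ⟨w₂, hw₂, hz₂⟩ := inf_prod hc b hSc hS hv hu₂ h0₂
    (fun j i => by rw [hc₂]; exact one_ne_zero)
  have hδ₁ : δ (B.x ^ m + u₁) = 0 := by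
    rw [hv₁ _ (hTP δ hδ), if_pos rfl]
  have hw₁0 : w₁ = 0 := by
    by_contra h
    exact hz₁.1 h δ hδ₁ hδ
  have hw₂0 : w₂ ≠ 0 := by
    rw [hz₂]
    intro q hq hqP
    rw [hv₂ q (hTP q hqP)] at hq
    exact one_ne_zero hq
  have hτ0 : τ ≠ 0 := by
    intro h
    apply hv
    rw [h]
    exact v.ring.zero_mem
  -- the quotient of the products vanishes
  have hq : v.Vanishes (∏ j, (S j ⟨0, B.pos⟩ (B.x ^ m + u₁) / S j ⟨0, B.pos⟩ (B.x ^ m + u₂))) := by
    rw [← Place.at_zero_iff, Finset.prod_div_distrib]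
    have h1 := hw₁.div hw₂ hw₂0
    rw [hw₁0, zero_div, div_div_div_cancel_right₀ (pow_ne_zero _ hτ0)] at h1
    exact h1
  obtain ⟨j, _, hj⟩ := v.vanishes_prod hq
  rw [← Place.at_zero_iff] at hj
  -- but all factors have the value 1
  have hone : v.At (S j ⟨0, B.pos⟩ (B.x ^ m + u₁) / S j ⟨0, B.pos⟩ (B.x ^ m + u₂)) 1 := by
    by_cases hx : S j ⟨0, B.pos⟩ B.x ∈ v.ring
    · have h1 := hσ j hx (B.x ^ m + u₁)
      have h2 := hσ j hx (B.x ^ m + u₂)
      rw [hv₁ _ (hTσ j), if_neg (hσδ j hx)] at h1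
      rw [hv₂ _ (hTσ j)] at h2
      have h3 := h1.div h2 one_ne_zero
      rwa [div_one] at h3
    · have h1 := inf_one (B := B) hx hu₁
      have h2 := inf_one (B := B) hx hu₂
      have h3 := h1.div h2 one_ne_zero
      have hx0 : S j ⟨0, B.pos⟩ B.x ≠ 0 := by
        intro h
        apply hx
        rw [h]
        exact v.ring.zero_mem
      rwa [div_one, div_div_div_cancel_right₀ (pow_ne_zero _ hx0)] at h3
  exact one_ne_zero (hone.unique hj)

end Pool.Agent.Crv
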