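import Mathlib

/-!
# Linear algebra: commuting matrices
-/

set_option autoImplicit false

noncomputable section

namespace Pool.Agent.Crv

open Polynomial Matrix

universe u

/-- a basis of left eigenvectors -/
theorem charpoly_of_rows {K : Type*} [Field K] {ι κ : Type*} [Fintype ι] [DecidableEq ι]
    [Fintype κ] (hc : Fintype.card κ = Fintype.card ι) (M : Matrix ι ι K) (ψ : κ → ι → K)
    (hψ : LinearIndependent K ψ) (d : κ → K) (h : ∀ i, Matrix.vecMul (ψ i) M = d i • ψ i) :
    M.charpoly = ∏ i, (X - C (d i)) := by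
  classical
  let e : ι ≃ κ := (Fintype.equivOfCardEq hc).symm
  let P : Matrix ι ι K := fun i => ψ (e i)
  have hP : IsUnit P := by
    rw [← Matrix.linearIndependent_rows_iff_isUnit]
    exact hψ.comp e e.injective
  obtain ⟨U, hU⟩ := hP
  have h1 : P * M = diagonal (fun i => d (e i)) * P := by
    ext i j
    have h2 := congrFun (h (e i)) j
    rw [Matrix.diagonal_mul]
    simpa [Matrix.mul_apply, Matrix.vecMul, dotProduct, P] using h2
  have h2 : U.val * M * U⁻¹.val = diagonal (fun i => d (e i)) := by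
    rw [hU, h1, ← hU, mul_assoc]
    simp
  have h3 := Matrix.charpoly_units_conj U M
  rw [← Matrix.coe_units_inv] at h3
  rw [← h3, h2, Matrix.charpoly_diagonal]
  exact Equiv.prod_comp e fun i => (X - C (d i))

/-- a left eigenvector -/
theorem root_of_row {K : Type*} [Field K] {ι : Type*} [Fintype ι] [DecidableEq ι]
    (M : Matrix ι ι K) {ψ : ι → K} (hψ : ψ ≠ 0) {d : K} (h : Matrix.vecMul ψ M = d • ψ) :
    M.charpoly.eval d = 0 := by
  rw [Matrix.eval_charpoly]
  refine Matrix.exists_vecMul_eq_zero_iff.1 ⟨ψ, hψ, ?_⟩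
  rw [Matrix.vecMul_sub, h, Matrix.scalar_apply, sub_eq_zero]
  ext j
  simp [Matrix.vecMul_diagonal, mul_comm]

/-- If the eigenvalues of `μ g₀` are different then the eigenvectors `w i` of `μ g₀` are eigenvectors of
all `μ g`, which commute with `μ g₀`. For a left eigenvector `ψ` with the eigenvalues `χ g` there is `i`
with `ψ ⬝ w i ≠ 0`, and `χ g (ψ ⬝ w i) = S i g (ψ ⬝ w i)`. -/
theorem exists_chars {k : Type u} [Field k] {R : Type u} [CommRing R] [Algebra k R] {K : Type u}
    [Field K] [IsAlgClosed K] [Algebra k K] {ι : Type} [Fintype ι] [DecidableEq ι]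
    (μ : R →ₐ[k] Matrix ι ι K) (g₀ : R) (d : ι → K) (hd : Function.Injective d)
    (hg : (μ g₀).charpoly = ∏ i, (X - C (d i))) :
    ∃ S : ι → (R →ₐ[k] K), (∀ i, S i g₀ = d i) ∧
      (∀ g, (μ g).charpoly = ∏ i, (X - C (S i g))) ∧
      ∀ (χ : R → K) (ψ : ι → K), ψ ≠ 0 → (∀ g, Matrix.vecMul ψ (μ g) = χ g • ψ) →
        ∀ i, χ g₀ = d i → ∀ g, χ g = S i g := by
  classical
  -- eigenvectors
  have h1 : ∀ i, ∃ w : ι → K, w ≠ 0 ∧ μ g₀ *ᵥ w = d i • w := by
    intro i
    have h2 : (Matrix.scalar ι (d i) - μ g₀).det = 0 := by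
      rw [← Matrix.eval_charpoly, hg, eval_prod]
      refine Finset.prod_eq_zero (Finset.mem_univ i) ?_
      simp
    obtain ⟨w, hw, hw2⟩ := Matrix.exists_mulVec_eq_zero_iff.2 h2
    refine ⟨w, hw, ?_⟩
    rw [Matrix.sub_mulVec, sub_eq_zero] at hw2
    rw [← hw2]
    ext j
    simp [Matrix.scalar_apply, Matrix.mulVec_diagonal]
  choose w hw0 hw using h1
  have hli : LinearIndependent K w := by
    refine Module.End.eigenvectors_linearIndependent' (Matrix.toLin' (μ g₀)) d hd w fun i => ?_
    refine ⟨?_, hw0 i⟩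
    rw [Module.End.mem_eigenspace_iff, Matrix.toLin'_apply]
    exact hw i
  have hcard : Fintype.card ι = Module.finrank K (ι → K) := by
    rw [Module.finrank_fintype_fun_eq_card]
  let B : Module.Basis ι K (ι → K) := basisOfLinearIndependentOfCardEqFinrank' w hli hcard
  have hB : ∀ i, B i = w i := fun i => by
    simp [B, coe_basisOfLinearIndependentOfCardEqFinrank']
  -- eigenspaces are lines
  have hline : ∀ i (v : ι → K), μ g₀ *ᵥ v = d i • v → ∃ c : K, v = c • w i := by
    intro i v hv
    refine ⟨B.repr v i, ?_⟩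
    have h2 : v = ∑ j, B.repr v j • w j := by
      conv_lhs => rw [← B.sum_repr v]
      exact Finset.sum_congr rfl fun j _ => by rw [hB]
    have h3 : ∑ j, (B.repr v j * (d j - d i)) • w j = 0 := by
      have h4 : μ g₀ *ᵥ v = ∑ j, (B.repr v j * d j) • w j := by
        conv_lhs => rw [h2]
        rw [Matrix.mulVec_sum]
        refine Finset.sum_congr rfl fun j _ => ?_
        rw [Matrix.mulVec_smul, hw, smul_smul]
      have h5 : d i • v = ∑ j, (B.repr v j * d i) • w j := by
        conv_lhs => rw [h2]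
        rw [Finset.smul_sum]
        refine Finset.sum_congr rfl fun j _ => ?_
        rw [smul_smul, mul_comm]
      have h6 := hv
      rw [h4, h5, ← sub_eq_zero, ← Finset.sum_sub_distrib] at h6
      rw [← h6]
      refine Finset.sum_congr rfl fun j _ => ?_
      rw [← sub_smul, mul_sub]
    have h4 := Fintype.linearIndependent_iff.1 hli _ h3
    conv_lhs => rw [h2]
    refine Finset.sum_eq_single i (fun j _ hj => ?_) (fun h => absurd (Finset.mem_univ i) h)
    have h5 : B.repr v j = 0 := (mul_eq_zero.1 (h4 j)).resolve_right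
      (sub_ne_zero.2 fun h => hj (hd h))
    rw [h5, zero_smul]
  have hS : ∀ i g, ∃ c : K, μ g *ᵥ w i = c • w i := by
    intro i g
    refine hline i _ ?_
    rw [Matrix.mulVec_mulVec, ← map_mul, mul_comm, map_mul, ← Matrix.mulVec_mulVec, hw,
      Matrix.mulVec_smul]
  choose S hS using hS
  have huniq : ∀ i (a b : K), a • w i = b • w i → a = b := fun i a b h =>
    smul_left_injective K (hw0 i) h
  let T : ι → (R →ₐ[k] K) := fun i =>
    { toFun := S i
      map_one' := huniq i _ _ (by rw [← hS, map_one, Matrix.one_mulVec, one_smul])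
      map_mul' := fun g h => huniq i _ _ (by
        rw [← hS, map_mul, ← Matrix.mulVec_mulVec, hS, Matrix.mulVec_smul, hS, smul_smul,
          mul_comm])
      map_zero' := huniq i _ _ (by rw [← hS, map_zero, Matrix.zero_mulVec, zero_smul])
      map_add' := fun g h => huniq i _ _ (by
        rw [← hS, map_add, Matrix.add_mulVec, hS, hS, add_smul])
      commutes' := fun c => huniq i _ _ (by
        rw [← hS, AlgHom.commutes, Matrix.algebraMap_eq_diagonal]
        ext j
        simp [Matrix.mulVec_diagonal]) }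
  have hT : ∀ i g, T i g = S i g := fun _ _ => rfl
  refine ⟨T, fun i => huniq i _ _ (by rw [hT, ← hS, hw]), fun g => ?_, ?_⟩
  · rw [← Matrix.charpoly_transpose]
    refine charpoly_of_rows rfl (μ g)ᵀ w hli (fun i => T i g) fun i => ?_
    rw [Matrix.vecMul_transpose, hS, hT]
  · intro χ ψ hψ h i hi g
    have h2 : ∀ j g, S j g * (ψ ⬝ᵥ w j) = χ g * (ψ ⬝ᵥ w j) := by
      intro j g
      have h3 : ψ ⬝ᵥ (μ g *ᵥ w j) = (ψ ᵥ* μ g) ⬝ᵥ w j := Matrix.dotProduct_mulVec _ _ _
      rw [hS, h, dotProduct_smul, smul_dotProduct, smul_eq_mul, smul_eq_mul] at h3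
      exact h3
    have hSd : ∀ j, S j g₀ = d j := fun j => huniq j _ _ (by rw [← hS, hw])
    have h3 : ∀ j, j ≠ i → ψ ⬝ᵥ w j = 0 := by
      intro j hj
      have h4 := h2 j g₀
      rw [hSd, hi, ← sub_eq_zero, ← sub_mul] at h4
      exact (mul_eq_zero.1 h4).resolve_left (sub_ne_zero.2 fun h => hj (hd h))
    have h4 : ψ ⬝ᵥ w i ≠ 0 := by
      intro h5
      apply hψ
      have h6 : ∀ v : ι → K, ψ ⬝ᵥ v = 0 := by
        intro v
        rw [← B.sum_repr v, dotProduct_sum]
        refine Finset.sum_eq_zero fun j _ => ?_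
        rw [dotProduct_smul, hB]
        by_cases hj : j = i
        · rw [hj, h5, smul_zero]
        · rw [h3 j hj, smul_zero]
      ext j
      have := h6 (Pi.single j 1)
      simpa using this
    exact (mul_right_cancel₀ h4 (h2 i g)).symm

end Pool.Agent.Crv
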