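import Pool.Agent.Crv.Chars
import Pool.Agent.Crv.Plc

/-!
# Properties of the moving points
-/

set_option autoImplicit false

noncomputable section

namespace Pool.Agent.Crv

open Polynomial
open Pool.Agent.ZCyc
open Pool.Agent.VFP (Om tt)

universe u

attribute [local instance] Polynomial.algebra

variable {k : Type u} [Field k] [IsAlgClosed k] [CharZero k] {R : Type u} [CommRing R]
  [Algebra k R] {D : ℕ} {B : Bas k R D} {N : ℕ} {s : Fin N → k}
  {c : Fin N → Fin D → (R →ₐ[k] k)}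

/-- At a place where `τ` is finite all points `S j i` have residues (`charpoly_at`, `roots_at`,
`exists_res`), and the residues `σ j i` satisfy `∏ (X - σ j i g) = (muAt b τ₁ g).charpoly`. -/
theorem residues [IsDomain R] {P : R}
    (b : Module.Basis (Fin N × Fin D) k[X] (Qt (B.fam s P))) {τ : Om k}
    {S : Fin N → Fin D → (R →ₐ[k] Om k)}
    (hS : ∀ g, (muAt b τ g).charpoly = ∏ p : Fin N × Fin D, (X - C (S p.1 p.2 g)))
    {v : Place k (Om k)} {τ₁ : k} (hv : v.At τ τ₁) :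
    ∃ σ : Fin N → Fin D → (R →ₐ[k] k), (∀ j i g, v.At (S j i g) (σ j i g)) ∧
      ∀ g, (muAt b τ₁ g).charpoly = ∏ p : Fin N × Fin D, (X - C (σ p.1 p.2 g)) := by
  have h1 : ∀ g, ∃ d' : Fin N × Fin D → k, (∀ p, v.At (S p.1 p.2 g) (d' p)) ∧
      (muAt b τ₁ g).charpoly = ∏ p, (X - C (d' p)) := by
    intro g
    refine roots_at (d := fun p : Fin N × Fin D => S p.1 p.2 g)
      (Matrix.charpoly_monic _) (fun m => ?_)
    have h2 := charpoly_at (mu b g) hv m
    rw [← hS g]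
    exact h2
  choose d' hd' hq using h1
  have h2 : ∀ j i, ∃ σ : R →ₐ[k] k, ∀ g, v.At (S j i g) (σ g) := fun j i =>
    exists_res (fun g => (hd' g (j, i)).mem)
  choose σ hσ using h2
  refine ⟨σ, hσ, fun g => ?_⟩
  rw [hq g]
  refine Finset.prod_congr rfl fun p _ => ?_
  rw [(hd' g p).unique (hσ p.1 p.2 g)]

omit [CharZero k] [IsAlgClosed k] in
private theorem kR_cst {v : Place k (Om k)} (c : R →ₐ[k] k) (g : R) : v.At (cst c g) (c g) := by
  have h : cst c g = algebraMap k (Om k) (c g) := rfl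
  rw [h]
  exact Place.at_const _

/-- (p3): `residues` for `τ₁ = 0`, `charpoly_zero`, `perm_of_values` for the points with `i = 0` (cancel
the factors with `i ≠ 0`) -/
theorem moving_start [IsDomain R] (hc : Pts0 B s c) {P : R}
    (b : Module.Basis (Fin N × Fin D) k[X] (Qt (B.fam s P))) {τ : Om k}
    {S : Fin N → Fin D → (R →ₐ[k] Om k)}
    (hSc : ∀ (j : Fin N) (i : Fin D), (i : ℕ) ≠ 0 → S j i = cst (c j i))
    (hS : ∀ g, (muAt b τ g).charpoly = ∏ p : Fin N × Fin D, (X - C (S p.1 p.2 g)))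
    {v : Place k (Om k)} (hv : v.At τ 0) :
    ∃ π : Equiv.Perm (Fin N), ∀ j g,
      v.At (S j ⟨0, B.pos⟩ g) (c (π j) ⟨0, B.pos⟩ g) := by
  classical
  obtain ⟨σ, hσ, hq⟩ := residues b hS hv
  have h1 : ∀ (j : Fin N) (i : Fin D), i ≠ ⟨0, B.pos⟩ → σ j i = c j i := by
    intro j i hi
    have hi' : (i : ℕ) ≠ 0 := fun h => hi (Fin.ext h)
    ext g
    have h2 := hσ j i g
    rw [hSc j i hi'] at h2
    exact h2.unique (kR_cst _ _)
  have h3 : ∀ g, ∏ j, (X - C (σ j ⟨0, B.pos⟩ g)) = ∏ j, (X - C (c j ⟨0, B.pos⟩ g)) := by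
    intro g
    have h4 := (hq g).symm.trans (charpoly_zero hc b g)
    rw [Fintype.prod_prod_type, Fintype.prod_prod_type] at h4
    have h5 : ∀ t : Fin N → Fin D → (R →ₐ[k] k),
        ∏ j, ∏ i, (X - C (t j i g)) = (∏ j, (X - C (t j ⟨0, B.pos⟩ g))) *
          ∏ j, ∏ i ∈ Finset.univ.erase (⟨0, B.pos⟩ : Fin D), (X - C (t j i g)) := by
      intro t
      rw [← Finset.prod_mul_distrib]
      refine Finset.prod_congr rfl fun j _ => ?_
      exact (Finset.mul_prod_erase Finset.univ (fun i => X - C (t j i g))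
        (Finset.mem_univ (⟨0, B.pos⟩ : Fin D))).symm
    have h6 := (h5 σ).symm.trans (h4.trans (h5 c))
    have h7 : ∏ j, ∏ i ∈ Finset.univ.erase (⟨0, B.pos⟩ : Fin D), (X - C (σ j i g)) =
        ∏ j, ∏ i ∈ Finset.univ.erase (⟨0, B.pos⟩ : Fin D), (X - C (c j i g)) := by
      refine Finset.prod_congr rfl fun j _ => Finset.prod_congr rfl fun i hi => ?_
      rw [h1 j i (Finset.ne_of_mem_erase hi)]
    rw [h7] at h6
    refine mul_right_cancel₀ ?_ h6
    refine Finset.prod_ne_zero_iff.2 fun j _ => Finset.prod_ne_zero_iff.2 fun i _ => ?_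
    exact X_sub_C_ne_zero _
  have : Infinite k := IsAlgClosed.instInfinite
  obtain ⟨π, hπ⟩ := perm_of_values (s := fun j => σ j ⟨0, B.pos⟩) (c := fun j => c j ⟨0, B.pos⟩) h3
  refine ⟨π, fun j g => ?_⟩
  have h8 := hσ j ⟨0, B.pos⟩ g
  have h9 : σ j ⟨0, B.pos⟩ = c (π j) ⟨0, B.pos⟩ := hπ j
  rw [h9] at h8
  exact h8

/-- (p4) for finite `τ₁`: by `exists_rows` and `root_of_row` `δ g` is a root of
`(muAt b τ₁ g).charpoly` for all `g`; `residues` and `exists_eq_of_values`. The residue of `S j i`,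
`i ≠ 0`, is `c j i`, and `δ x ≠ s j`. -/
theorem moving_fin [IsDomain R] (hc : Pts0 B s c) {P : R}
    (b : Module.Basis (Fin N × Fin D) k[X] (Qt (B.fam s P))) {τ : Om k}
    {S : Fin N → Fin D → (R →ₐ[k] Om k)}
    (hSc : ∀ (j : Fin N) (i : Fin D), (i : ℕ) ≠ 0 → S j i = cst (c j i))
    (hS : ∀ g, (muAt b τ g).charpoly = ∏ p : Fin N × Fin D, (X - C (S p.1 p.2 g)))
    {v : Place k (Om k)} {τ₁ : k} (hv : v.At τ τ₁) {δ : R →ₐ[k] k}
    (hδ : ∏ j, (δ B.x - s j) + τ₁ * δ P = 0) (hδs : ∀ j, δ B.x ≠ s j) :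
    ∃ j, ∀ g, v.At (S j ⟨0, B.pos⟩ g) (δ g) := by
  classical
  obtain ⟨σ, hσ, hq⟩ := residues b hS hv
  have h0 : (B.fam s P).eval₂ (δ : R →+* k) τ₁ = 0 := by
    rw [fam_eval]
    exact hδ
  obtain ⟨ψ, hψ, hrow⟩ := exists_rows b τ₁ (fun _ : Unit => δ)
    (fun _ _ _ => Subsingleton.elim _ _) (fun _ => h0)
  have h1 : ∀ g, ∃ p : Fin N × Fin D, σ p.1 p.2 g = δ g := by
    intro g
    have h2 : ψ () ≠ 0 := hψ.ne_zero ()
    have h3 := root_of_row _ h2 (hrow () g)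
    rw [hq g] at h3
    rw [Polynomial.eval_prod, Finset.prod_eq_zero_iff] at h3
    obtain ⟨p, -, hp⟩ := h3
    refine ⟨p, ?_⟩
    rw [eval_sub, eval_X, eval_C, sub_eq_zero] at hp
    exact hp.symm
  have : Infinite k := IsAlgClosed.instInfinite
  obtain ⟨p, hp⟩ := exists_eq_of_values (s := fun p : Fin N × Fin D => σ p.1 p.2) h1
  have h4 : p.2 = ⟨0, B.pos⟩ := by
    by_contra hi
    have hi' : (p.2 : ℕ) ≠ 0 := fun h => hi (Fin.ext h)
    have h5 : σ p.1 p.2 = c p.1 p.2 := by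
      ext g
      have h2 := hσ p.1 p.2 g
      rw [hSc p.1 p.2 hi'] at h2
      exact h2.unique (kR_cst _ _)
    apply hδs p.1
    rw [← hp, h5]
    exact hc.hx p.1 p.2
  refine ⟨p.1, fun g => ?_⟩
  have h6 := hσ p.1 p.2 g
  rw [h4] at h6
  rw [← hp]
  simp only [h4]
  exact h6

end Pool.Agent.Crv
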