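import Pool.Agent.Crv.PFrame

/-!
# Plane curves: the coordinates of the chart
-/

set_option autoImplicit false

noncomputable section

namespace Pool.Agent.Crv

open Polynomial

universe u

variable {k : Type u} [Field k]

private theorem pb_gen (Q : k[X][X]) :
    Algebra.adjoin k {AdjoinRoot.of Q X, AdjoinRoot.root Q} = ⊤ := by
  rw [eq_top_iff]
  rintro r -
  have hx : AdjoinRoot.of Q X ∈ Algebra.adjoin k {AdjoinRoot.of Q X, AdjoinRoot.root Q} :=
    Algebra.subset_adjoin (Set.mem_insert _ _)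
  have hy : AdjoinRoot.root Q ∈ Algebra.adjoin k {AdjoinRoot.of Q X, AdjoinRoot.root Q} :=
    Algebra.subset_adjoin (Set.mem_insert_of_mem _ rfl)
  have hof : ∀ c : k[X], AdjoinRoot.of Q c ∈
      Algebra.adjoin k {AdjoinRoot.of Q X, AdjoinRoot.root Q} := by
    intro c
    induction c using Polynomial.induction_on' with
    | add p q hp hq =>
      rw [map_add]
      exact add_mem hp hq
    | monomial n a =>
      rw [← C_mul_X_pow_eq_monomial, map_mul, map_pow]
      exact mul_mem (Subalgebra.algebraMap_mem _ a) (pow_mem hx n)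
  induction r using AdjoinRoot.induction_on with
  | ih p =>
    induction p using Polynomial.induction_on' with
    | add p q hp hq =>
      rw [map_add]
      exact add_mem hp hq
    | monomial n a =>
      rw [← C_mul_X_pow_eq_monomial, map_mul, map_pow, AdjoinRoot.mk_C, AdjoinRoot.mk_X]
      exact mul_mem (hof a) (pow_mem hy n)

private theorem pb_ind {Q : k[X][X]} (hQ : Q.Monic) :
    LinearIndependent k fun p : ℕ × Fin Q.natDegree =>
      AdjoinRoot.of Q X ^ p.1 * AdjoinRoot.root Q ^ (p.2 : ℕ) := by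
  have hb : ∀ i, AdjoinRoot.powerBasisAux' hQ i = AdjoinRoot.root Q ^ (i : ℕ) :=
    (AdjoinRoot.powerBasis' hQ).basis_eq_pow
  have h1 := ((basisMonomials k).smulTower (AdjoinRoot.powerBasisAux' hQ)).linearIndependent
  convert h1 using 1
  funext p
  have hm : (fun s : ℕ => (monomial s) (1 : k)) p.1 = X ^ p.1 := monomial_one_right_eq_X_pow p.1
  rw [Module.Basis.smulTower_apply, coe_basisMonomials, hb, Algebra.smul_def,
    AdjoinRoot.algebraMap_eq, hm, map_pow]

private theorem pb_rel {Q : k[X][X]} (hQ : Q.Monic)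
    (hd : ∀ i, Q.coeff i ≠ 0 → (Q.coeff i).natDegree + i ≤ Q.natDegree) :
    AdjoinRoot.root Q ^ Q.natDegree ∈ Submodule.span k {z : AdjoinRoot Q | ∃ i j : ℕ,
      i + j ≤ Q.natDegree ∧ j < Q.natDegree ∧
        z = AdjoinRoot.of Q X ^ i * AdjoinRoot.root Q ^ j} := by
  have h1 : AdjoinRoot.root Q ^ Q.natDegree =
      -∑ i ∈ Finset.range Q.natDegree, AdjoinRoot.of Q (Q.coeff i) * AdjoinRoot.root Q ^ i := by
    have h3 := congrArg (AdjoinRoot.mk Q) hQ.as_sum
    rw [AdjoinRoot.mk_self, map_add, map_pow, AdjoinRoot.mk_X, map_sum] at h3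
    rw [eq_neg_of_add_eq_zero_left h3.symm]
    simp only [map_mul, map_pow, AdjoinRoot.mk_C, AdjoinRoot.mk_X]
  rw [h1]
  refine neg_mem (sum_mem fun i hi => ?_)
  rw [Finset.mem_range] at hi
  by_cases h0 : Q.coeff i = 0
  · rw [h0, map_zero, zero_mul]
    exact zero_mem _
  have h2 := hd i h0
  rw [(Q.coeff i).as_sum_range_C_mul_X_pow, map_sum, Finset.sum_mul]
  refine sum_mem fun j hj => ?_
  rw [Finset.mem_range] at hj
  have h3 : AdjoinRoot.of Q (C ((Q.coeff i).coeff j) * X ^ j) * AdjoinRoot.root Q ^ i =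
      (Q.coeff i).coeff j • (AdjoinRoot.of Q X ^ j * AdjoinRoot.root Q ^ i) := by
    rw [map_mul, map_pow, Algebra.smul_def, mul_assoc]
    rfl
  rw [h3]
  exact Submodule.smul_mem _ _ (Submodule.subset_span ⟨j, i, by omega, hi, rfl⟩)

/-- the coordinates of the curve -/
theorem exists_bas (T : Frame k) {F : MvPolynomial (Fin 3) k} {d : ℕ} (hd : 0 < d)
    (hF : F.IsHomogeneous d) (ho : MvPolynomial.eval T.o F ≠ 0) :
    ∃ B : Bas k (T.Rg F) d, B.x = AdjoinRoot.of (T.eq F) X ∧ B.y = AdjoinRoot.root (T.eq F) := by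
  obtain ⟨hmon, hdeg⟩ := eq_monic T hF ho
  have hrel : ∀ i, (T.eq F).coeff i ≠ 0 → ((T.eq F).coeff i).natDegree + i ≤ d := by
    intro i hi
    have h1 : (T.eq F).coeff i = C (MvPolynomial.eval T.o F)⁻¹ * (T.res F).coeff i := by
      rw [Frame.eq, coeff_C_mul]
    have h2 : (T.res F).coeff i ≠ 0 := by
      intro h
      rw [h1, h, mul_zero] at hi
      exact hi rfl
    have h3 := res_degree T hF i h2
    have h4 : ((T.eq F).coeff i).natDegree ≤ ((T.res F).coeff i).natDegree := by
      rw [h1]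
      exact natDegree_C_mul_le _ _
    omega
  subst hdeg
  exact ⟨{ x := AdjoinRoot.of (T.eq F) X, y := AdjoinRoot.root (T.eq F), pos := hd,
           gen := pb_gen _, ind := pb_ind hmon, rel := pb_rel hmon hrel }, rfl, rfl⟩

end Pool.Agent.Crv
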