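import Pool.Agent.Crv.Fil2

/-!
# Plane curves: an affine chart

`F` is a form of degree `D` in three variables, and `a`, `o`, `e` is a basis of `k³` with `F(o) ≠ 0`. The
chart consists of the points `x a + y o + e`.
-/

set_option autoImplicit false

noncomputable section

namespace Pool.Agent.Crv

open Polynomial

universe u

variable {k : Type u} [Field k]

/-- a frame of `k³` -/
structure Frame (k : Type u) [Field k] where
  /-- the direction of the coordinate `x` -/
  a : Fin 3 → k
  /-- the direction of the coordinate `y`, the centre of the projection -/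
  o : Fin 3 → k
  /-- the origin of the chart -/
  e : Fin 3 → k
  /-- the coordinate `x` -/
  m : (Fin 3 → k) →ₗ[k] k
  /-- the coordinate `y` -/
  p : (Fin 3 → k) →ₗ[k] k
  /-- the linear form which is `1` on the chart -/
  l : (Fin 3 → k) →ₗ[k] k
  dec : ∀ v : Fin 3 → k, v = m v • a + p v • o + l v • e
  ma : m a = 1
  mo : m o = 0
  me : m e = 0
  pa : p a = 0
  po : p o = 1
  pe : p e = 0
  la : l a = 0
  lo : l o = 0
  le : l e = 1

/-- the point of the chart with the coordinates `x`, `y` -/
def Frame.vec (T : Frame k) {K : Type*} [CommRing K] [Algebra k K] (x y : K) (i : Fin 3) : K :=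
  algebraMap k K (T.a i) * x + algebraMap k K (T.o i) * y + algebraMap k K (T.e i)

/-- the restriction of a polynomial to the chart -/
def Frame.res (T : Frame k) : MvPolynomial (Fin 3) k →ₐ[k] k[X][X] :=
  MvPolynomial.aeval (T.vec (C X) X)

/-- the monic equation of the curve `F = 0` in the chart -/
def Frame.eq (T : Frame k) (F : MvPolynomial (Fin 3) k) : k[X][X] :=
  C (C (MvPolynomial.eval T.o F)⁻¹) * T.res F

/-- the ring of functions of the curve in the chart -/
abbrev Frame.Rg (T : Frame k) (F : MvPolynomial (Fin 3) k) : Type u := AdjoinRoot (T.eq F)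

/-- the function given by a polynomial -/
def Frame.fn (T : Frame k) (F g : MvPolynomial (Fin 3) k) : T.Rg F :=
  AdjoinRoot.mk (T.eq F) (T.res g)

/-- the point of the plane given by a point `S` of the curve over `K` -/
def Frame.pt (T : Frame k) {F : MvPolynomial (Fin 3) k} {K : Type*} [CommRing K] [Algebra k K]
    (S : T.Rg F →ₐ[k] K) : Fin 3 → K :=
  T.vec (S (AdjoinRoot.of (T.eq F) X)) (S (AdjoinRoot.root (T.eq F)))

end Pool.Agent.Crv
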