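import Pool.Agent.Crv.PFrame

/-!
# Plane curves: forms as functions on the chart, and the points of the chart
-/

set_option autoImplicit false

noncomputable section

namespace Pool.Agent.Crv

open Polynomial

universe u

variable {k : Type u} [Field k]

private theorem pfn_alg (p : k[X][X]) (a : k) :
    AdjoinRoot.mk p (C (C a)) = algebraMap k (AdjoinRoot p) a := rfl

/-- forms of degree `d` give functions of degree at most `d` -/
theorem fn_mem_Lt (T : Frame k) {F g : MvPolynomial (Fin 3) k} {D d : ℕ}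
    (B : Bas k (T.Rg F) D) (hx : B.x = AdjoinRoot.of (T.eq F) X)
    (hy : B.y = AdjoinRoot.root (T.eq F)) (hg : g.IsHomogeneous d) :
    T.fn F g ∈ B.Lt (d + 1) := by
  unfold Frame.fn
  rw [(T.res g).as_sum_range_C_mul_X_pow, map_sum]
  refine Submodule.sum_mem _ fun j _ => ?_
  rw [map_mul, map_pow, AdjoinRoot.mk_X, AdjoinRoot.mk_C]
  by_cases h0 : (T.res g).coeff j = 0
  · rw [h0, map_zero, zero_mul]
    exact Submodule.zero_mem _
  have h1 := res_degree T hg j h0
  obtain ⟨p, hp⟩ : ∃ p, p = (T.res g).coeff j := ⟨_, rfl⟩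
  rw [← hp] at h1 ⊢
  rw [p.as_sum_range_C_mul_X_pow, map_sum, Finset.sum_mul]
  refine Submodule.sum_mem _ fun i hi => ?_
  have hi' : i ≤ p.natDegree := Nat.lt_succ_iff.1 (Finset.mem_range.1 hi)
  have h2 : AdjoinRoot.of (T.eq F) (C (p.coeff i) * X ^ i) * AdjoinRoot.root (T.eq F) ^ j =
      p.coeff i • (B.x ^ i * B.y ^ j) := by
    rw [hx, hy, Algebra.smul_def, ← pfn_alg, map_mul, map_pow, AdjoinRoot.mk_C, mul_assoc]
  rw [h2]
  exact Submodule.smul_mem _ _ (Submodule.subset_span ⟨i, j, by omega, rfl⟩)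

/-- the value of the function given by `g` -/
theorem apply_fn (T : Frame k) {F : MvPolynomial (Fin 3) k} {K : Type*} [CommRing K] [Algebra k K]
    (S : T.Rg F →ₐ[k] K) (g : MvPolynomial (Fin 3) k) :
    S (T.fn F g) = MvPolynomial.aeval (T.pt S) g := by
  unfold Frame.fn
  induction g using MvPolynomial.induction_on with
  | C a =>
    rw [MvPolynomial.algHom_C, MvPolynomial.algHom_C]
    exact S.commutes a
  | add f g hf hg =>
    rw [map_add, map_add, map_add, map_add, hf, hg]
  | mul_X f i hf =>
    rw [map_mul, map_mul, map_mul, map_mul, hf, MvPolynomial.aeval_X, Frame.res,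
      MvPolynomial.aeval_X]
    congr 1
    unfold Frame.pt Frame.vec
    have e : ∀ a : k, S (AdjoinRoot.mk (T.eq F) (algebraMap k k[X][X] a)) = algebraMap k K a :=
      fun a => S.commutes a
    simp only [map_add, map_mul, AdjoinRoot.mk_C, AdjoinRoot.mk_X, e]

/-- the points of the chart which are on the curve -/
theorem exists_pt (T : Frame k) {F : MvPolynomial (Fin 3) k}
    (ho : MvPolynomial.eval T.o F ≠ 0) {K : Type*} [Field K] [Algebra k K] {x y : K}
    (h : MvPolynomial.aeval (T.vec x y) F = 0) :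
    ∃ S : T.Rg F →ₐ[k] K, S (AdjoinRoot.of (T.eq F) X) = x ∧
      S (AdjoinRoot.root (T.eq F)) = y := by
  have h1 : ∀ g : MvPolynomial (Fin 3) k, (T.res g).eval₂ (aeval x : k[X] →ₐ[k] K) y =
      MvPolynomial.aeval (T.vec x y) g := by
    intro g
    induction g using MvPolynomial.induction_on with
    | C a =>
      rw [MvPolynomial.algHom_C, MvPolynomial.algHom_C]
      have h2 : algebraMap k k[X][X] a = C (C a) := rfl
      rw [h2, eval₂_C]
      exact aeval_C x a
    | add f g hf hg => rw [map_add, map_add, eval₂_add, hf, hg]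
    | mul_X f i hf =>
      rw [map_mul, map_mul, eval₂_mul, hf, MvPolynomial.aeval_X, Frame.res, MvPolynomial.aeval_X]
      congr 1
      unfold Frame.vec
      have h2 : ∀ a : k, algebraMap k k[X][X] a = C (C a) := fun _ => rfl
      rw [eval₂_add, eval₂_add, eval₂_mul, eval₂_mul, h2, h2, h2, eval₂_C, eval₂_C, eval₂_C,
        eval₂_C, eval₂_X]
      congr 1
      · congr 1
        · congr 1
          · exact aeval_C x _
          · exact aeval_X x
        · congr 1
          exact aeval_C x _
      · exact aeval_C x _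
  have h2 : (T.eq F).eval₂ (aeval x : k[X] →ₐ[k] K) y = 0 := by
    unfold Frame.eq
    rw [eval₂_mul, h1, h, mul_zero]
  exact ⟨AdjoinRoot.liftAlgHom (T.eq F) (aeval x) y h2,
    by rw [AdjoinRoot.liftAlgHom_of, aeval_X], by rw [AdjoinRoot.liftAlgHom_root]⟩

end Pool.Agent.Crv
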