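import Pool.Agent.Crv.PFrameA

/-!
# Plane curves: the ring of functions of the chart
-/

set_option autoImplicit false

noncomputable section

namespace Pool.Agent.Crv

open Polynomial

universe u

variable {k : Type u} [Field k]

end Pool.Agent.Crv
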