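import Pool.Agent.Crv.PDefs

/-!
# Plane curves: the ring of functions of the chart, the equation
-/

set_option autoImplicit false

noncomputable section

namespace Pool.Agent.Crv

open Polynomial

universe u

variable {k : Type u} [Field k]

/-- two vectors `o`, `δ` which are not proportional: there is a frame with the given `o` and with
`l δ = 1` for a multiple of `δ` -/
theorem exists_frame {o δ : Fin 3 → k} (h : LinearIndependent k ![o, δ]) :
    ∃ T : Frame k, T.o = o ∧ T.l δ = 1 := by
  obtain ⟨a, ha⟩ := exists_linearIndependent_cons_of_lt_finrank h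
    (by rw [Module.finrank_fin_fun]; norm_num)
  let b := basisOfLinearIndependentOfCardEqFinrank ha (by simp)
  have hb0 : b 0 = a := by simp [b]
  have hb1 : b 1 = o := by
    simp only [b, coe_basisOfLinearIndependentOfCardEqFinrank]
    rfl
  have hb2 : b 2 = δ := by
    simp only [b, coe_basisOfLinearIndependentOfCardEqFinrank]
    rfl
  have hc : ∀ i j, b.coord i (b j) = if j = i then 1 else 0 := fun i j => by
    rw [Module.Basis.coord_apply, Module.Basis.repr_self, Finsupp.single_apply]
  refine ⟨{ a := b 0, o := b 1, e := b 2, m := b.coord 0, p := b.coord 1, l := b.coord 2,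
            dec := fun v => ?_, ma := ?_, mo := ?_, me := ?_, pa := ?_, po := ?_, pe := ?_,
            la := ?_, lo := ?_, le := ?_ }, hb1, ?_⟩
  · conv_lhs => rw [← b.sum_repr v]
    rw [Fin.sum_univ_three]
    rfl
  · rw [hc]; rfl
  · rw [hc]; rfl
  · rw [hc]; rfl
  · rw [hc]; rfl
  · rw [hc]; rfl
  · rw [hc]; rfl
  · rw [hc]; rfl
  · rw [hc]; rfl
  · rw [hc]; rfl
  · rw [← hb2]
    change b.coord 2 (b 2) = 1
    rw [hc]; rfl

/-- total degree at most `d`, and the coefficient of `y ^ d` is `c` -/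
private def kp_Q (d : ℕ) (f : k[X][X]) (c : k) : Prop :=
  (∀ i j, d < i + j → (f.coeff i).coeff j = 0) ∧ f.coeff d = C c

private theorem kp_Q.hi {d : ℕ} {f : k[X][X]} {c : k} (h : kp_Q d f c) {i : ℕ} (hi : d < i) :
    f.coeff i = 0 := by
  ext j
  rw [h.1 i j (by omega), coeff_zero]

private theorem kp_Q.add {d : ℕ} {f g : k[X][X]} {c e : k} (hf : kp_Q d f c)
    (hg : kp_Q d g e) : kp_Q d (f + g) (c + e) := by
  refine ⟨fun i j h => ?_, ?_⟩
  · rw [coeff_add, coeff_add, hf.1 i j h, hg.1 i j h, add_zero]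
  · rw [coeff_add, hf.2, hg.2, C_add]

private theorem kp_Q.mul {d d' : ℕ} {f g : k[X][X]} {c e : k} (hf : kp_Q d f c)
    (hg : kp_Q d' g e) : kp_Q (d + d') (f * g) (c * e) := by
  refine ⟨fun i j h => ?_, ?_⟩
  · rw [coeff_mul, finsetSum_coeff]
    refine Finset.sum_eq_zero fun x hx => ?_
    rw [Finset.HasAntidiagonal.mem_antidiagonal] at hx
    rw [coeff_mul]
    refine Finset.sum_eq_zero fun y hy => ?_
    rw [Finset.HasAntidiagonal.mem_antidiagonal] at hy
    by_cases h1 : d < x.1 + y.1
    · rw [hf.1 _ _ h1, zero_mul]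
    · rw [hg.1 x.2 y.2 (by omega), mul_zero]
  · rw [coeff_mul, Finset.sum_eq_single (d, d')]
    · rw [hf.2, hg.2, C_mul]
    · rintro ⟨x, y⟩ hx hne
      rw [Finset.HasAntidiagonal.mem_antidiagonal] at hx
      dsimp only at hx ⊢
      by_cases h1 : d < x
      · rw [hf.hi h1, zero_mul]
      · have h2 : d' < y := by
          by_contra h3
          exact hne (by rw [Prod.mk.injEq]; omega)
        rw [hg.hi h2, mul_zero]
    · intro h
      exact absurd (by rw [Finset.HasAntidiagonal.mem_antidiagonal]) h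

private theorem kp_Q_const (c : k) : kp_Q 0 (C (C c) : k[X][X]) c := by
  refine ⟨fun i j h => ?_, ?_⟩
  · rw [coeff_C]
    split_ifs with hi
    · rw [coeff_C, if_neg (by omega)]
    · rw [coeff_zero]
  · rw [coeff_C_zero]

private theorem kp_Q.pow {d : ℕ} {f : k[X][X]} {c : k} (hf : kp_Q d f c) (m : ℕ) :
    kp_Q (d * m) (f ^ m) (c ^ m) := by
  induction m with
  | zero =>
    rw [mul_zero, pow_zero, pow_zero]
    have := kp_Q_const (1 : k)
    rwa [C_1, C_1] at this
  | succ m ih =>
    rw [pow_succ, pow_succ, Nat.mul_succ]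
    exact ih.mul hf

private theorem kp_Q_zero (d : ℕ) : kp_Q d (0 : k[X][X]) 0 :=
  ⟨fun i j _ => by rw [coeff_zero, coeff_zero], by rw [coeff_zero, C_0]⟩

private theorem kp_Q_vec (T : Frame k) (i : Fin 3) :
    kp_Q 1 (T.vec (C X) X i : k[X][X]) (T.o i) := by
  have h : (T.vec (C X) X i : k[X][X]) =
      C (C (T.a i) * X + C (T.e i)) + C (C (T.o i)) * X := by
    unfold Frame.vec
    have h1 : ∀ c : k, algebraMap k k[X][X] c = C (C c) := fun c => rfl
    rw [h1, h1, h1, C_add, C_mul]
    ring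
  rw [h]
  refine ⟨fun i j hij => ?_, ?_⟩
  · rw [coeff_add, coeff_C, coeff_C_mul, coeff_X]
    split_ifs with h1 h2 h2
    · omega
    · subst h1
      rw [mul_zero, add_zero, coeff_add, coeff_C_mul, coeff_X, coeff_C, if_neg (by omega),
        if_neg (by omega), mul_zero, add_zero]
    · rw [mul_one, zero_add, coeff_C, if_neg (by omega)]
    · rw [mul_zero, add_zero, coeff_zero]
  · rw [coeff_add, coeff_C, if_neg one_ne_zero, coeff_C_mul, coeff_X_one, mul_one, zero_add]

private theorem kp_Q_res (T : Frame k) {g : MvPolynomial (Fin 3) k} {d : ℕ}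
    (hg : g.IsHomogeneous d) : kp_Q d (T.res g) (MvPolynomial.eval T.o g) := by
  obtain ⟨V, hV⟩ : ∃ V : Fin 3 → k[X][X], V = T.vec (C X : k[X][X]) X := ⟨_, rfl⟩
  have hV' : ∀ i, kp_Q 1 (V i) (T.o i) := fun i => by rw [hV]; exact kp_Q_vec T i
  have key : ∀ s ∈ g.support, kp_Q d (T.res (MvPolynomial.monomial s (g.coeff s)))
      (MvPolynomial.eval T.o (MvPolynomial.monomial s (g.coeff s))) := by
    intro s hs
    have hd : s 0 + s 1 + s 2 = d := by
      have h1 := hg (MvPolynomial.mem_support_iff.1 hs)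
      rw [Finsupp.weight_apply, Finsupp.sum_fintype _ _ (fun _ => by simp),
        Fin.sum_univ_three] at h1
      simpa using h1
    have h2 : T.res (MvPolynomial.monomial s (g.coeff s)) = C (C (g.coeff s)) *
        (V 0 ^ s 0 * V 1 ^ s 1 * V 2 ^ s 2) := by
      unfold Frame.res
      rw [← hV, MvPolynomial.aeval_monomial, Finsupp.prod_fintype _ _ (fun _ => pow_zero _),
        Fin.prod_univ_three]
      rfl
    have h3 : MvPolynomial.eval T.o (MvPolynomial.monomial s (g.coeff s)) = g.coeff s *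
        (T.o 0 ^ s 0 * T.o 1 ^ s 1 * T.o 2 ^ s 2) := by
      rw [MvPolynomial.eval_monomial, Finsupp.prod_fintype _ _ (fun _ => pow_zero _),
        Fin.prod_univ_three]
    rw [h2, h3]
    have h4 := (kp_Q_const (g.coeff s)).mul ((((hV' 0).pow (s 0)).mul
      ((hV' 1).pow (s 1))).mul ((hV' 2).pow (s 2)))
    have h5 : 0 + (1 * s 0 + 1 * s 1 + 1 * s 2) = d := by omega
    rwa [h5] at h4
  have key2 : ∀ t : Finset (Fin 3 →₀ ℕ), t ⊆ g.support →
      kp_Q d (T.res (∑ s ∈ t, MvPolynomial.monomial s (g.coeff s)))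
      (MvPolynomial.eval T.o (∑ s ∈ t, MvPolynomial.monomial s (g.coeff s))) := by
    classical
    intro t
    induction t using Finset.induction_on with
    | empty =>
      intro _
      rw [Finset.sum_empty, map_zero, map_zero]
      exact kp_Q_zero d
    | insert s t hst ih =>
      intro h
      rw [Finset.sum_insert hst, map_add, map_add]
      exact (key s (h (Finset.mem_insert_self _ _))).add
        (ih fun x hx => h (Finset.mem_insert_of_mem hx))
  have h := key2 g.support subset_rfl
  rwa [MvPolynomial.support_sum_monomial_coeff] at h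

/-- the restriction of a form of degree `d` has total degree at most `d` -/
theorem res_degree (T : Frame k) {g : MvPolynomial (Fin 3) k} {d : ℕ} (hg : g.IsHomogeneous d)
    (i : ℕ) (hi : (T.res g).coeff i ≠ 0) : ((T.res g).coeff i).natDegree + i ≤ d := by
  by_contra h
  exact leadingCoeff_ne_zero.2 hi ((kp_Q_res T hg).1 i _ (by omega))

/-- the coefficient of `y ^ d` is `g(o)` -/
theorem res_coeff (T : Frame k) {g : MvPolynomial (Fin 3) k} {d : ℕ} (hg : g.IsHomogeneous d) :
    (T.res g).coeff d = C (MvPolynomial.eval T.o g) :=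
  (kp_Q_res T hg).2

theorem eq_monic (T : Frame k) {F : MvPolynomial (Fin 3) k} {d : ℕ} (hF : F.IsHomogeneous d)
    (ho : MvPolynomial.eval T.o F ≠ 0) : (T.eq F).Monic ∧ (T.eq F).natDegree = d := by
  have h : kp_Q d (T.eq F) 1 := by
    have h1 := (kp_Q_const (MvPolynomial.eval T.o F)⁻¹).mul (kp_Q_res T hF)
    rwa [zero_add, inv_mul_cancel₀ ho] at h1
  have h1 : (T.eq F).natDegree ≤ d := natDegree_le_iff_coeff_eq_zero.2 fun i hi => h.hi hi
  have h2 : (T.eq F).coeff d ≠ 0 := by
    rw [h.2, C_1]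
    exact one_ne_zero
  have h3 : (T.eq F).natDegree = d := le_antisymm h1 (le_natDegree_of_ne_zero h2)
  refine ⟨?_, h3⟩
  rw [Monic, leadingCoeff, h3, h.2, C_1]

end Pool.Agent.Crv
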