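import Pool.Agent.Crv.PIrr
import Pool.Agent.Crv.InfA

/-!
# Plane curves: general fibres of the projection
-/

set_option autoImplicit false

noncomputable section

namespace Pool.Agent.Crv

open Polynomial

universe u

variable {k : Type u} [Field k] [IsAlgClosed k] [CharZero k]

omit [IsAlgClosed k] in
/-- a relation of Bezout with coefficients in `k[x][y]` -/
private theorem h80_bezout {f : k[X][X]} (hf : f.Monic) (hirr : Irreducible f) :
    ∃ (r : k[X]) (u v : k[X][X]), r ≠ 0 ∧ u * f + v * derivative f = C r := by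
  let K := FractionRing k[X]
  have : CharZero K := charZero_of_injective_algebraMap (IsFractionRing.injective k[X] K)
  have h1 : Irreducible (f.map (algebraMap k[X] K)) :=
    (hf.irreducible_iff_irreducible_map_fraction_map (K := K)).1 hirr
  obtain ⟨a, b, hab⟩ := h1.separable
  obtain ⟨s, hs1, hs⟩ := IsLocalization.integerNormalization_spec (nonZeroDivisors k[X]) a
  obtain ⟨t, ht1, ht⟩ := IsLocalization.integerNormalization_spec (nonZeroDivisors k[X]) b
  have hs0 : s ≠ 0 := nonZeroDivisors.ne_zero hs1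
  have ht0 : t ≠ 0 := nonZeroDivisors.ne_zero ht1
  refine ⟨s * t, C t * IsLocalization.integerNormalization (nonZeroDivisors k[X]) a,
    C s * IsLocalization.integerNormalization (nonZeroDivisors k[X]) b, mul_ne_zero hs0 ht0, ?_⟩
  apply Polynomial.map_injective _ (IsFractionRing.injective k[X] K)
  rw [Polynomial.map_add, Polynomial.map_mul, Polynomial.map_mul, Polynomial.map_mul,
    Polynomial.map_mul, hs, ht, Polynomial.map_C, Polynomial.map_C, Polynomial.map_C, map_mul,
    C_mul, ← derivative_map]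
  have e1 : s • a = C (algebraMap k[X] K s) * a := by
    rw [← algebraMap_smul K s a, smul_eq_C_mul]
  have e2 : t • b = C (algebraMap k[X] K t) * b := by
    rw [← algebraMap_smul K t b, smul_eq_C_mul]
  rw [e1, e2]
  linear_combination C (algebraMap k[X] K s) * C (algebraMap k[X] K t) * hab

/-- a monic irreducible polynomial over `k[x]` has different roots for almost all `x` -/
theorem finite_ramification {f : k[X][X]} (hf : f.Monic) (hirr : Irreducible f) :
    ∃ E : Finset k, ∀ x₀ ∉ E, (f.map (evalRingHom x₀)).roots.Nodup := by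
  classical
  obtain ⟨r, u, v, hr, h⟩ := h80_bezout hf hirr
  refine ⟨r.roots.toFinset, fun x₀ hx => nodup_roots ?_⟩
  have h0 : r.eval x₀ ≠ 0 := by
    intro h0
    apply hx
    rw [Multiset.mem_toFinset, mem_roots hr]
    exact h0
  have h1 := congrArg (Polynomial.map (evalRingHom x₀)) h
  rw [Polynomial.map_add, Polynomial.map_mul, Polynomial.map_mul, Polynomial.map_C,
    ← derivative_map] at h1
  refine ⟨C (r.eval x₀)⁻¹ * u.map (evalRingHom x₀), C (r.eval x₀)⁻¹ * v.map (evalRingHom x₀), ?_⟩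
  have h2 : (C (r.eval x₀)⁻¹ : k[X]) * C (r.eval x₀) = 1 := by
    rw [← C_mul, inv_mul_cancel₀ h0, C_1]
  have h3 : (evalRingHom x₀) r = r.eval x₀ := rfl
  rw [h3] at h1
  linear_combination C (r.eval x₀)⁻¹ * h1 + h2

omit [IsAlgClosed k] [CharZero k] in
private theorem h80_ext {f : k[X][X]} {p q : AdjoinRoot f →ₐ[k] k}
    (h1 : p (AdjoinRoot.of f X) = q (AdjoinRoot.of f X))
    (h2 : p (AdjoinRoot.root f) = q (AdjoinRoot.root f)) : p = q := by
  have h3 : (p : AdjoinRoot f →+* k).comp (AdjoinRoot.mk f) =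
      (q : AdjoinRoot f →+* k).comp (AdjoinRoot.mk f) := by
    refine Polynomial.ringHom_ext' (Polynomial.ringHom_ext ?_ h1) ?_
    · intro a
      exact (p.commutes a).trans (q.commutes a).symm
    · exact h2
  apply AlgHom.ext
  intro x
  obtain ⟨g, rfl⟩ := AdjoinRoot.mk_surjective x
  exact RingHom.congr_fun h3 g

omit [IsAlgClosed k] [CharZero k] in
/-- the coordinate `y` of a point is a root -/
private theorem h80_root {f : k[X][X]} (p : AdjoinRoot f →ₐ[k] k) :
    (f.map (evalRingHom (p (AdjoinRoot.of f X)))).eval (p (AdjoinRoot.root f)) = 0 := by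
  have h1 := congrArg p (AdjoinRoot.eval₂_root f)
  rw [map_zero] at h1
  rw [eval_map, ← h1]
  have h2 : evalRingHom (p (AdjoinRoot.of f X)) =
      (p : AdjoinRoot f →+* k).comp (AdjoinRoot.of f) := by
    refine Polynomial.ringHom_ext ?_ ?_
    · intro a
      rw [coe_evalRingHom, eval_C]
      exact (p.commutes a).symm
    · rw [coe_evalRingHom, eval_X]
      rfl
  rw [h2]
  exact (hom_eval₂ f (AdjoinRoot.of f) (p : AdjoinRoot f →+* k) (AdjoinRoot.root f)).symm

omit [IsAlgClosed k] [CharZero k] in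
/-- a point with given coordinates -/
private theorem h80_point {f : k[X][X]} {x y : k} (h : (f.map (evalRingHom x)).eval y = 0) :
    ∃ p : AdjoinRoot f →ₐ[k] k, p (AdjoinRoot.of f X) = x ∧ p (AdjoinRoot.root f) = y := by
  have h1 : f.eval₂ (aeval x : k[X] →ₐ[k] k) y = 0 := by
    rw [eval_map] at h
    exact h
  refine ⟨AdjoinRoot.liftAlgHom f (aeval x : k[X] →ₐ[k] k) y h1, ?_, ?_⟩
  · rw [AdjoinRoot.liftAlgHom_of, aeval_X]
  · rw [AdjoinRoot.liftAlgHom_root]

omit [CharZero k] in
/-- the points of one fibre -/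
private theorem h80_fibre {f : k[X][X]} (hf : f.Monic) {d : ℕ} (hd : f.natDegree = d) (hd0 : 0 < d)
    (p : AdjoinRoot f →ₐ[k] k)
    (hn : (f.map (evalRingHom (p (AdjoinRoot.of f X)))).roots.Nodup) :
    ∃ c : Fin d → (AdjoinRoot f →ₐ[k] k), Function.Injective c ∧ c ⟨0, hd0⟩ = p ∧
      ∀ i, c i (AdjoinRoot.of f X) = p (AdjoinRoot.of f X) := by
  classical
  set x := p (AdjoinRoot.of f X) with hx
  set g := f.map (evalRingHom x) with hg
  have hgm : g.Monic := hf.map _
  have hcard : g.roots.toFinset.card = d := by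
    rw [Multiset.toFinset_card_of_nodup hn, IsAlgClosed.card_roots_eq_natDegree, hg,
      hf.natDegree_map, hd]
  let e := (g.roots.toFinset.equivFinOfCardEq hcard).symm
  have hy : p (AdjoinRoot.root f) ∈ g.roots.toFinset := by
    rw [Multiset.mem_toFinset, mem_roots hgm.ne_zero]
    exact h80_root p
  let e' : Fin d ≃ g.roots.toFinset := (Equiv.swap ⟨0, hd0⟩ (e.symm ⟨_, hy⟩)).trans e
  have he' : (e' ⟨0, hd0⟩ : k) = p (AdjoinRoot.root f) := by
    change ((e (Equiv.swap ⟨0, hd0⟩ (e.symm ⟨_, hy⟩) ⟨0, hd0⟩) : g.roots.toFinset) : k) = _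
    rw [Equiv.swap_apply_left, Equiv.apply_symm_apply]
  have hroot : ∀ i, g.eval (e' i : k) = 0 := by
    intro i
    have h1 := (e' i).2
    rw [Multiset.mem_toFinset, mem_roots hgm.ne_zero] at h1
    exact h1
  choose c hc1 hc2 using fun i => h80_point (hroot i)
  refine ⟨c, ?_, ?_, hc1⟩
  · intro i j hij
    apply e'.injective
    apply Subtype.ext
    rw [← hc2 i, ← hc2 j, hij]
  · refine h80_ext (hc1 _) ?_
    rw [hc2, he']

/-- the points of a general fibre -/
theorem exists_fibres (T : Frame k) {F : MvPolynomial (Fin 3) k} {d : ℕ} (hd : 0 < d)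
    (hF : F.IsHomogeneous d) (ho : MvPolynomial.eval T.o F ≠ 0) (hirr : Irreducible F) :
    ∃ E : Finset k, ∀ {n : ℕ} (s : Fin n → (T.Rg F →ₐ[k] k)) (B : Bas k (T.Rg F) d),
      B.x = AdjoinRoot.of (T.eq F) X → (∀ j, s j B.x ∉ E) →
      Function.Injective (fun j => s j B.x) →
      ∃ c : Fin n → Fin d → (T.Rg F →ₐ[k] k), Pts0 B (fun j => s j B.x) c ∧
        ∀ j, c j ⟨0, B.pos⟩ = s j := by
  obtain ⟨hm, hdeg⟩ := eq_monic T hF ho
  obtain ⟨E, hE⟩ := finite_ramification hm (eq_irreducible T hd hF ho hirr)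
  refine ⟨E, ?_⟩
  intro n s B hB hs hinj
  rw [hB] at hs
  choose c hc1 hc2 hc3 using fun j => h80_fibre hm hdeg B.pos (s j) (hE _ (hs j))
  refine ⟨c, ⟨?_, hc1, hinj⟩, hc2⟩
  intro j i
  rw [hB]
  exact hc3 j i

/-- the values of `x` at the zeros of a function -/
theorem finite_x_zeros {R : Type u} [CommRing R] [Algebra k R] [IsDomain R] {D : ℕ}
    (B : Bas k R D) {g : R} (hg : g ≠ 0) :
    ∃ E : Finset k, ∀ q : R →ₐ[k] k, q g = 0 → q B.x ∈ E := by
  classical
  refine ⟨(finite_zeros B hg).toFinset.image fun q => q B.x, fun q hq => ?_⟩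
  rw [Finset.mem_image]
  exact ⟨q, (Set.Finite.mem_toFinset _).2 hq, rfl⟩

end Pool.Agent.Crv
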