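import Pool.Agent.Crv.PFn
import Pool.Agent.Crv.PBas

/-!
# Plane curves: the equation in the chart is irreducible
-/

set_option autoImplicit false

noncomputable section

namespace Pool.Agent.Crv

open Polynomial

universe u

variable {k : Type u} [Field k]

private theorem pi_aeval_mul {K : Type*} [CommRing K] [Algebra k K] {Q : MvPolynomial (Fin 3) k}
    {n : ℕ} (hQ : Q.IsHomogeneous n) (c : K) (w : Fin 3 → K) :
    MvPolynomial.aeval (fun i => c * w i) Q = c ^ n * MvPolynomial.aeval w Q := by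
  rw [MvPolynomial.aeval_def, MvPolynomial.aeval_def, MvPolynomial.eval₂_eq',
    MvPolynomial.eval₂_eq', Finset.mul_sum]
  refine Finset.sum_congr rfl fun d hd => ?_
  have h1 : ∑ i, d i = n := by
    have := hQ (MvPolynomial.mem_support_iff.mp hd)
    rw [← this, Finsupp.weight_apply, Finsupp.sum_fintype _ _ (by simp)]
    simp
  have h2 : ∏ i, (c * w i) ^ d i = c ^ n * ∏ i, w i ^ d i := by
    rw [← h1, ← Finset.prod_pow_eq_pow_sum, ← Finset.prod_mul_distrib]
    exact Finset.prod_congr rfl fun i _ => mul_pow _ _ _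
  rw [h2]; ring

/-- the linear form as a polynomial -/
private def piForm (f : (Fin 3 → k) →ₗ[k] k) : MvPolynomial (Fin 3) k :=
  ∑ i, MvPolynomial.C (f (Pi.single i 1)) * MvPolynomial.X i

private theorem piForm_hom (f : (Fin 3 → k) →ₗ[k] k) : (piForm f).IsHomogeneous 1 := by
  refine MvPolynomial.IsHomogeneous.sum _ _ _ fun i _ => ?_
  simpa using (MvPolynomial.isHomogeneous_C (Fin 3) (f (Pi.single i 1))).mul
    (MvPolynomial.isHomogeneous_X k i)

private theorem pi_lin (f : (Fin 3 → k) →ₗ[k] k) (v : Fin 3 → k) :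
    f v = ∑ i, f (Pi.single i 1) * v i := by
  conv_lhs => rw [← Finset.univ_sum_single v]
  rw [map_sum]
  refine Finset.sum_congr rfl fun i _ => ?_
  have : (Pi.single i (v i) : Fin 3 → k) = v i • Pi.single i 1 := by
    rw [← Pi.single_smul]; simp
  rw [this, map_smul, smul_eq_mul, mul_comm]

private theorem piForm_eval (f : (Fin 3 → k) →ₗ[k] k) (v : Fin 3 → k) :
    MvPolynomial.eval v (piForm f) = f v := by
  rw [pi_lin f v, piForm, map_sum]
  refine Finset.sum_congr rfl fun i _ => by simp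

private theorem piForm_res (T : Frame k) (f : (Fin 3 → k) →ₗ[k] k) :
    T.res (piForm f) = C (C (f T.a)) * C X + C (C (f T.o)) * X + C (C (f T.e)) := by
  rw [pi_lin f T.a, pi_lin f T.o, pi_lin f T.e, piForm, map_sum]
  simp only [map_sum, Finset.sum_mul, ← Finset.sum_add_distrib]
  refine Finset.sum_congr rfl fun i _ => ?_
  have h0 : ∀ r : k, algebraMap k k[X][X] r = C (C r) := fun r => rfl
  simp only [Frame.res, map_mul, MvPolynomial.aeval_X, MvPolynomial.aeval_C, Frame.vec, h0]
  ring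

private theorem pi_decomp (T : Frame k) (i : Fin 3) :
    (MvPolynomial.X i : MvPolynomial (Fin 3) k) =
      MvPolynomial.C (T.a i) * piForm T.m + MvPolynomial.C (T.o i) * piForm T.p +
        MvPolynomial.C (T.e i) * piForm T.l := by
  have h1 : ∀ j : Fin 3, (Pi.single j 1 : Fin 3 → k) i =
      T.a i * T.m (Pi.single j 1) + T.o i * T.p (Pi.single j 1) +
        T.e i * T.l (Pi.single j 1) := by
    intro j
    have := congrFun (T.dec (Pi.single j 1)) i
    simp only [Pi.add_apply, Pi.smul_apply, smul_eq_mul] at this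
    rw [this]; ring
  have h2 : (MvPolynomial.X i : MvPolynomial (Fin 3) k) =
      ∑ j, MvPolynomial.C ((Pi.single j 1 : Fin 3 → k) i) * MvPolynomial.X j := by
    rw [Finset.sum_eq_single i]
    · simp
    · intro j _ hj
      rw [Pi.single_apply, if_neg hj.symm]; simp
    · simp
  rw [h2]
  simp only [piForm, Finset.mul_sum, ← Finset.sum_add_distrib]
  refine Finset.sum_congr rfl fun j _ => ?_
  rw [h1 j]
  simp only [map_add, map_mul]
  ring

private theorem pi_res_inj (T : Frame k) {Q : MvPolynomial (Fin 3) k} {n : ℕ}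
    (hQ : Q.IsHomogeneous n) (h : T.res Q = 0) : Q = 0 := by
  let R := MvPolynomial (Fin 3) k
  let K := FractionRing R
  have hL : algebraMap R K (piForm T.l) ≠ 0 := by
    rw [Ne, IsFractionRing.to_map_eq_zero_iff]
    intro h0
    have := piForm_eval T.l T.e
    rw [h0, map_zero, T.le] at this
    exact zero_ne_one this
  set lK := algebraMap R K (piForm T.l) with hlK
  set mK := algebraMap R K (piForm T.m) with hmK
  set pK := algebraMap R K (piForm T.p) with hpK
  have hX : ∀ i, algebraMap R K (MvPolynomial.X i) = lK * T.vec (mK / lK) (pK / lK) i := by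
    intro i
    rw [pi_decomp T i]
    have h0 : ∀ r : k, algebraMap R K (MvPolynomial.C r) = algebraMap k K r := fun r =>
      (IsScalarTower.algebraMap_apply k R K r).symm
    have e1 : lK * (mK / lK) = mK := mul_div_cancel₀ _ hL
    have e2 : lK * (pK / lK) = pK := mul_div_cancel₀ _ hL
    simp only [map_add, map_mul, h0, Frame.vec, ← hlK, ← hmK, ← hpK]
    linear_combination (-(algebraMap k K (T.a i))) * e1 - algebraMap k K (T.o i) * e2
  have h1 : algebraMap R K Q =
      MvPolynomial.aeval (fun i => algebraMap R K (MvPolynomial.X i)) Q := by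
    have := MvPolynomial.aeval_unique (IsScalarTower.toAlgHom k R K)
    have h2 := DFunLike.congr_fun this Q
    exact h2
  have h3 : MvPolynomial.aeval (T.vec (mK / lK) (pK / lK)) Q =
      aevalAeval (mK / lK) (pK / lK) (T.res Q) := by
    have : (aevalAeval (mK / lK) (pK / lK)).comp T.res =
        MvPolynomial.aeval (T.vec (mK / lK) (pK / lK)) := by
      refine MvPolynomial.algHom_ext fun i => ?_
      simp [Frame.res, Frame.vec]
    rw [← this]; rfl
  have h4 : algebraMap R K Q = 0 := by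
    rw [h1]
    have : (fun i => algebraMap R K (MvPolynomial.X i)) =
        fun i => lK * T.vec (mK / lK) (pK / lK) i := funext hX
    rw [this, pi_aeval_mul hQ, h3, h, map_zero, mul_zero]
  exact (IsFractionRing.to_map_eq_zero_iff).mp h4

/-- every polynomial on the chart is the restriction of a form -/
private theorem pi_exists_form (T : Frame k) (q : k[X][X]) :
    ∃ (n : ℕ) (Q : MvPolynomial (Fin 3) k), Q.IsHomogeneous n ∧ T.res Q = q := by
  have hl : T.res (piForm T.l) = 1 := by
    rw [piForm_res, T.la, T.lo, T.le]; simp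
  have hm : T.res (piForm T.m) = C X := by
    rw [piForm_res, T.ma, T.mo, T.me]; simp
  have hp : T.res (piForm T.p) = X := by
    rw [piForm_res, T.pa, T.po, T.pe]; simp
  have hadd : ∀ q₁ q₂ : k[X][X],
      (∃ (n : ℕ) (Q : MvPolynomial (Fin 3) k), Q.IsHomogeneous n ∧ T.res Q = q₁) →
      (∃ (n : ℕ) (Q : MvPolynomial (Fin 3) k), Q.IsHomogeneous n ∧ T.res Q = q₂) →
      ∃ (n : ℕ) (Q : MvPolynomial (Fin 3) k), Q.IsHomogeneous n ∧ T.res Q = q₁ + q₂ := by
    rintro q₁ q₂ ⟨n₁, Q₁, h₁, e₁⟩ ⟨n₂, Q₂, h₂, e₂⟩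
    refine ⟨n₁ + n₂, Q₁ * piForm T.l ^ n₂ + Q₂ * piForm T.l ^ n₁, ?_, ?_⟩
    · refine MvPolynomial.IsHomogeneous.add ?_ ?_
      · simpa using h₁.mul ((piForm_hom T.l).pow n₂)
      · rw [add_comm]; simpa using h₂.mul ((piForm_hom T.l).pow n₁)
    · simp [e₁, e₂, hl]
  have hmul : ∀ q₁ q₂ : k[X][X],
      (∃ (n : ℕ) (Q : MvPolynomial (Fin 3) k), Q.IsHomogeneous n ∧ T.res Q = q₁) →
      (∃ (n : ℕ) (Q : MvPolynomial (Fin 3) k), Q.IsHomogeneous n ∧ T.res Q = q₂) →
      ∃ (n : ℕ) (Q : MvPolynomial (Fin 3) k), Q.IsHomogeneous n ∧ T.res Q = q₁ * q₂ := by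
    rintro q₁ q₂ ⟨n₁, Q₁, h₁, e₁⟩ ⟨n₂, Q₂, h₂, e₂⟩
    exact ⟨n₁ + n₂, Q₁ * Q₂, h₁.mul h₂, by rw [map_mul, e₁, e₂]⟩
  have hX : ∀ n : ℕ, ∃ (N : ℕ) (Q : MvPolynomial (Fin 3) k), Q.IsHomogeneous N ∧
      T.res Q = X ^ n := fun n =>
    ⟨1 * n, piForm T.p ^ n, (piForm_hom T.p).pow n, by rw [map_pow, hp]⟩
  have hC : ∀ r : k[X], ∃ (N : ℕ) (Q : MvPolynomial (Fin 3) k), Q.IsHomogeneous N ∧
      T.res Q = C r := by
    intro r
    induction r using Polynomial.induction_on' with
    | add r₁ r₂ h₁ h₂ => rw [C_add]; exact hadd _ _ h₁ h₂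
    | monomial n c =>
      refine ⟨0 + 1 * n, MvPolynomial.C c * piForm T.m ^ n,
        (MvPolynomial.isHomogeneous_C _ _).mul ((piForm_hom T.m).pow n), ?_⟩
      have h0 : T.res (MvPolynomial.C c) = C (C c) := MvPolynomial.aeval_C _ _
      rw [map_mul, map_pow, hm, h0, ← C_mul_X_pow_eq_monomial, C_mul, C_pow]
  induction q using Polynomial.induction_on' with
  | add r₁ r₂ h₁ h₂ => exact hadd _ _ h₁ h₂
  | monomial n c =>
    rw [← C_mul_X_pow_eq_monomial]
    exact hmul _ _ (hC c) (hX n)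

/-- Let `T.eq F = g h` with `g`, `h` monic in `y`. Let `G`, `H` be forms with the restrictions `g`,
`h` to the chart. The form `G H l ^ d` has the same restriction as a multiple of `F l ^ n`, so these
forms are equal and the prime `F` divides `G`, `H` or `l ^ d`. So `T.eq F`, of degree `d` in `y`,
divides `g`, `h` or `1`. -/
theorem eq_irreducible (T : Frame k) {F : MvPolynomial (Fin 3) k} {d : ℕ} (hd : 0 < d)
    (hF : F.IsHomogeneous d) (ho : MvPolynomial.eval T.o F ≠ 0) (hirr : Irreducible F) :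
    Irreducible (T.eq F) := by
  obtain ⟨hmon, hdeg⟩ := eq_monic T hF ho
  have hne : T.eq F ≠ 1 := by
    intro h
    rw [h, natDegree_one] at hdeg
    omega
  have hl : T.res (piForm T.l) = 1 := by
    rw [piForm_res, T.la, T.lo, T.le]; simp
  set c : k := (MvPolynomial.eval T.o F)⁻¹ with hc
  have hc0 : c ≠ 0 := inv_ne_zero ho
  have hres : T.eq F = T.res (MvPolynomial.C c * F) := by
    have h0 : T.res (MvPolynomial.C c) = C (C c) := MvPolynomial.aeval_C _ _
    rw [map_mul, h0]; rfl
  have hprime : Prime F := hirr.prime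
  -- a form which is divisible by `F` has a restriction which is divisible by the equation
  have hdvd : ∀ G : MvPolynomial (Fin 3) k, F ∣ G → T.eq F ∣ T.res G := by
    rintro G ⟨G', rfl⟩
    refine ⟨T.res (MvPolynomial.C c⁻¹ * G'), ?_⟩
    rw [hres, ← map_mul]
    congr 1
    have : (MvPolynomial.C c * MvPolynomial.C c⁻¹ : MvPolynomial (Fin 3) k) = 1 := by
      rw [← MvPolynomial.C_mul, mul_inv_cancel₀ hc0, MvPolynomial.C_1]
    linear_combination (-(F * G')) * this
  rw [hmon.irreducible_iff_natDegree]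
  refine ⟨hne, fun g h hg hh hgh => ?_⟩
  have hsum : g.natDegree + h.natDegree = (T.eq F).natDegree := by
    rw [← hgh, hg.natDegree_mul hh]
  obtain ⟨n₁, G, hG, eG⟩ := pi_exists_form T g
  obtain ⟨n₂, H, hH, eH⟩ := pi_exists_form T h
  have key : G * H * piForm T.l ^ d - MvPolynomial.C c * F * piForm T.l ^ (n₁ + n₂) = 0 := by
    refine pi_res_inj T (n := n₁ + n₂ + d) ?_ ?_
    · refine MvPolynomial.IsHomogeneous.sub ?_ ?_
      · simpa using (hG.mul hH).mul ((piForm_hom T.l).pow d)
      · have := ((MvPolynomial.isHomogeneous_C (Fin 3) c).mul hF).mul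
          ((piForm_hom T.l).pow (n₁ + n₂))
        have e : 0 + d + 1 * (n₁ + n₂) = n₁ + n₂ + d := by ring
        rwa [e] at this
    · rw [map_sub, map_mul, map_mul, map_mul (T.res) (MvPolynomial.C c * F), ← hres, map_pow,
        map_pow, hl, eG, eH, hgh]
      simp
  have hF1 : F ∣ G * H * piForm T.l ^ d := by
    rw [sub_eq_zero.mp key]
    exact ((Dvd.intro_left _ rfl).mul_right _)
  rcases hprime.dvd_or_dvd hF1 with h1 | h1
  · rcases hprime.dvd_or_dvd h1 with h2 | h2
    · right
      have h3 := natDegree_le_of_dvd (hdvd G h2) (by rw [eG]; exact hg.ne_zero)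
      rw [eG] at h3
      omega
    · left
      have h3 := natDegree_le_of_dvd (hdvd H h2) (by rw [eH]; exact hh.ne_zero)
      rw [eH] at h3
      omega
  · exfalso
    have h3 := hdvd _ h1
    rw [map_pow, hl, one_pow] at h3
    have h4 := natDegree_le_of_dvd h3 one_ne_zero
    rw [natDegree_one, hdeg] at h4
    omega

theorem isDomain_Rg (T : Frame k) {F : MvPolynomial (Fin 3) k} {d : ℕ} (hd : 0 < d)
    (hF : F.IsHomogeneous d) (ho : MvPolynomial.eval T.o F ≠ 0) (hirr : Irreducible F) :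
    IsDomain (T.Rg F) :=
  AdjoinRoot.isDomain_of_prime (eq_irreducible T hd hF ho hirr).prime

end Pool.Agent.Crv
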