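import Pool.Agent.Crv.Fil

/-!
# The algebra `R[t] / (f)`
-/

set_option autoImplicit false

noncomputable section

namespace Pool.Agent.Crv

open Polynomial

universe u

attribute [local instance] Polynomial.algebra

variable {k : Type u} [Field k] {R : Type u} [CommRing R] [Algebra k R] {D : ℕ} (B : Bas k R D)

private theorem quo_X_smul {f : R[X]} (n : ℕ) (w : R[X]) :
    (X ^ n : k[X]) • (Ideal.Quotient.mk (Ideal.span {f}) w : Qt f) =
      (Ideal.Quotient.mk (Ideal.span {f}) (X ^ n * w) : Qt f) := by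
  have h : (X ^ n : k[X]) • (Ideal.Quotient.mk (Ideal.span {f}) w : Qt f) =
      (Ideal.Quotient.mk (Ideal.span {f}) ((X ^ n : k[X]) • w) : Qt f) := rfl
  rw [h]
  congr 1
  rw [Algebra.smul_def]
  congr 1
  simp [Polynomial.algebraMap_def]

private theorem quo_C_smul {f : R[X]} (c : k) (w : R[X]) :
    (C c : k[X]) • (Ideal.Quotient.mk (Ideal.span {f}) w : Qt f) =
      (Ideal.Quotient.mk (Ideal.span {f}) (C (algebraMap k R c) * w) : Qt f) := by
  have h : (C c : k[X]) • (Ideal.Quotient.mk (Ideal.span {f}) w : Qt f) =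
      (Ideal.Quotient.mk (Ideal.span {f}) ((C c : k[X]) • w) : Qt f) := rfl
  rw [h]
  congr 1
  rw [Algebra.smul_def]
  congr 1
  simp [Polynomial.algebraMap_def]

private theorem quo_coeff {f : R[X]} (V : Submodule k[X] (Qt f)) (w : R[X])
    (h : ∀ n, (Ideal.Quotient.mk (Ideal.span {f}) (C (w.coeff n)) : Qt f) ∈ V) :
    (Ideal.Quotient.mk (Ideal.span {f}) w : Qt f) ∈ V := by
  have hw : w = ∑ n ∈ w.support, X ^ n * C (w.coeff n) := by
    conv_lhs => rw [w.as_sum_support_C_mul_X_pow]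
    exact Finset.sum_congr rfl fun n _ => mul_comm _ _
  rw [hw, map_sum]
  refine Submodule.sum_mem _ fun n _ => ?_
  rw [← quo_X_smul (k := k)]
  exact V.smul_mem _ (h n)

private theorem quo_mem {e : ℕ} {f : R[X]} (hf : B.Mon e f) (m : ℕ) :
    ∀ a ∈ B.Lt m, (Ideal.Quotient.mk (Ideal.span {f}) (C a) : Qt f) ∈
      Submodule.span k[X] (Set.range fun p : Fin e × Fin D =>
      (Ideal.Quotient.mk (Ideal.span {f}) (C (B.x ^ (p.1 : ℕ) * B.y ^ (p.2 : ℕ))) : Qt f)) := by
  obtain ⟨u, hu, rfl⟩ := hf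
  induction m with
  | zero =>
    intro a ha
    have h0 : {z : R | ∃ i j : ℕ, i + j < 0 ∧ z = B.x ^ i * B.y ^ j} = ∅ := by
      ext z
      simp
    have ha0 : a = 0 := by
      unfold Bas.Lt at ha
      rw [h0, Submodule.span_empty] at ha
      simpa using ha
    rw [ha0, map_zero, map_zero]
    exact Submodule.zero_mem _
  | succ m ih =>
    intro a ha
    rw [Lt_eq] at ha
    induction ha using Submodule.span_induction with
    | zero => rw [map_zero, map_zero]; exact Submodule.zero_mem _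
    | add a b _ _ h1 h2 => rw [map_add, map_add]; exact Submodule.add_mem _ h1 h2
    | smul c a _ h1 =>
      rw [Algebra.smul_def, map_mul, ← quo_C_smul]
      exact Submodule.smul_mem _ _ h1
    | mem z hz =>
      obtain ⟨i, j, hij, hj, rfl⟩ := hz
      by_cases hi : i < e
      · exact Submodule.subset_span ⟨(⟨i, hi⟩, ⟨j, hj⟩), rfl⟩
      · push Not at hi
        set b : R := B.x ^ (i - e) * B.y ^ j with hb
        have hbm : b ∈ B.Lt (i - e + j + 1) :=
          Submodule.subset_span ⟨i - e, j, by omega, rfl⟩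
        have hprod : C (B.x ^ i * B.y ^ j) = (C (B.x ^ e) + u) * C b - u * C b := by
          have : B.x ^ i = B.x ^ e * B.x ^ (i - e) := by rw [← pow_add]; congr 1; omega
          rw [add_mul, add_sub_cancel_right, ← C_mul, hb, this, mul_assoc]
        rw [hprod, map_sub]
        refine Submodule.sub_mem _ ?_ ?_
        · rw [map_mul]
          have : Ideal.Quotient.mk (Ideal.span {C (B.x ^ e) + u}) (C (B.x ^ e) + u) = 0 :=
            Ideal.Quotient.eq_zero_iff_mem.mpr (Ideal.subset_span rfl)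
          rw [this, zero_mul]
          exact Submodule.zero_mem _
        · refine quo_coeff _ _ fun n => ?_
          rw [coeff_mul_C]
          refine ih _ ?_
          rw [mul_comm]
          refine Lt_mono B ?_ (mul_mem_Lt B hbm (hu n))
          omega

/-- Induction on `m`: for `i + j < m`, `j < D`, `e ≤ i`, the product `x ^ i * y ^ j =
x ^ (i - e) * y ^ j * x ^ e` is congruent to `-x ^ (i - e) * y ^ j * u`, and the coefficients of this
polynomial are in `Lt (m - 1)`. -/
theorem Qt_span {e : ℕ} {f : R[X]} (hf : B.Mon e f) :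
    Submodule.span k[X] (Set.range fun p : Fin e × Fin D =>
      (Ideal.Quotient.mk (Ideal.span {f}) (C (B.x ^ (p.1 : ℕ) * B.y ^ (p.2 : ℕ))) : Qt f)) = ⊤ := by
  rw [eq_top_iff]
  intro z _
  obtain ⟨w, rfl⟩ := Ideal.Quotient.mk_surjective z
  refine quo_coeff _ _ fun n => ?_
  obtain ⟨m, hm⟩ := exists_mem_Lt B (w.coeff n)
  exact quo_mem B hf m _ hm

/-- `x ^ e` is not in `Lt e` -/
theorem Mon_eval_ne {e : ℕ} {f : R[X]} (hf : B.Mon e f) (a : k) :
    f.eval (algebraMap k R a) ≠ 0 := by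
  obtain ⟨u, hu, rfl⟩ := hf
  intro h
  rw [eval_add, eval_C] at h
  have h1 : u.eval (algebraMap k R a) ∈ B.Lt e := by
    rw [eval_eq_sum, Polynomial.sum]
    refine Submodule.sum_mem _ fun n _ => ?_
    rw [← map_pow, mul_comm, ← Algebra.smul_def]
    exact Submodule.smul_mem _ _ (hu n)
  have h2 : B.x ^ e ∈ B.Lt e := by
    have : B.x ^ e = - u.eval (algebraMap k R a) := eq_neg_of_add_eq_zero_left h
    rw [this]
    exact Submodule.neg_mem _ h1
  rw [Lt_eq] at h2
  have h3 := B.ind.notMem_span_image (s := {p : ℕ × Fin D | p.1 + (p.2 : ℕ) < e})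
    (x := (e, ⟨0, B.pos⟩)) (by simp)
  refine h3 ?_
  have h4 : B.x ^ ((e, (⟨0, B.pos⟩ : Fin D)) : ℕ × Fin D).1 *
      B.y ^ ((((e, (⟨0, B.pos⟩ : Fin D)) : ℕ × Fin D).2 : Fin D) : ℕ) = B.x ^ e := by
    simp
  rw [h4]
  refine Submodule.span_mono ?_ h2
  rintro z ⟨i, j, hij, hj, rfl⟩
  exact ⟨(i, ⟨j, hj⟩), hij, rfl⟩

end Pool.Agent.Crv
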