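import Pool.Agent.Crv.Quot

/-!
# The algebra `R[t] / (f)` is free over `k[t]`
-/

set_option autoImplicit false

noncomputable section

namespace Pool.Agent.Crv

open Polynomial

universe u

attribute [local instance] Polynomial.algebra

variable {k : Type u} [Field k] {R : Type u} [CommRing R] [Algebra k R] {D : ℕ} (B : Bas k R D)

include B in
private theorem quot2_root [IsDomain R] {e : ℕ} {f : R[X]} (hf : B.Mon e f) (a : k) (w : Qt f)
    (h : (X - C a : k[X]) • w = 0) : w = 0 := by
  obtain ⟨g, rfl⟩ := Ideal.Quotient.mk_surjective w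
  have h1 : (X - C (algebraMap k R a) : R[X]) * g ∈ Ideal.span {f} := by
    have h0 : (X - C a : k[X]) • g = (X - C (algebraMap k R a) : R[X]) * g := by
      rw [Algebra.smul_def, Polynomial.algebraMap_def, coe_mapRingHom, Polynomial.map_sub,
        Polynomial.map_X, Polynomial.map_C]
    rw [← Ideal.Quotient.eq_zero_iff_mem, ← h, ← h0]
    rfl
  rw [Ideal.mem_span_singleton'] at h1
  obtain ⟨q, hq⟩ := h1
  have h2 := congrArg (fun p => eval (algebraMap k R a) p) hq
  simp only [eval_mul, eval_sub, eval_X, eval_C, sub_self, zero_mul] at h2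
  have h3 : q.IsRoot (algebraMap k R a) := (mul_eq_zero.1 h2).resolve_right (Mon_eval_ne B hf a)
  obtain ⟨q', hq'⟩ := dvd_iff_isRoot.2 h3
  have h4 : (X - C (algebraMap k R a) : R[X]) * (q' * f) =
      (X - C (algebraMap k R a) : R[X]) * g := by
    rw [← hq, hq']
    ring
  have h5 := mul_left_cancel₀ (X_sub_C_ne_zero _) h4
  rw [Ideal.Quotient.eq_zero_iff_mem, ← h5]
  exact Ideal.mul_mem_left _ _ (Ideal.mem_span_singleton_self f)

/-- `R[t] / (f)` has no torsion: if `(t - a) w = f h` then `f(a) h(a) = 0` in the domain `R`, so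
`t - a` divides `h` and then `w` is in `(f)`; a module of finite type without torsion over `k[t]` is
free, and the rank is at most the number of generators (`Qt_span`). -/
theorem exists_basis [IsAlgClosed k] [IsDomain R] {e : ℕ} {f : R[X]} (hf : B.Mon e f) :
    ∃ n ≤ D * e, Nonempty (Module.Basis (Fin n) k[X] (Qt f)) := by
  have hspan := Qt_span B hf
  have hfin : Module.Finite k[X] (Qt f) := by
    rw [Module.finite_def, ← hspan]
    exact Submodule.fg_span (Set.finite_range _)
  have htf : Module.IsTorsionFree k[X] (Qt f) := by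
    rw [Module.isTorsionFree_iff_smul_eq_zero]
    have key : ∀ (m : ℕ) (p : k[X]) (w : Qt f), p.natDegree = m → p ≠ 0 → p • w = 0 → w = 0 := by
      intro m
      induction m with
      | zero =>
        intro p w hp hp0 h
        rw [natDegree_eq_zero] at hp
        obtain ⟨c, rfl⟩ := hp
        have hc : c ≠ 0 := fun h0 => hp0 (by rw [h0, C_0])
        have h1 : (C c⁻¹ : k[X]) • (C c • w) = 0 := by rw [h, smul_zero]
        rwa [smul_smul, ← C_mul, inv_mul_cancel₀ hc, C_1, one_smul] at h1
      | succ m ih =>
        intro p w hp hp0 h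
        obtain ⟨a, ha⟩ := IsAlgClosed.exists_root p (by
          rw [degree_eq_natDegree hp0, hp]
          exact_mod_cast Nat.succ_ne_zero m)
        obtain ⟨q, rfl⟩ := dvd_iff_isRoot.2 ha
        rw [mul_smul] at h
        have hq0 : q ≠ 0 := right_ne_zero_of_mul hp0
        rw [natDegree_mul (X_sub_C_ne_zero a) hq0, natDegree_X_sub_C] at hp
        exact ih q w (by omega) hq0 (quot2_root B hf a _ h)
    intro p w h
    by_cases hp : p = 0
    · exact Or.inl hp
    · exact Or.inr (key _ p w rfl hp h)
  have hfree : Module.Free k[X] (Qt f) := inferInstance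
  refine ⟨Module.finrank k[X] (Qt f), ?_, ⟨Module.finBasis k[X] (Qt f)⟩⟩
  have h1 := finrank_range_le_card (R := k[X]) (fun p : Fin e × Fin D =>
      (Ideal.Quotient.mk (Ideal.span {f}) (C (B.x ^ (p.1 : ℕ) * B.y ^ (p.2 : ℕ))) : Qt f))
  unfold Set.finrank at h1
  rw [hspan, finrank_top, Fintype.card_prod, Fintype.card_fin, Fintype.card_fin, mul_comm] at h1
  exact h1

end Pool.Agent.Crv
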