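import Pool.Agent.Crv.Defs

/-!
# Points and eigenvectors
-/

set_option autoImplicit false

noncomputable section

namespace Pool.Agent.Crv

open Polynomial Matrix

universe u

attribute [local instance] Polynomial.algebra

variable {k : Type u} [Field k] {R : Type u} [CommRing R] [Algebra k R]

private theorem rw_algebraMap {f : R[X]} (p : k[X]) :
    algebraMap k[X] (Qt f) p =
      Ideal.Quotient.mk (Ideal.span {f}) (p.map (algebraMap k R)) := rfl

/-- `muAt` is a homomorphism of algebras -/
theorem exists_muHom {f : R[X]} {ι : Type} [Fintype ι] [DecidableEq ι]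
    (b : Module.Basis ι k[X] (Qt f)) {K : Type u} [Field K] [Algebra k K] (τ : K) :
    ∃ μ : R →ₐ[k] Matrix ι ι K, ∀ g, μ g = muAt b τ g := by
  let μ : R →+* Matrix ι ι K :=
    ((aeval τ : k[X] →ₐ[k] K) : k[X] →+* K).mapMatrix.comp
      ((Algebra.leftMulMatrix b : Qt f →ₐ[k[X]] Matrix ι ι k[X]).toRingHom.comp
        ((Ideal.Quotient.mk (Ideal.span {f})).comp C))
  have hμ : ∀ g, μ g = muAt b τ g := fun g => rfl
  refine ⟨{ μ with commutes' := fun r => ?_ }, fun g => rfl⟩
  change μ (algebraMap k R r) = algebraMap k (Matrix ι ι K) r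
  rw [hμ]
  unfold muAt mu
  have h1 : Ideal.Quotient.mk (Ideal.span {f}) (C (algebraMap k R r)) =
      algebraMap k[X] (Qt f) (C r) := by
    rw [rw_algebraMap, Polynomial.map_C]
  rw [h1, AlgHom.commutes]
  ext i j
  rw [Matrix.map_apply, Matrix.algebraMap_matrix_apply, Matrix.algebraMap_matrix_apply]
  split_ifs
  · rw [Algebra.algebraMap_self, RingHom.id_apply, aeval_C]
  · rw [map_zero]

/-- For a point `S` on the curve with `f(S, τ) = 0` the map `p ↦ p(S, τ)` on `R[t]` defines a
functional `φ` on `R[t] / (f)`, semilinear over `k[t] → K`, `t ↦ τ`; `ψ` consists of the values of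
`φ` at the basis. The functionals of different points are linearly independent by
`linearIndependent_monoidHom`. -/
theorem exists_rows {f : R[X]} {ι : Type} [Fintype ι] [DecidableEq ι]
    (b : Module.Basis ι k[X] (Qt f)) {K : Type u} [Field K] [Algebra k K] (τ : K) {κ : Type}
    (S : κ → (R →ₐ[k] K)) (hS : Function.Injective S)
    (h0 : ∀ i, f.eval₂ (S i : R →+* K) τ = 0) :
    ∃ ψ : κ → ι → K, LinearIndependent K ψ ∧
      ∀ i g, Matrix.vecMul (ψ i) (muAt b τ g) = S i g • ψ i := by
  -- the functionals
  let e : κ → R[X] →+* K := fun i => eval₂RingHom (S i : R →+* K) τ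
  have he : ∀ i, ∀ a ∈ Ideal.span {f}, e i a = 0 := by
    intro i a ha
    obtain ⟨c, rfl⟩ := Ideal.mem_span_singleton'.1 ha
    rw [map_mul]
    have h1 : e i f = 0 := h0 i
    rw [h1, mul_zero]
  let φ : κ → Qt f →+* K := fun i => Ideal.Quotient.lift (Ideal.span {f}) (e i) (he i)
  have hφC : ∀ i g, φ i (Ideal.Quotient.mk _ (C g)) = S i g := by
    intro i g
    change e i (C g) = S i g
    change eval₂ (S i : R →+* K) τ (C g) = S i g
    rw [eval₂_C]
    rfl
  have hφs : ∀ i (p : k[X]) (q : Qt f), φ i (p • q) = aeval τ p * φ i q := by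
    intro i p q
    have h1 : p • q = algebraMap k[X] (Qt f) p * q := Algebra.smul_def p q
    rw [h1, map_mul]
    congr 1
    rw [rw_algebraMap]
    change eval₂ (S i : R →+* K) τ (p.map (algebraMap k R)) = aeval τ p
    rw [eval₂_map, aeval_def]
    congr 1
    ext r
    exact (S i).commutes r
  have hsum : ∀ (i : κ) (q : Qt f), ∑ j, φ i (b j) * aeval τ (b.repr q j) = φ i q := by
    intro i q
    conv_rhs => rw [← b.sum_repr q, map_sum]
    refine Finset.sum_congr rfl fun j _ => ?_
    rw [hφs, mul_comm]
  refine ⟨fun i j => φ i (b j), ?_, ?_⟩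
  · have hinj : Function.Injective fun i => ((φ i : Qt f →+* K) : Qt f →* K) := by
      intro i i' h
      apply hS
      ext g
      rw [← hφC, ← hφC]
      exact DFunLike.congr_fun h (Ideal.Quotient.mk _ (C g))
    have h1 := (linearIndependent_monoidHom (Qt f) K).comp _ hinj
    let T : (ι → K) →ₗ[K] (Qt f → K) :=
      { toFun := fun v q => ∑ j, v j * aeval τ (b.repr q j)
        map_add' := fun v w => by
          funext q
          simp only [Pi.add_apply, add_mul, Finset.sum_add_distrib]
        map_smul' := fun a v => by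
          funext q
          simp only [Pi.smul_apply, smul_eq_mul, Finset.mul_sum, mul_assoc, RingHom.id_apply] }
    refine LinearIndependent.of_comp T ?_
    have h2 : (T ∘ fun i j => φ i (b j)) =
        (fun g : Qt f →* K => (g : Qt f → K)) ∘
          fun i => ((φ i : Qt f →+* K) : Qt f →* K) := by
      funext i q
      exact hsum i q
    rw [h2]
    exact h1
  · intro i g
    funext j
    rw [Matrix.vecMul, dotProduct, Pi.smul_apply, smul_eq_mul, ← hφC, ← map_mul,
      ← hsum i (Ideal.Quotient.mk _ (C g) * b j)]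
    refine Finset.sum_congr rfl fun l _ => ?_
    congr 1
    unfold muAt mu
    rw [Matrix.map_apply, Algebra.leftMulMatrix_eq_repr_mul]

end Pool.Agent.Crv
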