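import Pool.Agent.Crv.Quot2
import Pool.Agent.Crv.Rows
import Pool.Agent.Crv.LinAlg

/-!
# The family `R[t] / (∏ (x - s j) + t P)`
-/

set_option autoImplicit false

noncomputable section

namespace Pool.Agent.Crv

open Polynomial

universe u

attribute [local instance] Polynomial.algebra

variable {k : Type u} [Field k] {R : Type u} [CommRing R] [Algebra k R] {D : ℕ} {B : Bas k R D}
  {N : ℕ} {s : Fin N → k} {c : Fin N → Fin D → (R →ₐ[k] k)}

private theorem start_lam (s : Fin N → k) : B.lam s - B.x ^ N ∈ B.Lt N := by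
  let q : k[X] := ∏ j, (X - C (s j)) - X ^ N
  have hq : aeval B.x q = B.lam s - B.x ^ N := by
    simp only [q, Bas.lam, map_sub, map_prod, aeval_X, aeval_C, map_pow]
  rw [← hq]
  by_cases hN : N = 0
  · subst hN
    have : q = 0 := by simp [q]
    rw [this, map_zero]
    exact Submodule.zero_mem _
  have hdeg : q.natDegree < N := by
    by_cases hq0 : q = 0
    · rw [hq0, natDegree_zero]
      exact Nat.pos_of_ne_zero hN
    rw [natDegree_lt_iff_degree_lt hq0]
    have hmon : (∏ j, (X - C (s j)) : k[X]).Monic := monic_prod_of_monic _ _ fun j _ =>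
      monic_X_sub_C (s j)
    have hd : (∏ j, (X - C (s j)) : k[X]).degree = N := by
      rw [degree_eq_natDegree hmon.ne_zero, natDegree_prod_of_monic _ _ fun j _ =>
        monic_X_sub_C (s j)]
      simp
    have h1 : (∏ j, (X - C (s j)) : k[X]).degree = (X ^ N : k[X]).degree := by
      rw [hd, degree_X_pow]
    have h2 := degree_sub_lt_left h1 hmon.ne_zero (by
      rw [hmon.leadingCoeff, leadingCoeff_X_pow])
    rw [hd] at h2
    exact h2
  rw [aeval_eq_sum_range]
  refine Submodule.sum_mem _ fun i hi => Submodule.smul_mem _ _ ?_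
  refine Submodule.subset_span ⟨i, 0, ?_, by rw [pow_zero, mul_one]⟩
  rw [Finset.mem_range] at hi
  omega

/-- `∏ (x - s j)` has the leading form `x ^ N` -/
theorem fam_mon (s : Fin N → k) {P : R} (hP : P ∈ B.Lt N) : B.Mon N (B.fam s P) := by
  refine ⟨C (B.lam s - B.x ^ N) + X * C P, fun n => ?_, ?_⟩
  · rw [coeff_add]
    refine Submodule.add_mem _ ?_ ?_
    · rw [coeff_C]
      split_ifs
      · exact start_lam s
      · exact Submodule.zero_mem _
    · rcases n with _ | n
      · rw [coeff_X_mul_zero]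
        exact Submodule.zero_mem _
      · rw [coeff_X_mul, coeff_C]
        split_ifs
        · exact hP
        · exact Submodule.zero_mem _
  · unfold Bas.fam
    rw [C_sub]
    ring

/-- a point over `K` with `∏ (x - s j) + τ P = 0` -/
theorem fam_eval {K : Type u} [Field K] [Algebra k K] (s : Fin N → k) (P : R)
    (S : R →ₐ[k] K) (τ : K) :
    (B.fam s P).eval₂ (S : R →+* K) τ =
      ∏ j, (S B.x - algebraMap k K (s j)) + τ * S P := by
  unfold Bas.fam Bas.lam
  rw [eval₂_add, eval₂_C, eval₂_mul, eval₂_X, eval₂_C, map_prod]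
  congr 1
  refine Finset.prod_congr rfl fun j _ => ?_
  rw [map_sub]
  congr 1
  exact S.commutes (s j)

private theorem start_rows (hc : Pts0 B s c) {P : R} {ι : Type} [Fintype ι] [DecidableEq ι]
    (b : Module.Basis ι k[X] (Qt (B.fam s P))) :
    ∃ ψ : Fin N × Fin D → ι → k, LinearIndependent k ψ ∧
      ∀ p g, Matrix.vecMul (ψ p) (muAt b (0 : k) g) = c p.1 p.2 g • ψ p := by
  refine exists_rows b (0 : k) (fun p : Fin N × Fin D => c p.1 p.2) ?_ ?_
  · rintro ⟨j, i⟩ ⟨j', i'⟩ h
    have h' : c j i = c j' i' := h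
    have h1 : s j = s j' := by rw [← hc.hx j i, ← hc.hx j' i', h']
    have h2 : j = j' := hc.hs h1
    subst h2
    have h3 : i = i' := hc.inj j h'
    rw [h3]
  · intro p
    rw [fam_eval, zero_mul, add_zero]
    refine Finset.prod_eq_zero (Finset.mem_univ p.1) ?_
    rw [hc.hx]
    exact sub_self _

/-- The `N * D` points `c j i` give `N * D` linearly independent vectors (`exists_rows` for `τ = 0`), and
there is a basis with at most `D * N` elements (`exists_basis`). -/
theorem exists_basis_fam [IsAlgClosed k] [IsDomain R] (hc : Pts0 B s c) {P : R}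
    (hP : P ∈ B.Lt N) :
    Nonempty (Module.Basis (Fin N × Fin D) k[X] (Qt (B.fam s P))) := by
  obtain ⟨n, hn, ⟨b⟩⟩ := exists_basis B (fam_mon s hP)
  obtain ⟨ψ, hψ, -⟩ := start_rows hc b
  have h1 : Fintype.card (Fin N × Fin D) ≤ n := by
    have h2 := hψ.fintype_card_le_finrank
    rwa [Module.finrank_fintype_fun_eq_card, Fintype.card_fin] at h2
  rw [Fintype.card_prod, Fintype.card_fin, Fintype.card_fin] at h1
  have h3 : n = N * D := le_antisymm (by rwa [mul_comm] at hn) h1
  exact ⟨b.reindex ((finCongr h3).trans finProdFinEquiv.symm)⟩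

/-- `exists_rows` and `charpoly_of_rows` for `τ = 0` and the points `c j i` -/
theorem charpoly_zero (hc : Pts0 B s c) {P : R}
    (b : Module.Basis (Fin N × Fin D) k[X] (Qt (B.fam s P))) (g : R) :
    (muAt b (0 : k) g).charpoly = ∏ p : Fin N × Fin D, (X - C (c p.1 p.2 g)) := by
  obtain ⟨ψ, hψ, h⟩ := start_rows hc b
  exact charpoly_of_rows rfl _ ψ hψ (fun p => c p.1 p.2 g) fun p => h p g

/-- `(mu b g).det` at `t = 0`; the determinant is `(-1) ^ n` times the constant coefficient of the
characteristic polynomial -/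
theorem det_zero (hc : Pts0 B s c) {P : R}
    (b : Module.Basis (Fin N × Fin D) k[X] (Qt (B.fam s P))) (g : R) :
    (mu b g).det.eval 0 = ∏ p : Fin N × Fin D, c p.1 p.2 g := by
  have h1 : (mu b g).det.eval 0 = (muAt b (0 : k) g).det := by
    unfold muAt
    have h2 := RingHom.map_det (aeval (0 : k) : k[X] →ₐ[k] k).toRingHom (mu b g)
    have h3 : ((aeval (0 : k) : k[X] →ₐ[k] k).toRingHom) (mu b g).det = (mu b g).det.eval 0 := by
      change aeval (0 : k) (mu b g).det = _
      rw [coe_aeval_eq_eval]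
    rw [← h3, h2]
    rfl
  rw [h1, Matrix.det_eq_sign_charpoly_coeff, charpoly_zero hc b g, coeff_zero_prod]
  have h4 : ∀ p : Fin N × Fin D, (X - C (c p.1 p.2 g) : k[X]).coeff 0 = -c p.1 p.2 g := by
    intro p
    rw [coeff_sub, coeff_X_zero, coeff_C_zero, zero_sub]
  simp only [h4]
  rw [Finset.prod_neg, ← mul_assoc, Finset.card_univ, ← mul_pow]
  simp

end Pool.Agent.Crv
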